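import Pool.Agent.helper121_TH.Work

/-!
# Basic lemmas on chains of lists
-/

namespace Pool.Agent.H121

section
variable {R : Type*} [CommRing R] {S T U : Type*}

@[simp] theorem cone_single (t : T) (l : List T) (a : R) :
    cone R t (Finsupp.single l a) = Finsupp.single (t :: l) a := by
  simp [cone, Finsupp.lmapDomain_apply, Finsupp.mapDomain_single]

@[simp] theorem bdL_nil : bdL R ([] : List T) = 0 := rfl

theorem bdL_cons (t : T) (l : List T) :
    bdL R (t :: l) = Finsupp.single l 1 - cone R t (bdL R l) := rfl

@[simp] theorem lin_single {M : Type*} [AddCommGroup M] [Module R M] (f : List S → M)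
    (l : List S) (a : R) : lin R f (Finsupp.single l a) = a • f l := by
  simp [lin]

theorem bd_single (l : List T) (a : R) : bd R (Finsupp.single l a) = a • bdL R l := by
  simp [bd]

/-- Two linear maps on chains agreeing on lists are equal. -/
theorem ch_ext {M : Type*} [AddCommGroup M] [Module R M] {f g : Ch R T →ₗ[R] M}
    (h : ∀ l, f (Finsupp.single l 1) = g (Finsupp.single l 1)) : f = g := by
  apply Finsupp.lhom_ext'
  intro l
  ext
  simpa using h l

theorem bd_cone (t : T) (c : Ch R T) : bd R (cone R t c) = c - cone R t (bd R c) := by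
  have : (bd R).comp (cone R t) = LinearMap.id - (cone R t).comp (bd R (T := T)) := by
    apply ch_ext
    intro l
    simp [bd_single, bdL_cons]
  exact LinearMap.congr_fun this c

theorem bd_bdL (l : List T) : bd R (bdL R l) = 0 := by
  induction l with
  | nil => simp
  | cons t l ih => rw [bdL_cons, map_sub, bd_cone, bd_single, ih]; simp

theorem bd_bd (c : Ch R T) : bd R (bd R c) = 0 := by
  have : (bd R (T := T)).comp (bd R) = 0 := by
    apply ch_ext
    intro l
    simp [bd_single, bd_bdL]
  exact LinearMap.congr_fun this c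

@[simp] theorem mp_single (φ : S → T) (l : List S) (a : R) :
    mp R φ (Finsupp.single l a) = Finsupp.single (l.map φ) a := by
  simp [mp, Finsupp.lmapDomain_apply, Finsupp.mapDomain_single]

theorem mp_cone (φ : S → T) (t : S) (c : Ch R S) :
    mp R φ (cone R t c) = cone R (φ t) (mp R φ c) := by
  have : (mp R φ).comp (cone R t) = (cone R (φ t)).comp (mp R φ) := by
    apply ch_ext
    intro l
    simp
  exact LinearMap.congr_fun this c

theorem mp_bdL (φ : S → T) (l : List S) : mp R φ (bdL R l) = bdL R (l.map φ) := by
  induction l with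
  | nil => simp
  | cons t l ih => rw [bdL_cons, map_sub, mp_cone, ih, List.map_cons, bdL_cons]; simp

theorem mp_bd (φ : S → T) (c : Ch R S) : bd R (mp R φ c) = mp R φ (bd R c) := by
  have : (bd R).comp (mp R φ) = (mp R φ).comp (bd R) := by
    apply ch_ext
    intro l
    simp [bd_single, mp_bdL]
  exact LinearMap.congr_fun this c

theorem mp_mp (φ : S → T) (ψ : T → U) (c : Ch R S) :
    mp R ψ (mp R φ c) = mp R (ψ ∘ φ) c := by
  have : (mp R ψ).comp (mp R φ) = mp R (ψ ∘ φ) := by
    apply ch_ext
    intro l
    simp
  exact LinearMap.congr_fun this c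

theorem mp_id (c : Ch R T) : mp R (fun t : T => t) c = c := by
  have : mp R (fun t : T => t) = LinearMap.id := by
    apply ch_ext
    intro l
    simp
  exact LinearMap.congr_fun this c

/-- Linear extension commutes with precomposition by a map of vertices. -/
theorem lin_mp {M : Type*} [AddCommGroup M] [Module R M] (φ : S → T) (f : List T → M)
    (c : Ch R S) : lin R f (mp R φ c) = lin R (fun l => f (l.map φ)) c := by
  have : (lin R f).comp (mp R φ) = lin R (fun l => f (l.map φ)) := by
    apply ch_ext
    intro l
    simp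
  exact LinearMap.congr_fun this c

/-- `lin` of a linear map applied to values. -/
theorem map_lin {M N : Type*} [AddCommGroup M] [Module R M] [AddCommGroup N] [Module R N]
    (g : M →ₗ[R] N) (f : List S → M) (c : Ch R S) :
    g (lin R f c) = lin R (fun l => g (f l)) c := by
  have : g.comp (lin R f) = lin R (fun l => g (f l)) := by
    apply ch_ext
    intro l
    simp
  exact LinearMap.congr_fun this c

theorem lin_congr {M : Type*} [AddCommGroup M] [Module R M] {f g : List S → M} {c : Ch R S}
    (h : ∀ l ∈ c.support, f l = g l) : lin R f c = lin R g c := by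
  simp only [lin, Finsupp.linearCombination_apply]
  exact Finsupp.sum_congr fun l hl => by rw [h l hl]

theorem mem_K {P : List T → Prop} {k : ℕ} {c : Ch R T} :
    c ∈ K R P k ↔ ∀ l ∈ c.support, P l ∧ l.length = k := by
  rw [K, Finsupp.mem_supported]
  rfl

theorem single_mem_K {P : List T → Prop} {l : List T} (h : P l) (a : R) :
    Finsupp.single l a ∈ K R P l.length := by
  rw [mem_K]
  intro l' hl'
  have := Finsupp.support_single_subset hl'
  simp only [Finset.mem_singleton] at this
  subst this
  exact ⟨h, rfl⟩

theorem single_mem_K' {P : List T → Prop} {l : List T} {k : ℕ} (h : P l) (hk : l.length = k)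
    (a : R) : Finsupp.single l a ∈ K R P k := hk ▸ single_mem_K h a

/-- Induction principle for chains in `K`. -/
theorem map_mem_of_K {M : Type*} [AddCommGroup M] [Module R M] {P : List T → Prop} {k : ℕ}
    (N : Submodule R M) (g : Ch R T →ₗ[R] M)
    (h : ∀ l, P l → l.length = k → g (Finsupp.single l 1) ∈ N) {c : Ch R T} (hc : c ∈ K R P k) :
    g c ∈ N := by
  rw [K, Finsupp.supported_eq_span_single] at hc
  induction hc using Submodule.span_induction with
  | mem x hx =>
    obtain ⟨l, hl, rfl⟩ := hx
    exact h l hl.1 hl.2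
  | zero => simp
  | add x y _ _ hx hy => rw [map_add]; exact N.add_mem hx hy
  | smul a x _ hx => rw [map_smul]; exact N.smul_mem a hx

/-- Two linear maps agreeing on `P`-lists of length `k` agree on `K R P k`. -/
theorem eq_on_K {M : Type*} [AddCommGroup M] [Module R M] {P : List T → Prop} {k : ℕ}
    {f g : Ch R T →ₗ[R] M}
    (h : ∀ l, P l → l.length = k → f (Finsupp.single l 1) = g (Finsupp.single l 1))
    {c : Ch R T} (hc : c ∈ K R P k) : f c = g c := by
  have := map_mem_of_K (⊥ : Submodule R M) (f - g) (P := P) (k := k)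
    (fun l hl hk => by simp [h l hl hk]) hc
  simpa [sub_eq_zero] using this

theorem cone_mem_K {P Q : List T → Prop} {k : ℕ} {c : Ch R T} (t : T) (hc : c ∈ K R P k)
    (h : ∀ l ∈ c.support, Q (t :: l)) : cone R t c ∈ K R Q (k + 1) := by
  classical
  rw [mem_K] at hc ⊢
  intro l hl
  have := Finsupp.mapDomain_support hl
  simp only [Finset.mem_image] at this
  obtain ⟨l', hl', rfl⟩ := this
  exact ⟨h l' hl', by simp [(hc l' hl').2]⟩

theorem K_mono {P Q : List T → Prop} (h : ∀ l, P l → Q l) (k : ℕ) : K R P k ≤ K R Q k := by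
  intro c hc
  rw [mem_K] at hc ⊢
  exact fun l hl => ⟨h l (hc l hl).1, (hc l hl).2⟩

theorem bdL_mem_K {P : List T → Prop} (hP : ∀ {l l' : List T}, l'.Sublist l → P l → P l')
    {l : List T} (hl : P l) {k : ℕ} (hk : l.length = k + 1) : bdL R l ∈ K R P k := by
  induction l generalizing P k with
  | nil => simp at hk
  | cons t l ih =>
    rw [bdL_cons]
    refine Submodule.sub_mem _ (single_mem_K' (hP (List.sublist_cons_self t l) hl)
      (by simpa using hk) 1) ?_
    rcases k with _ | k
    · have : l = [] := by
        apply List.eq_nil_of_length_eq_zero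
        simpa using hk
      subst this
      simp
    · have h1 : bdL R l ∈ K R (fun l' => P (t :: l')) k :=
        ih (P := fun l' => P (t :: l')) (fun {a b} hab ha => hP (hab.cons_cons t) ha) hl
          (by simpa using hk)
      exact cone_mem_K t h1 (fun l' hl' => (mem_K.1 h1 l' hl').1)

theorem bd_mem_K {P : List T → Prop} (hP : ∀ {l l' : List T}, l'.Sublist l → P l → P l')
    {k : ℕ} {c : Ch R T} (hc : c ∈ K R P (k + 1)) : bd R c ∈ K R P k :=
  map_mem_of_K _ (bd R) (fun l hl hk => by
    rw [bd_single, one_smul]; exact bdL_mem_K hP hl hk) hc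

/-- The boundary of a chain of length `0` is `0`. -/
theorem bd_of_K_zero {P : List T → Prop} {c : Ch R T} (hc : c ∈ K R P 0) : bd R c = 0 := by
  have := map_mem_of_K (⊥ : Submodule R (Ch R T)) (bd R) (P := P) (k := 0) (fun l _ hk => by
    rw [List.eq_nil_of_length_eq_zero hk, bd_single]; simp) hc
  simpa using this

theorem mp_mem_K {P : List S → Prop} {Q : List T → Prop} {φ : S → T} {k : ℕ} {c : Ch R S}
    (h : ∀ l, P l → Q (l.map φ)) (hc : c ∈ K R P k) : mp R φ c ∈ K R Q k :=
  map_mem_of_K _ (mp R φ) (fun l hl hk => by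
    rw [mp_single]; exact single_mem_K' (h l hl) (by simpa using hk) 1) hc

end

/-- Every cycle of admissible chains is a boundary of admissible chains. -/
theorem Adm.fill {G T : Type*} [Group G] {ρ : G →* Equiv.Perm T} {P : List T → Prop}
    (hP : Adm ρ P) {R : Type*} [CommRing R] {k : ℕ} {c : Ch R T} (hc : c ∈ K R P k)
    (h0 : bd R c = 0) : ∃ d ∈ K R P (k + 1), bd R d = c := by
  obtain ⟨w, hw⟩ := hP.cone c.support (fun l hl => (mem_K.1 hc l hl).1)
  exact ⟨H121.cone R w c, cone_mem_K w hc hw, by rw [bd_cone, h0]; simp⟩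

/-- The trivial class of all lists is admissible in a nonempty set. -/
theorem adm_true {G T : Type*} [Group G] [Nonempty T] (ρ : G →* Equiv.Perm T) :
    Adm ρ (fun _ => True) :=
  ⟨trivial, fun _ _ => trivial, fun _ _ _ => trivial,
    fun _ _ => ⟨Classical.arbitrary T, fun _ _ => trivial⟩⟩

end Pool.Agent.H121
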