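import Pool.Agent.helper121_TH.Basics

/-!
# The degree of a simplex at the origin: invariance and cocycle property
-/

namespace Pool.Agent.H121

namespace Eps

theorem minor_map {n : ℕ} (A : Matrix (Fin n) (Fin n) ℝ) (l : List (Fin n → ℝ)) (i : ℕ) :
    minor n (l.map (fun v => A.mulVec v)) i = A.det * minor n l i := by
  unfold minor
  have h : (Matrix.of fun j : Fin n => ((l.map (fun v => A.mulVec v)).eraseIdx i).getD j 0) =
      (Matrix.of fun j : Fin n => (l.eraseIdx i).getD j 0) * A.transpose := by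
    ext j c
    rw [List.eraseIdx_map]
    have h2 : (List.map (fun v => A.mulVec v) (l.eraseIdx i)).getD (j : ℕ) 0 =
        A.mulVec ((l.eraseIdx i).getD (j : ℕ) 0) := by
      have h3 := List.getD_map (l := l.eraseIdx i) (d := 0) (n := (j : ℕ)) (fun v => A.mulVec v)
      rw [Matrix.mulVec_zero] at h3
      exact h3
    simp only [Matrix.of_apply]
    rw [h2]
    simp only [Matrix.mul_apply, Matrix.transpose_apply, Matrix.of_apply, Matrix.mulVec,
      dotProduct]
    exact Finset.sum_congr rfl fun x _ => mul_comm _ _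
  rw [h, Matrix.det_mul, Matrix.det_transpose]
  ring

end Eps

theorem eps_map {n : ℕ} (A : Matrix (Fin n) (Fin n) ℝ) (hA : 0 < A.det)
    (l : List (Fin n → ℝ)) : eps n (l.map (fun v => A.mulVec v)) = eps n l := by
  unfold eps
  have h1 : (∀ i ≤ n, 0 < minor n (l.map (fun v => A.mulVec v)) i) ↔
      ∀ i ≤ n, 0 < minor n l i := by
    refine forall_congr' fun i => forall_congr' fun _ => ?_
    rw [Eps.minor_map]
    exact mul_pos_iff_of_pos_left hA
  have h2 : (∀ i ≤ n, minor n (l.map (fun v => A.mulVec v)) i < 0) ↔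
      ∀ i ≤ n, minor n l i < 0 := by
    refine forall_congr' fun i => forall_congr' fun _ => ?_
    rw [Eps.minor_map]
    constructor
    · intro h
      by_contra h3
      have := mul_nonneg hA.le (not_lt.1 h3)
      linarith
    · intro h
      have := mul_pos hA (neg_pos.2 h)
      linarith
  simp only [h1, h2]

theorem eps_map_neg {n : ℕ} (A : Matrix (Fin n) (Fin n) ℝ) (hA : A.det < 0)
    (l : List (Fin n → ℝ)) : eps n (l.map (fun v => A.mulVec v)) = - eps n l := by
  unfold eps
  have h1 : (∀ i ≤ n, 0 < minor n (l.map (fun v => A.mulVec v)) i) ↔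
      ∀ i ≤ n, minor n l i < 0 := by
    refine forall_congr' fun i => forall_congr' fun _ => ?_
    rw [Eps.minor_map]
    constructor
    · intro h
      by_contra h3
      have := mul_nonneg (neg_nonneg.2 hA.le) (not_lt.1 h3)
      linarith
    · intro h
      exact mul_pos_of_neg_of_neg hA h
  have h2 : (∀ i ≤ n, minor n (l.map (fun v => A.mulVec v)) i < 0) ↔
      ∀ i ≤ n, 0 < minor n l i := by
    refine forall_congr' fun i => forall_congr' fun _ => ?_
    rw [Eps.minor_map]
    constructor
    · intro h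
      by_contra h3
      have := mul_nonneg_of_nonpos_of_nonpos hA.le (not_lt.1 h3)
      linarith
    · intro h
      exact mul_neg_of_neg_of_pos hA h
  simp only [h1, h2]
  by_cases hp : ∀ i ≤ n, 0 < minor n l i
  · have hn : ¬ ∀ i ≤ n, minor n l i < 0 := fun hn => by
      have a := hp 0 (Nat.zero_le _)
      have b := hn 0 (Nat.zero_le _)
      linarith
    rw [if_neg hn, if_pos hp, if_pos hp]
  · by_cases hn : ∀ i ≤ n, minor n l i < 0
    · rw [if_pos hn, if_neg hp, if_pos hn, neg_neg]
    · rw [if_neg hn, if_neg hp, if_neg hp, if_neg hn, neg_zero]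

namespace Eps

/-- In a sign pattern coming from plane vectors, a vertex dominated by all the others gives a vertex
dominating all the others. -/
theorem tour {m : ℕ} (F : Fin m → Fin m → ℝ) (anti : ∀ i k, F i k = - F k i)
    (ne : ∀ i k, i ≠ k → F i k ≠ 0)
    (pl : ∀ i r j k, F k j * F r i = F r j * F k i - F i j * F k r)
    (i r : Fin m) (hir : r ≠ i) (h : ∀ k, k ≠ i → 0 < F k i) :
    ∃ j, j ≠ i ∧ ∀ k, k ≠ j → F k j < 0 := by
  classical
  obtain ⟨j, hj, hmin⟩ := Finset.exists_min_image (Finset.univ.erase i)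
    (fun k => F r k / (F r i * F k i)) ⟨r, by simp [hir]⟩
  rw [Finset.mem_erase] at hj
  refine ⟨j, hj.1, fun k hk => ?_⟩
  by_cases hki : k = i
  · subst hki
    rw [anti]
    have := h j hj.1
    linarith
  · have hk' : F r j / (F r i * F j i) ≤ F r k / (F r i * F k i) := hmin k (by simp [hki])
    have a1 := h k hki
    have a2 := h j hj.1
    have a3 := h r hir
    rw [div_le_div_iff₀ (mul_pos a3 a2) (mul_pos a3 a1)] at hk'
    have e := pl i r j k
    rw [anti i j, anti k r] at e
    have h1 : F r i * (F r j * F k i - F j i * F r k) ≤ 0 := by nlinarith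
    have h2 : F r j * F k i - F j i * F r k ≤ 0 := by
      by_contra hc
      have := mul_pos a3 (not_le.1 hc)
      linarith
    have h3 : F k j * F r i ≤ 0 := by linarith
    have h4 : F k j ≤ 0 := by
      by_contra hc
      have := mul_pos (not_le.1 hc) a3
      linarith
    exact lt_of_le_of_ne h4 (ne k j hk)

open Classical in
theorem tour_sum {m : ℕ} (F : Fin (m + 2) → Fin (m + 2) → ℝ) (anti : ∀ i k, F i k = - F k i)
    (ne : ∀ i k, i ≠ k → F i k ≠ 0)
    (pl : ∀ i r j k, F k j * F r i = F r j * F k i - F i j * F k r) :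
    ∑ i, (if ∀ k, k ≠ i → 0 < F k i then (1 : ℤ) else
      if ∀ k, k ≠ i → F k i < 0 then -1 else 0) = 0 := by
  have hex : ∀ i : Fin (m + 2), ∃ r, r ≠ i := fun i => exists_ne i
  by_cases h : ∃ i, ∀ k, k ≠ i → 0 < F k i
  · obtain ⟨i, hi⟩ := h
    obtain ⟨r, hr⟩ := hex i
    obtain ⟨j, hji, hj⟩ := tour F anti ne pl i r hr hi
    rw [Finset.sum_eq_add i j hji.symm]
    · rw [if_pos hi, if_neg, if_pos hj]
      · norm_num
      · intro hj'
        have a := hj' i hji.symm
        have b := hj i hji.symm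
        linarith
    · rintro c - ⟨hci, hcj⟩
      rw [if_neg, if_neg]
      · intro hc
        have a := hc j (Ne.symm hcj)
        have b := hj c hcj
        have e := anti j c
        linarith
      · intro hc
        have a := hc i (Ne.symm hci)
        have b := hi c hci
        have e := anti i c
        linarith
    · intro h; exact absurd (Finset.mem_univ _) h
    · intro h; exact absurd (Finset.mem_univ _) h
  · apply Finset.sum_eq_zero
    intro i _
    rw [if_neg (fun hi => h ⟨i, hi⟩), if_neg]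
    intro hi
    obtain ⟨r, hr⟩ := hex i
    obtain ⟨j, -, hj⟩ := tour (fun i k => - F i k) (fun i k => by rw [anti i k])
      (fun i k hik => neg_ne_zero.2 (ne i k hik))
      (fun i r j k => by have := pl i r j k; linarith) i r hr
      (fun k hk => by have := hi k hk; linarith)
    exact h ⟨j, fun k hk => by have := hj k hk; linarith⟩

/-- Omitting the index `i`. -/
def sk (i j : ℕ) : ℕ := if j < i then j else j + 1

theorem sk_sk {i k : ℕ} (h : k < i) (j : ℕ) : sk i (sk k j) = sk k (sk (i - 1) j) := by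
  unfold sk
  split_ifs <;> omega

theorem getD_eraseIdx {V : Type*} [Zero V] (l : List V) (i j : ℕ) :
    (l.eraseIdx i).getD j 0 = l.getD (sk i j) 0 := by
  rw [List.getD_eq_getElem?_getD, List.getD_eq_getElem?_getD, List.getElem?_eraseIdx]
  unfold sk
  split_ifs <;> rfl

theorem val_succAbove {n : ℕ} (i : Fin (n + 1)) (k : Fin n) :
    ((i.succAbove k : Fin (n + 1)) : ℕ) = sk i k := by
  unfold sk Fin.succAbove
  simp only [Fin.lt_def, Fin.val_castSucc]
  split_ifs <;> simp

noncomputable def E (n : ℕ) (x : ℕ → Fin n → ℝ) (i k : ℕ) : ℝ :=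
  (-1) ^ i * ((-1) ^ k * Matrix.det (Matrix.of fun j : Fin n => x (sk i (sk k j))))

theorem E_eq {n : ℕ} (l : List (Fin n → ℝ)) (i k : ℕ) :
    E n (fun j => l.getD j 0) i k = (-1) ^ i * minor n (l.eraseIdx i) k := by
  unfold E minor
  congr 3
  ext j c
  simp only [Matrix.of_apply]
  rw [getD_eraseIdx, getD_eraseIdx]

theorem E_anti {n : ℕ} (x : ℕ → Fin n → ℝ) {i k : ℕ} (h : k < i) :
    E n x i k = - E n x k (i - 1) := by
  unfold E
  have e : (Matrix.of fun j : Fin n => x (sk i (sk k j))) =
      (Matrix.of fun j : Fin n => x (sk k (sk (i - 1) j))) := by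
    ext j c
    simp only [Matrix.of_apply]
    rw [sk_sk h]
  rw [e]
  obtain ⟨i', rfl⟩ : ∃ i', i = i' + 1 := ⟨i - 1, by omega⟩
  rw [Nat.add_sub_cancel, pow_succ]
  ring

noncomputable def F (n : ℕ) (x : ℕ → Fin n → ℝ) (k i : ℕ) : ℝ :=
  if k < i then E n x i k else if i < k then E n x i (k - 1) else 0

theorem F_anti {n : ℕ} (x : ℕ → Fin n → ℝ) (i k : ℕ) : F n x i k = - F n x k i := by
  unfold F
  rcases lt_trichotomy i k with h | h | h
  · rw [if_pos h, if_neg (by omega), if_pos h, E_anti x h]
  · subst h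
    simp
  · rw [if_neg (by omega), if_pos h, if_pos h, E_anti x h, neg_neg]

theorem F_self {n : ℕ} (x : ℕ → Fin n → ℝ) (i : ℕ) : F n x i i = 0 := by
  unfold F
  simp

theorem F_sk {n : ℕ} (x : ℕ → Fin n → ℝ) (i k : ℕ) : F n x (sk i k) i = E n x i k := by
  unfold F sk
  by_cases h : k < i
  · rw [if_pos h, if_pos h]
  · rw [if_neg h, if_neg (by omega), if_pos (by omega), Nat.add_sub_cancel]

theorem cramer {n : ℕ} (y : Fin (n + 1) → Fin n → ℝ) :
    ∑ k : Fin (n + 1), ((-1) ^ (k : ℕ) *
      Matrix.det (Matrix.of fun j : Fin n => y (k.succAbove j))) • y k = 0 := by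
  ext c
  let M : Matrix (Fin (n + 1)) (Fin (n + 1)) ℝ := fun k => Fin.cons (y k c) (y k)
  have h0 : M.det = 0 := Matrix.det_zero_of_column_eq (i := 0) (j := c.succ)
    (Fin.succ_ne_zero c).symm (by intro k; simp [M])
  rw [Matrix.det_succ_column_zero] at h0
  rw [Finset.sum_apply, Pi.zero_apply, ← h0]
  apply Finset.sum_congr rfl
  intro k _
  have e : M.submatrix k.succAbove Fin.succ = Matrix.of fun j : Fin n => y (k.succAbove j) := by
    ext j d
    show (Fin.cons (y (k.succAbove j) c) (y (k.succAbove j)) : Fin (n + 1) → ℝ) d.succ =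
      y (k.succAbove j) d
    rw [Fin.cons_succ]
  rw [e, Pi.smul_apply, smul_eq_mul]
  have e2 : M k 0 = y k c := by simp [M]
  rw [e2]
  ring

theorem rel {n : ℕ} (x : ℕ → Fin n → ℝ) (i : Fin (n + 2)) :
    ∑ k : Fin (n + 2), F n x k i • x k = 0 := by
  rw [Fin.sum_univ_succAbove _ i, F_self, zero_smul, zero_add]
  have h := cramer (fun k : Fin (n + 1) => x (i.succAbove k : Fin (n + 2)))
  have e : ∀ k : Fin (n + 1), F n x (i.succAbove k : Fin (n + 2)) i •
      x (i.succAbove k : Fin (n + 2)) = (-1 : ℝ) ^ (i : ℕ) • (((-1) ^ (k : ℕ) *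
      Matrix.det (Matrix.of fun j : Fin n => x (i.succAbove (k.succAbove j) : Fin (n + 2)))) •
      x (i.succAbove k : Fin (n + 2))) := by
    intro k
    rw [smul_smul, val_succAbove, F_sk]
    congr 1
    unfold E
    congr 3
    ext j c
    simp only [Matrix.of_apply]
    rw [val_succAbove, val_succAbove]
  rw [Finset.sum_congr rfl fun k _ => e k, ← Finset.smul_sum, h, smul_zero]

/-- Any `n` of the first `n + 2` vectors are independent. -/
def Ind (n : ℕ) (x : ℕ → Fin n → ℝ) : Prop :=
  ∀ (i : Fin (n + 2)) (k : Fin (n + 1)), LinearIndependent ℝ (fun j : Fin n => x (sk i (sk k j)))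

theorem ind_of_genPos {n : ℕ} {l : List (Fin n → ℝ)} (hl : GenPos n l) (hlen : l.length = n + 2) :
    Ind n (fun j => l.getD j 0) := by
  intro i k
  set l' := (l.eraseIdx i).eraseIdx k with hl'
  have hsub : l'.Sublist l := (List.eraseIdx_sublist _ _).trans (List.eraseIdx_sublist _ _)
  have h1 : (l.eraseIdx i).length = n + 1 := by
    rw [List.length_eraseIdx_of_lt (by have := i.2; omega)]; omega
  have h2 : l'.length = n := by
    rw [hl', List.length_eraseIdx_of_lt (by have := k.2; omega)]; omega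
  have h3 := hl l' hsub h2.le
  have h4 := h3.comp (Fin.cast h2.symm) (Fin.cast_injective _)
  have e : (l'.get ∘ Fin.cast h2.symm) = fun j : Fin n => l.getD (sk i (sk k j)) 0 := by
    funext j
    rw [← getD_eraseIdx, ← getD_eraseIdx, ← hl', Function.comp_apply, List.get_eq_getElem]
    rw [List.getD_eq_getElem _ _ (by rw [h2]; exact j.2)]
    rfl
  rw [e] at h4
  exact h4

theorem dep_zero {n : ℕ} {x : ℕ → Fin n → ℝ} (hx : Ind n x) (c : Fin (n + 2) → ℝ)
    (h : ∑ k : Fin (n + 2), c k • x k = 0) {i r : Fin (n + 2)} (hir : r ≠ i) (hi : c i = 0)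
    (hr : c r = 0) (k : Fin (n + 2)) : c k = 0 := by
  obtain ⟨r', rfl⟩ := Fin.exists_succAbove_eq hir
  rw [Fin.sum_univ_succAbove _ i, hi, zero_smul, zero_add, Fin.sum_univ_succAbove _ r', hr,
    zero_smul, zero_add] at h
  have h1 := Fintype.linearIndependent_iff.1 (hx i r')
    (fun j => c (i.succAbove (r'.succAbove j))) (by
      rw [← h]
      apply Finset.sum_congr rfl
      intro j _
      rw [val_succAbove, val_succAbove])
  by_cases hk : k = i
  · rw [hk, hi]
  · obtain ⟨k', rfl⟩ := Fin.exists_succAbove_eq hk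
    by_cases hk' : k' = r'
    · rw [hk', hr]
    · obtain ⟨j, rfl⟩ := Fin.exists_succAbove_eq hk'
      exact h1 j

theorem plucker {n : ℕ} {x : ℕ → Fin n → ℝ} (hx : Ind n x) (i r j k : Fin (n + 2)) :
    F n x k j * F n x r i = F n x r j * F n x k i - F n x i j * F n x k r := by
  by_cases hir : r = i
  · subst hir
    rw [F_self]
    ring
  · have h := dep_zero hx (fun k => F n x k j * F n x r i - F n x r j * F n x k i +
      F n x i j * F n x k r) (by
        have e : ∀ k : Fin (n + 2), (F n x k j * F n x r i - F n x r j * F n x k i +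
            F n x i j * F n x k r) • x k = F n x r i • (F n x k j • x k) -
            F n x r j • (F n x k i • x k) + F n x i j • (F n x k r • x k) := by
          intro k
          simp only [smul_smul]
          rw [add_smul, sub_smul, mul_comm (F n x k j)]
        rw [Finset.sum_congr rfl fun k _ => e k, Finset.sum_add_distrib, Finset.sum_sub_distrib,
          ← Finset.smul_sum, ← Finset.smul_sum, ← Finset.smul_sum, rel, rel, rel]
        simp) hir (by
        rw [F_self, F_anti x i r]
        ring) (by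
        rw [F_self]
        ring) k
    linarith

theorem F_ne {n : ℕ} {x : ℕ → Fin n → ℝ} (hx : Ind n x) (k i : Fin (n + 2)) (h : k ≠ i) :
    F n x k i ≠ 0 := by
  obtain ⟨k', rfl⟩ := Fin.exists_succAbove_eq h
  rw [val_succAbove, F_sk]
  unfold E
  have h1 := hx i k'
  have h2 : Matrix.det (Matrix.of fun j : Fin n => x (sk i (sk k' j))) ≠ 0 := by
    have h3 : IsUnit (Matrix.of fun j : Fin n => x (sk i (sk k' j))) := by
      rw [← Matrix.linearIndependent_rows_iff_isUnit]
      exact h1
    rw [Matrix.isUnit_iff_isUnit_det] at h3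
    exact h3.ne_zero
  have h4 : ∀ m : ℕ, ((-1 : ℝ)) ^ m ≠ 0 := fun m => pow_ne_zero _ (by norm_num)
  exact mul_ne_zero (h4 _) (mul_ne_zero (h4 _) h2)

theorem lin_cone {T : Type*} (f : List T → ℤ) (t : T) (c : Ch ℤ T) :
    lin ℤ f (cone ℤ t c) = lin ℤ (fun l => f (t :: l)) c := by
  have : (lin ℤ f).comp (cone ℤ t) = lin ℤ (fun l => f (t :: l)) := by
    apply ch_ext
    intro l
    simp
  exact LinearMap.congr_fun this c

theorem lin_bdL {T : Type*} (l : List T) (f : List T → ℤ) :
    lin ℤ f (bdL ℤ l) = ∑ i ∈ Finset.range l.length, (-1) ^ i * f (l.eraseIdx i) := by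
  induction l generalizing f with
  | nil => simp
  | cons t l ih =>
    rw [bdL_cons, map_sub, lin_single, lin_cone, ih, List.length_cons, Finset.sum_range_succ']
    simp only [List.eraseIdx_cons_succ, List.eraseIdx_zero, List.tail_cons, pow_zero, one_mul,
      one_smul]
    rw [add_comm, sub_eq_add_neg, ← Finset.sum_neg_distrib]
    congr 1
    apply Finset.sum_congr rfl
    intro i _
    rw [pow_succ]
    ring

end Eps

open Classical in
theorem eps_cocycle {n : ℕ} (hn : 1 ≤ n) (l : List (Fin n → ℝ)) (hl : GenPos n l)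
    (hlen : l.length = n + 2) : lin ℤ (eps n) (bdL ℤ l) = 0 := by
  rw [Eps.lin_bdL, hlen, Finset.sum_range]
  have hx := Eps.ind_of_genPos hl hlen
  set x : ℕ → Fin n → ℝ := fun j => l.getD j 0 with hxdef
  have key := Eps.tour_sum (fun k i : Fin (n + 2) => Eps.F n x k i)
    (fun i k => Eps.F_anti x i k) (fun i k h => Eps.F_ne hx i k h)
    (fun i r j k => Eps.plucker hx i r j k)
  rw [← key]
  apply Finset.sum_congr rfl
  intro i _
  have hF : ∀ k : Fin (n + 1), Eps.F n x (i.succAbove k : Fin (n + 2)) i =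
      (-1) ^ (i : ℕ) * minor n (l.eraseIdx i) k := by
    intro k
    rw [Eps.val_succAbove, Eps.F_sk, Eps.E_eq]
  have hall : ∀ Q : ℝ → Prop, (∀ k : Fin (n + 2), k ≠ i → Q (Eps.F n x k i)) ↔
      ∀ k ≤ n, Q ((-1) ^ (i : ℕ) * minor n (l.eraseIdx i) k) := by
    intro Q
    constructor
    · intro h k hk
      have := h (i.succAbove ⟨k, by omega⟩) (Fin.succAbove_ne _ _)
      rw [hF] at this
      exact this
    · intro h k hk
      obtain ⟨k', rfl⟩ := Fin.exists_succAbove_eq hk
      rw [hF]
      exact h k' (by have := k'.2; omega)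
  have h1 := hall (fun r => 0 < r)
  have h2 := hall (fun r => r < 0)
  simp only [h1, h2]
  unfold eps
  rcases Nat.even_or_odd (i : ℕ) with he | ho
  · rw [he.neg_one_pow, he.neg_one_pow]
    simp only [one_mul]
  · rw [ho.neg_one_pow, ho.neg_one_pow]
    simp only [neg_mul, one_mul, Left.neg_pos_iff, Left.neg_neg_iff]
    by_cases hp : ∀ k ≤ n, 0 < minor n (l.eraseIdx i) k
    · have hq : ¬ ∀ k ≤ n, minor n (l.eraseIdx i) k < 0 := fun hq => by
        have a := hp 0 (Nat.zero_le _)
        have b := hq 0 (Nat.zero_le _)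
        linarith
      rw [if_pos hp, if_neg hq, if_pos hp]
    · by_cases hq : ∀ k ≤ n, minor n (l.eraseIdx i) k < 0
      · rw [if_neg hp, if_pos hq, if_pos hq, neg_neg]
      · rw [if_neg hp, if_neg hq, if_neg hq, if_neg hp, neg_zero]

end Pool.Agent.H121
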