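import Pool.Agent.helper121_TH.Basics

/-!
# General position
-/

namespace Pool.Agent.H121

section LI

variable {V W : Type*} [AddCommGroup V] [Module ℝ V] [AddCommGroup W] [Module ℝ W]

/-- Linear independence of the entries of a list. -/
def LI (l : List V) : Prop := LinearIndependent ℝ l.get

/-- The span of the entries of a list. -/
def lspan (l : List V) : Submodule ℝ V := Submodule.span ℝ {x | x ∈ l}

omit [AddCommGroup V] [Module ℝ V] in
theorem range_get (l : List V) : Set.range l.get = {x | x ∈ l} := by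
  ext x
  simp [List.mem_iff_get]

theorem LI_nil : LI ([] : List V) := by
  unfold LI
  have : IsEmpty (Fin ([] : List V).length) := by
    simp only [List.length_nil]; infer_instance
  exact linearIndependent_empty_type

theorem LI_cons (x : V) (l : List V) : LI (x :: l) ↔ LI l ∧ x ∉ lspan l := by
  unfold LI lspan
  rw [← range_get]
  have h : (x :: l).get = (Fin.cons x l.get : Fin (l.length + 1) → V) := by
    funext i
    refine Fin.cases ?_ (fun j => ?_) i <;> rfl
  rw [h]
  exact linearIndependent_finCons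

theorem lspan_cons (x : V) (l : List V) :
    lspan (x :: l) = Submodule.span ℝ (insert x {y | y ∈ l}) := by
  unfold lspan
  congr 1
  ext y
  simp

theorem lspan_mono {l l' : List V} (h : ∀ x ∈ l, x ∈ l') : lspan l ≤ lspan l' :=
  Submodule.span_mono h

theorem LI_map (f : V →ₗ[ℝ] W) (hf : Function.Injective f) {l : List V} (h : LI l) :
    LI (l.map f) := by
  induction l with
  | nil => exact LI_nil
  | cons x l ih =>
    rw [LI_cons] at h
    rw [List.map_cons, LI_cons]
    refine ⟨ih h.1, fun hx => h.2 ?_⟩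
    have h1 : lspan (l.map f) = (lspan l).map f := by
      unfold lspan
      rw [Submodule.map_span]
      congr 1
      ext y
      simp
    rw [h1, Submodule.mem_map] at hx
    obtain ⟨y, hy, hxy⟩ := hx
    rwa [← hf hxy]

theorem LI_swap {a b : V} {l : List V} (h1 : LI (a :: l)) (h2 : b ∉ lspan (a :: l)) :
    LI (a :: b :: l) := by
  rw [LI_cons] at h1
  have h3 : b ∉ lspan l := fun h => h2 (lspan_mono (fun x hx => List.mem_cons_of_mem _ hx) h)
  rw [LI_cons, LI_cons]
  refine ⟨⟨h1.1, h3⟩, fun h => h2 ?_⟩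
  rw [lspan_cons] at h ⊢
  exact mem_span_insert_exchange h h1.2

theorem finrank_lspan_le (l : List V) : Module.finrank ℝ (lspan l) ≤ l.length := by
  classical
  unfold lspan
  rw [← range_get]
  have := finrank_range_le_card (R := ℝ) (b := l.get)
  rw [Set.finrank, Fintype.card_fin] at this
  exact this

end LI

section GenPos

variable {n : ℕ}

theorem genPos_iff {l : List (Fin n → ℝ)} :
    GenPos n l ↔ ∀ l' : List (Fin n → ℝ), l'.Sublist l → l'.length ≤ n → LI l' := Iff.rfl

theorem genPos_sublist {l l' : List (Fin n → ℝ)} (h : l'.Sublist l) (hl : GenPos n l) :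
    GenPos n l' := fun l'' h'' => hl l'' (h''.trans h)

theorem genPos_nil : GenPos n [] := by
  intro l' hl' _
  have : l' = [] := List.sublist_nil.1 hl'
  subst this
  exact LI_nil

theorem genPos_cons {w : Fin n → ℝ} {l : List (Fin n → ℝ)} (hl : GenPos n l)
    (hw : ∀ l' : List (Fin n → ℝ), l'.Sublist l → l'.length + 1 ≤ n → w ∉ lspan l') :
    GenPos n (w :: l) := by
  intro l' hl' hlen
  rcases List.sublist_cons_iff.1 hl' with h | ⟨r, rfl, hr⟩
  · exact hl l' h hlen
  · have h1 : r.length + 1 ≤ n := by simpa using hlen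
    exact (LI_cons w r).2 ⟨hl r hr (by omega), hw r hr h1⟩

theorem genPos_cons_cons {a w : Fin n → ℝ} {l : List (Fin n → ℝ)} (hl : GenPos n (a :: l))
    (hw : ∀ l' : List (Fin n → ℝ), l'.Sublist (a :: l) → l'.length + 1 ≤ n → w ∉ lspan l') :
    GenPos n (a :: w :: l) := by
  intro l' hl' hlen
  rcases List.sublist_cons_iff.1 hl' with h | ⟨r, rfl, hr⟩
  · exact genPos_cons (genPos_sublist (List.sublist_cons_self a l) hl)
      (fun r hr => hw r (hr.trans (List.sublist_cons_self a l))) l' h hlen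
  · have h1 : r.length + 1 ≤ n := by simpa using hlen
    rcases List.sublist_cons_iff.1 hr with h | ⟨r', rfl, hr'⟩
    · exact hl (a :: r) (h.cons_cons a) (by simpa using h1)
    · have h2 : r'.length + 1 + 1 ≤ n := by simpa using h1
      exact LI_swap (hl (a :: r') (hr'.cons_cons a) (by simp; omega))
        (hw (a :: r') (hr'.cons_cons a) (by simpa using h2))

theorem genPos_map {n : ℕ} (A : Matrix (Fin n) (Fin n) ℝ) (hA : A.det ≠ 0)
    {l : List (Fin n → ℝ)} (hl : GenPos n l) : GenPos n (l.map (fun v => A.mulVec v)) := by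
  intro l' hl' hlen
  obtain ⟨r, hr, rfl⟩ := List.sublist_map_iff.1 hl'
  have hinj : Function.Injective A.mulVecLin := by
    have : Function.Injective A.mulVec := Matrix.mulVec_injective_of_isUnit
      ((Matrix.isUnit_iff_isUnit_det A).2 (isUnit_iff_ne_zero.2 hA))
    exact this
  exact LI_map A.mulVecLin hinj (hl r hr (by simpa using hlen))

/-- A countable family of proper affine subspaces does not cover. -/
theorem exists_avoid (𝒲 : Set (AffineSubspace ℝ (Fin n → ℝ))) (hc : 𝒲.Countable)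
    (h : ∀ W ∈ 𝒲, W ≠ ⊤) : ∃ w : Fin n → ℝ, ∀ W ∈ 𝒲, w ∉ W := by
  by_contra hcon
  push Not at hcon
  have h1 : (⋃ W ∈ 𝒲, (W : Set (Fin n → ℝ))) = Set.univ := by
    apply Set.eq_univ_of_forall
    intro w
    obtain ⟨W, hW, hw⟩ := hcon w
    exact Set.mem_biUnion hW hw
  have h2 : MeasureTheory.volume (⋃ W ∈ 𝒲, (W : Set (Fin n → ℝ))) = 0 := by
    rw [MeasureTheory.measure_biUnion_null_iff hc]
    intro W hW
    exact MeasureTheory.Measure.addHaar_affineSubspace _ W (h W hW)
  rw [h1] at h2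
  exact (MeasureTheory.Measure.measure_univ_pos.2 (NeZero.ne _)).ne' h2

/-- The affine subspace `p + span l`. -/
noncomputable def affL (p : Fin n → ℝ) (l : List (Fin n → ℝ)) : AffineSubspace ℝ (Fin n → ℝ) :=
  AffineSubspace.mk' p (lspan l)

theorem affL_ne_top (p : Fin n → ℝ) {l : List (Fin n → ℝ)} (hl : l.length + 1 ≤ n) :
    affL p l ≠ ⊤ := by
  intro h
  have h1 : (affL p l).direction = ⊤ := by rw [h]; exact AffineSubspace.direction_top ℝ _ _
  rw [affL, AffineSubspace.direction_mk'] at h1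
  have h2 := finrank_lspan_le l
  rw [h1, finrank_top, Module.finrank_fin_fun] at h2
  omega

theorem mem_affL {p w : Fin n → ℝ} {l : List (Fin n → ℝ)} : w ∈ affL p l ↔ w - p ∈ lspan l := by
  rw [affL, AffineSubspace.mem_mk', vsub_eq_sub]

theorem genPos_finset_cone (S : Finset (List (Fin n → ℝ)))
    (hS : ∀ l ∈ S, GenPos n l) : ∃ w : Fin n → ℝ, ∀ l ∈ S, GenPos n (w :: l) := by
  let 𝒲 : Set (AffineSubspace ℝ (Fin n → ℝ)) :=
    ⋃ l ∈ S, (fun l' => affL 0 l') '' {l' | l' ∈ l.sublists ∧ l'.length + 1 ≤ n}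
  have hc : 𝒲.Countable := by
    refine Set.Countable.biUnion S.countable_toSet fun l _ => ?_
    refine Set.Countable.image ?_ _
    refine Set.Countable.mono (fun l' hl' => hl'.1) (List.finite_toSet l.sublists).countable
  obtain ⟨w, hw⟩ := exists_avoid 𝒲 hc (by
    intro W hW
    simp only [𝒲, Set.mem_iUnion] at hW
    obtain ⟨l, hl, l', hl', rfl⟩ := hW
    exact affL_ne_top 0 hl'.2)
  refine ⟨w, fun l hl => genPos_cons (hS l hl) fun l' hl' hlen h => ?_⟩
  refine hw (affL 0 l') ?_ (mem_affL.2 (by rwa [sub_zero]))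
  simp only [𝒲, Set.mem_iUnion]
  exact ⟨l, hl, l', ⟨List.mem_sublists.2 hl', hlen⟩, rfl⟩

theorem slVec_eq (A : Matrix.SpecialLinearGroup (Fin n) ℤ) (v : Fin n → ℝ) :
    slPerm n A v = (A.1.map (Int.cast : ℤ → ℝ)).mulVec v := rfl

theorem det_map_ne_zero (A : Matrix.SpecialLinearGroup (Fin n) ℤ) :
    (A.1.map (Int.cast : ℤ → ℝ)).det ≠ 0 := by
  have h1 : (A.1.map (Int.cast : ℤ → ℝ)).det = ((A.1.det : ℤ) : ℝ) := by
    have := RingHom.map_det (Int.castRingHom ℝ) A.1
    simpa using this.symm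
  rw [h1, A.2]; simp

theorem adm_genPos {G : Type*} [Group G] {n : ℕ} (_hn : 1 ≤ n)
    (ρ : G →* Matrix.SpecialLinearGroup (Fin n) ℤ) : Adm ((slPerm n).comp ρ) (GenPos n) where
  nil := genPos_nil
  sub h hl := genPos_sublist h hl
  act g _ hl := genPos_map _ (det_map_ne_zero (ρ g)) hl
  cone S hS := genPos_finset_cone S hS

theorem latGen_genPos {n : ℕ} (hn : 1 ≤ n) {l : List (Fin n → ℝ)} (hl : LatGen n l) :
    GenPos n l := by
  have h1 : (0 : Fin n → ℤ) ≠ (fun _ => 1) := by
    intro h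
    have := congrFun h ⟨0, hn⟩
    simp at this
  have h2 := genPos_sublist (List.sublist_cons_self _ _) (hl 0 (fun _ => 1) h1)
  simpa using h2

theorem latGen_nil {n : ℕ} (_hn : 1 ≤ n) : LatGen n [] := by
  intro p q hpq
  refine genPos_cons genPos_nil fun l' hl' _ h => hpq ?_
  have : l' = [] := List.sublist_nil.1 hl'
  subst this
  have h1 : lspan ([] : List (Fin n → ℝ)) = ⊥ := by
    simp [lspan]
  rw [h1, Submodule.mem_bot] at h
  funext i
  have := congrFun h i
  simp only [Pi.zero_apply, sub_eq_zero] at this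
  exact_mod_cast this.symm

theorem latGen_sub {n : ℕ} {l l' : List (Fin n → ℝ)} (h : l'.Sublist l) (hl : LatGen n l) :
    LatGen n l' := fun p q hpq => genPos_sublist ((h.map _).cons_cons _) (hl p q hpq)

theorem latGen_sl {n : ℕ} (A : Matrix.SpecialLinearGroup (Fin n) ℤ) {l : List (Fin n → ℝ)}
    (hl : LatGen n l) : LatGen n (l.map (slPerm n A)) := by
  intro p q hpq
  have key : ∀ p : Fin n → ℤ, ∀ i, (A.1.map (Int.cast : ℤ → ℝ)).mulVec
      (fun i => (((A⁻¹ : Matrix.SpecialLinearGroup (Fin n) ℤ).1.mulVec p i : ℤ) : ℝ)) i =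
        (p i : ℝ) := by
    intro p i
    have h1 : (A.1.mulVec ((A⁻¹ : Matrix.SpecialLinearGroup (Fin n) ℤ).1.mulVec p)) = p := by
      rw [Matrix.mulVec_mulVec, ← Matrix.SpecialLinearGroup.coe_mul, mul_inv_cancel,
        Matrix.SpecialLinearGroup.coe_one, Matrix.one_mulVec]
    conv_rhs => rw [← h1]
    simp [Matrix.mulVec, dotProduct]
  have h1 := hl ((A⁻¹ : Matrix.SpecialLinearGroup (Fin n) ℤ).1.mulVec p)
    ((A⁻¹ : Matrix.SpecialLinearGroup (Fin n) ℤ).1.mulVec q) (by
      intro h
      apply hpq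
      funext i
      have h2 := key p i
      rw [h, key q i] at h2
      exact_mod_cast h2.symm)
  have h2 := genPos_map _ (det_map_ne_zero A) h1
  convert h2 using 1
  rw [List.map_cons, List.map_map, List.map_map]
  have hsub : ∀ x y : Fin n → ℝ, (A.1.map (Int.cast : ℤ → ℝ)).mulVec (fun i => x i - y i) =
      fun i => (A.1.map (Int.cast : ℤ → ℝ)).mulVec x i -
        (A.1.map (Int.cast : ℤ → ℝ)).mulVec y i := by
    intro x y
    exact Matrix.mulVec_sub _ x y
  congr 1
  · rw [hsub]
    funext i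
    rw [key, key]
  · apply List.map_congr_left
    intro x _
    simp only [Function.comp_apply]
    rw [hsub, slVec_eq]
    funext i
    rw [key]

theorem latGen_translate {n : ℕ} (p : Fin n → ℤ) {l : List (Fin n → ℝ)}
    (hl : LatGen n l) : LatGen n (l.map (fun x i => x i + (p i : ℝ))) := by
  intro p' q' hpq
  have h1 := hl (p' - p) (q' - p) (by
    intro h
    apply hpq
    simpa using h)
  convert h1 using 1
  rw [List.map_map]
  congr 1
  · funext i
    simp
  · apply List.map_congr_left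
    intro x _
    funext i
    simp only [Function.comp_apply, Pi.sub_apply, Int.cast_sub]
    ring

theorem latGen_cone {n : ℕ} (_hn : 1 ≤ n) (S : Finset (List (Fin n → ℝ)))
    (hS : ∀ l ∈ S, LatGen n l) : ∃ w : Fin n → ℝ, ∀ l ∈ S, LatGen n (w :: l) := by
  let L : (Fin n → ℤ) → (Fin n → ℤ) → List (Fin n → ℝ) → List (Fin n → ℝ) := fun p q l =>
    (fun i => (q i : ℝ) - (p i : ℝ)) :: l.map (fun x i => x i - (p i : ℝ))
  let 𝒲 : Set (AffineSubspace ℝ (Fin n → ℝ)) :=
    ⋃ p : Fin n → ℤ, ⋃ q : Fin n → ℤ, ⋃ l ∈ S,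
      (fun l' => affL (fun i => (p i : ℝ)) l') ''
        {l' | l' ∈ (L p q l).sublists ∧ l'.length + 1 ≤ n}
  have hc : 𝒲.Countable := by
    refine Set.countable_iUnion fun p => Set.countable_iUnion fun q => ?_
    refine Set.Countable.biUnion S.countable_toSet fun l _ => ?_
    refine Set.Countable.image ?_ _
    refine Set.Countable.mono (fun l' hl' => hl'.1) (List.finite_toSet (L p q l).sublists).countable
  obtain ⟨w, hw⟩ := exists_avoid 𝒲 hc (by
    intro W hW
    simp only [𝒲, Set.mem_iUnion] at hW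
    obtain ⟨p, q, l, hl, l', hl', rfl⟩ := hW
    exact affL_ne_top _ hl'.2)
  refine ⟨w, fun l hl p q hpq => ?_⟩
  rw [List.map_cons]
  refine genPos_cons_cons (hS l hl p q hpq) fun l' hl' hlen h => ?_
  refine hw (affL (fun i => (p i : ℝ)) l') ?_ (mem_affL.2 h)
  simp only [𝒲, Set.mem_iUnion]
  exact ⟨p, q, l, hl, l', ⟨List.mem_sublists.2 hl', hlen⟩, rfl⟩

end GenPos

end Pool.Agent.H121
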