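import Pool.Agent.helper121_TH.Sys
import Pool.Agent.helper121_TH.Eps
import Pool.Agent.helper121_TH.GP

/-!
# From invariant homogeneous cochains to group cohomology
-/

namespace Pool.Agent.H121

namespace Bridge

open CategoryTheory

/-- The boundary of a tuple, as a sum over faces. -/
theorem bdL_ofFn {T : Type*} (m : ℕ) (x : Fin (m + 1) → T) :
    bdL ℤ (List.ofFn x) =
      ∑ i : Fin (m + 1), ((-1 : ℤ) ^ (i : ℕ)) • Finsupp.single (List.ofFn (x ∘ i.succAbove)) (1 : ℤ) := by
  induction m with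
  | zero =>
    rw [List.ofFn_succ, bdL_cons]
    simp
  | succ m ih =>
    rw [List.ofFn_succ, bdL_cons, ih (fun i => x i.succ),
      Fin.sum_univ_succ (n := m + 1) (f := fun i => ((-1 : ℤ) ^ (i : ℕ)) •
        Finsupp.single (List.ofFn (x ∘ i.succAbove)) (1 : ℤ)), map_sum, sub_eq_add_neg,
      ← Finset.sum_neg_distrib]
    congr 1
    · simp [Function.comp_def]
    · refine Finset.sum_congr rfl fun i _ => ?_
      rw [map_smul, cone_single, List.ofFn_succ (f := x ∘ i.succ.succAbove)]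
      simp only [Function.comp_def, Fin.succ_succAbove_zero, Fin.succ_succAbove_succ, Fin.val_succ,
        pow_succ, mul_neg, mul_one, neg_smul]

theorem lin_bdL_ofFn {T : Type*} (f : List T → ℤ) (m : ℕ) (x : Fin (m + 1) → T) :
    lin ℤ f (bdL ℤ (List.ofFn x)) =
      ∑ i : Fin (m + 1), (-1 : ℤ) ^ (i : ℕ) * f (List.ofFn (x ∘ i.succAbove)) := by
  rw [bdL_ofFn, map_sum]
  refine Finset.sum_congr rfl fun i _ => ?_
  rw [map_smul, lin_single]
  simp

/-- The differential of inhomogeneous cochains, in homogeneous terms. -/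
theorem d_inhom {G : Type} [Group G] (n : ℕ) (f : List G → ℤ)
    (hf : ∀ g l, f (l.map (g * ·)) = f l) (g : Fin (n + 1) → G) :
    inhomogeneousCochains.d (Rep.trivial ℤ G ℤ) n (inhom n f) g =
      lin ℤ f (bdL ℤ (List.ofFn (Fin.partialProd g))) := by
  rw [lin_bdL_ofFn, Fin.sum_univ_succ, inhomogeneousCochains.d_hom_apply]
  congr 1
  · simp only [Fin.val_zero, pow_zero, one_mul, Fin.succAbove_zero]
    have h1 : Fin.partialProd g ∘ Fin.succ = (g 0 * ·) ∘ Fin.partialProd (fun i => g i.succ) := by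
      ext i
      simp only [Function.comp_apply, Fin.partialProd_succ']
      rfl
    rw [h1, ← List.map_ofFn, hf]
    simp [inhom]
  · refine Finset.sum_congr rfl fun j _ => ?_
    rw [inhom, Fin.partialProd_contractNth]
    simp

/-- A cocycle is trivial in cohomology iff it is a coboundary. -/
theorem pi_eq_zero_iff {G : Type} [Group G] (A : Rep.{0} ℤ G) (m : ℕ)
    (c : groupCohomology.cocycles A (m + 1)) :
    groupCohomology.π A (m + 1) c = 0 ↔
      ∃ b : (Fin m → G) → A, inhomogeneousCochains.d A m b =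
        groupCohomology.iCocycles A (m + 1) c := by
  have hex : (ShortComplex.mk ((groupCohomology.inhomogeneousCochains A).toCycles m (m + 1))
      ((groupCohomology.inhomogeneousCochains A).homologyπ (m + 1)) (by simp)).Exact :=
    ShortComplex.exact_of_g_is_cokernel _
      ((groupCohomology.inhomogeneousCochains A).homologyIsCokernel m (m + 1) (by simp))
  have hinj : Function.Injective (groupCohomology.iCocycles A (m + 1)) :=
    (ModuleCat.mono_iff_injective _).1 inferInstance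
  have hd : ∀ b : (Fin m → G) → A, groupCohomology.iCocycles A (m + 1)
      (groupCohomology.toCocycles A m (m + 1) b) = inhomogeneousCochains.d A m b := by
    intro b
    have h1 := (groupCohomology.inhomogeneousCochains A).toCycles_i m (m + 1)
    rw [groupCohomology.inhomogeneousCochains.d_def] at h1
    exact ConcreteCategory.congr_hom h1 b
  rw [ShortComplex.moduleCat_exact_iff] at hex
  constructor
  · intro h
    obtain ⟨b, hb⟩ := hex c h
    refine ⟨b, ?_⟩
    rw [← hd, ← hb]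
  · rintro ⟨b, hb⟩
    rw [← hd] at hb
    have := hinj hb
    rw [← this]
    have h2 := (groupCohomology.inhomogeneousCochains A).toCycles_comp_homologyπ m (m + 1)
    exact ConcreteCategory.congr_hom h2 b

/-- The homogeneous cochain of an inhomogeneous one. -/
def homog {G : Type*} [Group G] (m : ℕ) (b : (Fin m → G) → ℤ) (l : List G) : ℤ :=
  if l.length = m + 1 then b (fun i => (l.getD i 1)⁻¹ * l.getD (i + 1) 1) else 0

theorem homog_inv {G : Type*} [Group G] (m : ℕ) (b : (Fin m → G) → ℤ) (g : G) (l : List G) :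
    homog m b (l.map (g * ·)) = homog m b l := by
  unfold homog
  rw [List.length_map]
  split_ifs with h
  · congr 1
    ext i
    have h1 : (i : ℕ) < l.length := by omega
    have h2 : (i : ℕ) + 1 < l.length := by omega
    simp [List.getD_eq_getElem?_getD, h1, h2, mul_assoc]
  · rfl

theorem getD_ofFn {T : Type*} {k : ℕ} (x : Fin k → T) (i : ℕ) (d : T) (hi : i < k) :
    (List.ofFn x).getD i d = x ⟨i, hi⟩ := by
  rw [List.getD_eq_getElem _ _ (by simpa using hi), List.getElem_ofFn]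

theorem inhom_homog {G : Type*} [Group G] (m : ℕ) (b : (Fin m → G) → ℤ) :
    inhom m (homog m b) = b := by
  ext g
  unfold inhom homog
  rw [if_pos (by simp)]
  congr 1
  ext i
  rw [← Fin.partialProd_right_inv g i, getD_ofFn _ _ _ (by omega), getD_ofFn _ _ _ (by omega)]
  rfl

theorem kills_iff_d {G : Type} [Group G] (m : ℕ) (f : List G → ℤ)
    (hf : ∀ g l, f (l.map (g * ·)) = f l) (d : ℤ) :
    Kills (m + 2) f d ↔ ∃ b : (Fin m → G) → ℤ,
      ∀ g, inhomogeneousCochains.d (Rep.trivial ℤ G ℤ) m b g = d * inhom (m + 1) f g := by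
  constructor
  · rintro ⟨h, hinv, hh⟩
    refine ⟨inhom m h, fun g => ?_⟩
    rw [d_inhom m h hinv, ← hh _ (by simp)]
    rfl
  · rintro ⟨b, hb⟩
    refine ⟨homog m b, homog_inv m b, fun l hl => ?_⟩
    have hx : ∃ x : Fin (m + 1 + 1) → G, List.ofFn x = l := by
      have hl' : m + 1 + 1 = l.length := hl.symm
      rw [hl']
      exact ⟨l.get, List.ofFn_get l⟩
    obtain ⟨x, rfl⟩ := hx
    have h1 := Fin.partialProd_left_inv x
    have h2 : List.ofFn x = (List.ofFn (Fin.partialProd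
        fun i : Fin (m + 1) => (x i.castSucc)⁻¹ * x i.succ)).map (x 0 * ·) := by
      rw [List.map_ofFn]
      congr 1
      exact h1.symm
    rw [h2, hf, ← mp_bdL, lin_mp]
    have h3 : (fun l => homog m b (l.map (x 0 * ·))) = homog m b := by
      ext l
      exact homog_inv m b _ l
    rw [h3, ← d_inhom m (homog m b) (homog_inv m b), inhom_homog, hb]
    rfl

theorem pi_smul_iff {G : Type} [Group G] (m : ℕ) (f : List G → ℤ)
    (hf : ∀ g l, f (l.map (g * ·)) = f l)
    (c : groupCohomology.cocycles (Rep.trivial ℤ G ℤ) (m + 1))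
    (hc : groupCohomology.iCocycles (Rep.trivial ℤ G ℤ) (m + 1) c = inhom (m + 1) f) (d : ℤ) :
    d • groupCohomology.π (Rep.trivial ℤ G ℤ) (m + 1) c = 0 ↔ Kills (m + 2) f d := by
  rw [kills_iff_d m f hf, ← map_zsmul, pi_eq_zero_iff, map_zsmul, hc]
  constructor
  · rintro ⟨b, hb⟩
    exact ⟨b, fun g => by rw [hb]; rfl⟩
  · rintro ⟨b, hb⟩
    exact ⟨b, funext fun g => by rw [hb]; rfl⟩

theorem eps_slPerm {n : ℕ} (A : Matrix.SpecialLinearGroup (Fin n) ℤ) (l : List (Fin n → ℝ)) :
    eps n (l.map (slPerm n A)) = eps n l := by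
  have h : 0 < (A.1.map (Int.cast : ℤ → ℝ)).det := by
    have h1 : (A.1.map (Int.cast : ℤ → ℝ)).det = ((A.1.det : ℤ) : ℝ) := by
      have := RingHom.map_det (Int.castRingHom ℝ) A.1
      simpa using this.symm
    rw [h1, A.2]; simp
  exact eps_map _ h l

variable {G : Type} [Group G] {n : ℕ} {ρ : G →* Matrix.SpecialLinearGroup (Fin n) ℤ}

theorem euler_inv {σ : List G → Ch ℤ (Fin n → ℝ)}
    (hσ : IsSystem ((slPerm n).comp ρ) (GenPos n) σ) (g : G) (l : List G) :
    euler n σ (l.map (g * ·)) = euler n σ l := by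
  unfold euler
  rw [hσ.act, lin_mp]
  congr 1
  congr 1
  ext l
  exact eps_slPerm (ρ g) l

theorem euler_cocycle (hn : 1 ≤ n) {σ : List G → Ch ℤ (Fin n → ℝ)}
    (hσ : IsSystem ((slPerm n).comp ρ) (GenPos n) σ) (l : List G) (hl : l.length = n + 2) :
    lin ℤ (euler n σ) (bdL ℤ l) = 0 := by
  have h1 : lin ℤ (euler n σ) (bdL ℤ l) = lin ℤ (eps n) (lin ℤ σ (bdL ℤ l)) := by
    rw [map_lin]
    rfl
  rw [h1, ← hσ.bd, lin_bd]
  have h2 := hσ.mem l
  rw [hl] at h2
  have h3 := lin_mem (⊥ : Submodule ℤ ℤ) (f := fun l => lin ℤ (eps n) (bdL ℤ l))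
    (fun l h3 h4 => by rw [eps_cocycle hn l h3 h4]; simp) h2
  simpa using h3

/-- The class of a system. -/
theorem exists_class (hn : 1 ≤ n) {σ : List G → Ch ℤ (Fin n → ℝ)}
    (hσ : IsSystem ((slPerm n).comp ρ) (GenPos n) σ) :
    ∃ c : groupCohomology.cocycles (Rep.trivial ℤ G ℤ) n,
      groupCohomology.iCocycles (Rep.trivial ℤ G ℤ) n c = inhom n (euler n σ) := by
  have h : inhomogeneousCochains.d (Rep.trivial ℤ G ℤ) n (inhom n (euler n σ)) = 0 := by
    funext g
    rw [d_inhom n (euler n σ) (euler_inv hσ)]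
    exact euler_cocycle hn hσ _ (by simp)
  exact ⟨groupCohomology.cocyclesMk _ h, groupCohomology.iCocycles_mk _ h⟩

/-- The classes of two systems agree. -/
theorem class_unique (hn : 1 ≤ n) {σ σ' : List G → Ch ℤ (Fin n → ℝ)}
    (hσ : IsSystem ((slPerm n).comp ρ) (GenPos n) σ)
    (hσ' : IsSystem ((slPerm n).comp ρ) (GenPos n) σ')
    (c c' : groupCohomology.cocycles (Rep.trivial ℤ G ℤ) n)
    (hc : groupCohomology.iCocycles (Rep.trivial ℤ G ℤ) n c = inhom n (euler n σ))
    (hc' : groupCohomology.iCocycles (Rep.trivial ℤ G ℤ) n c' = inhom n (euler n σ')) :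
    groupCohomology.π (Rep.trivial ℤ G ℤ) n c = groupCohomology.π (Rep.trivial ℤ G ℤ) n c' := by
  obtain ⟨m, rfl⟩ : ∃ m, n = m + 1 := ⟨n - 1, by omega⟩
  obtain ⟨k, hk1, hk2⟩ := system_unique (adm_genPos hn ρ) hσ hσ' (m + 2) (eps (m + 1))
    (fun l h1 h2 => eps_cocycle hn l h1 h2) (fun g l _ => eps_slPerm (ρ g) l)
  have h1 := (pi_smul_iff m (fun l => euler (m + 1) σ l - euler (m + 1) σ' l)
    (fun g l => by rw [euler_inv hσ, euler_inv hσ']) (c - c')
    (by rw [map_sub, hc, hc']; rfl) 1).2 ⟨k, hk1, fun l hl => by rw [one_mul]; exact hk2 l hl⟩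
  rw [one_smul, map_sub, sub_eq_zero] at h1
  exact h1

end Bridge

open Bridge in
theorem bridge {G : Type} [Group G] {n : ℕ} (hn : 1 ≤ n)
    (ρ : G →* Matrix.SpecialLinearGroup (Fin n) ℤ) :
    (∃! x, IsEulerClass n ρ x) ∧ ∀ x, IsEulerClass n ρ x →
      ∀ σ : List G → Ch ℤ (Fin n → ℝ), IsSystem ((slPerm n).comp ρ) (GenPos n) σ →
        ∀ d : ℤ, d • x = 0 ↔ Kills (n + 1) (euler n σ) d := by
  constructor
  · obtain ⟨σ, hσ⟩ := exists_system (adm_genPos hn ρ)
    obtain ⟨c, hc⟩ := exists_class hn hσ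
    refine ⟨groupCohomology.π (Rep.trivial ℤ G ℤ) n c, ⟨σ, hσ, c, hc, rfl⟩, ?_⟩
    rintro y ⟨σ', hσ', c', hc', rfl⟩
    exact class_unique hn hσ' hσ c' c hc' hc
  · rintro x ⟨σ', hσ', c', hc', rfl⟩ σ hσ d
    obtain ⟨c, hc⟩ := exists_class hn hσ
    rw [class_unique hn hσ' hσ c' c hc' hc]
    obtain ⟨m, rfl⟩ : ∃ m, n = m + 1 := ⟨n - 1, by omega⟩
    exact pi_smul_iff m (euler (m + 1) σ) (euler_inv hσ) c hc d

end Pool.Agent.H121
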