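import Pool.Agent.helper121_TH.Sys

/-!
# Systems for cyclic groups
-/

namespace Pool.Agent.H121

section
variable {R : Type*} [CommRing R] {T : Type*} {τ : T → T} {N : ℕ} {P : List T → Prop}

theorem mp_pow (τ : T → T) (i : ℕ) : (mp R τ) ^ i = mp R (τ^[i]) := by
  induction i with
  | zero =>
    apply LinearMap.ext
    intro c
    simp only [pow_zero, Module.End.one_apply, Function.iterate_zero]
    exact (mp_id c).symm
  | succ i ih =>
    apply LinearMap.ext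
    intro c
    rw [pow_succ, ih, Module.End.mul_apply, mp_mp, Function.iterate_succ]

theorem mp_pow_eq_one (hN : τ^[N] = id) : (mp R τ) ^ N = 1 := by
  rw [mp_pow, hN]
  apply LinearMap.ext
  intro c
  exact mp_id c

theorem Dop_zero (N : ℕ) (A : Ch R T →ₗ[R] Ch R T) : Dop R N A 0 = LinearMap.id := by
  simp [Dop]

theorem Dop_odd (N : ℕ) (A : Ch R T →ₗ[R] Ch R T) {k : ℕ} (hk : Odd k) :
    Dop R N A k = A - 1 := by
  have : k ≠ 0 := by rintro rfl; simp at hk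
  rw [Dop, if_neg this, if_pos hk]
  rfl

theorem Dop_even (N : ℕ) (A : Ch R T →ₗ[R] Ch R T) {k : ℕ} (hk : Even k) (h0 : k ≠ 0) :
    Dop R N A k = ∑ i ∈ Finset.range N, A ^ i := by
  rw [Dop, if_neg h0, if_neg (by simpa using hk)]

theorem bd_pow_mp (i : ℕ) (c : Ch R T) :
    bd R (((mp R τ) ^ i) c) = ((mp R τ) ^ i) (bd R c) := by
  rw [mp_pow, mp_bd]

theorem bd_sum_pow (n : ℕ) (c : Ch R T) :
    bd R ((∑ i ∈ Finset.range n, (mp R τ) ^ i) c) =
      (∑ i ∈ Finset.range n, (mp R τ) ^ i) (bd R c) := by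
  simp only [LinearMap.sum_apply, map_sum, bd_pow_mp]

theorem bd_Dop (k : ℕ) (c : Ch R T) :
    bd R (Dop R N (mp R τ) k c) = Dop R N (mp R τ) k (bd R c) := by
  unfold Dop
  split_ifs
  · rfl
  · simp [mp_bd]
  · exact bd_sum_pow N c

theorem Dop_Dop (hN : τ^[N] = id) {k : ℕ} (hk : 1 ≤ k) (c : Ch R T) :
    Dop R N (mp R τ) (k + 1) (Dop R N (mp R τ) k c) = 0 := by
  have h1 := mp_pow_eq_one (R := R) hN
  have h2 : (mp R τ - 1) * ∑ i ∈ Finset.range N, mp R τ ^ i = 0 :=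
    (mul_geom_sum (R := Module.End R (Ch R T)) (mp R τ) N).trans (by rw [h1]; exact sub_self _)
  have h3 : (∑ i ∈ Finset.range N, mp R τ ^ i) * (mp R τ - 1) = 0 :=
    (geom_sum_mul (R := Module.End R (Ch R T)) (mp R τ) N).trans (by rw [h1]; exact sub_self _)
  rcases Nat.even_or_odd k with h | h
  · rw [Dop_odd _ _ (Even.add_one h), Dop_even _ _ h (by omega), ← Module.End.mul_apply, h2]
    rfl
  · rw [Dop_even _ _ (Odd.add_one h) (by omega), Dop_odd _ _ h, ← Module.End.mul_apply, h3]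
    rfl

theorem pow_mem (hmap : ∀ l, P l → P (l.map τ)) {k : ℕ} {c : Ch R T} (hc : c ∈ K R P k) (i : ℕ) :
    ((mp R τ) ^ i) c ∈ K R P k := by
  induction i with
  | zero => simpa using hc
  | succ i ih =>
    rw [pow_succ', Module.End.mul_apply]
    exact mp_mem_K hmap ih

theorem sum_pow_mem (hmap : ∀ l, P l → P (l.map τ)) {k : ℕ} {c : Ch R T} (hc : c ∈ K R P k)
    (n : ℕ) : (∑ i ∈ Finset.range n, (mp R τ) ^ i) c ∈ K R P k := by
  rw [LinearMap.sum_apply]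
  exact Submodule.sum_mem _ fun i _ => pow_mem hmap hc i

theorem Dop_mem (hmap : ∀ l, P l → P (l.map τ)) {k j : ℕ} {c : Ch R T} (hc : c ∈ K R P k) :
    Dop R N (mp R τ) j c ∈ K R P k := by
  unfold Dop
  split_ifs
  · exact hc
  · rw [LinearMap.sub_apply]
    exact Submodule.sub_mem _ (mp_mem_K hmap hc) hc
  · exact sum_pow_mem hmap hc N

end

section compare

variable {T : Type*} {τ : T → T} {N m : ℕ} {P : List T → Prop}

theorem lin_pow_inv {e : List T → ℤ} (hmap : ∀ l, P l → P (l.map τ))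
    (hinv : ∀ l, P l → e (l.map τ) = e l) {k : ℕ} {c : Ch ℤ T} (hc : c ∈ K ℤ P k) (i : ℕ) :
    lin ℤ e (((mp ℤ τ) ^ i) c) = lin ℤ e c := by
  induction i with
  | zero => simp
  | succ i ih =>
    rw [pow_succ', Module.End.mul_apply, lin_mp,
      lin_congr_K (P := P) (fun l hl _ => hinv l hl) (pow_mem hmap hc i), ih]

theorem lin_sum_pow_inv {e : List T → ℤ} (hmap : ∀ l, P l → P (l.map τ))
    (hinv : ∀ l, P l → e (l.map τ) = e l) {k : ℕ} {c : Ch ℤ T} (hc : c ∈ K ℤ P k) (n : ℕ) :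
    lin ℤ e ((∑ i ∈ Finset.range n, (mp ℤ τ) ^ i) c) = n * lin ℤ e c := by
  rw [LinearMap.sum_apply, map_sum]
  simp only [lin_pow_inv hmap hinv hc]
  simp

/-- a cochain vanishing on boundaries of `P`-lists vanishes on boundaries of `P`-chains. -/
theorem lin_bd_zero {e : List T → ℤ} {k : ℕ}
    (he : ∀ l, P l → l.length = k → lin ℤ e (bdL ℤ l) = 0) {c : Ch ℤ T} (hc : c ∈ K ℤ P k) :
    lin ℤ e (bd ℤ c) = 0 := by
  rw [lin_bd, lin_congr_K (P := P) (g := fun _ => (0 : ℤ)) (fun l hl hk => he l hl hk) hc]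
  have : lin ℤ (fun _ : List T => (0 : ℤ)) = 0 := by
    apply ch_ext; intro l; simp
  rw [this]
  simp

theorem isW_compare_aux
    (hmap : ∀ l, P l → P (l.map τ))
    (hfill : ∀ k, ∀ c ∈ K ℤ P k, bd ℤ c = 0 → ∃ d ∈ K ℤ P (k + 1), bd ℤ d = c)
    (hN : τ^[N] = id)
    {s s' : ℕ → Ch ℤ T} (hs : IsW ℤ τ N P m s) (hs' : IsW ℤ τ N P m s') (k : ℕ)
    (hk : k + 1 ≤ m) :
    ∃ t ∈ K ℤ P (k + 1), ∃ t' ∈ K ℤ P (k + 2), s (k + 1) - s' (k + 1) =
      (if k = 0 then 0 else Dop ℤ N (mp ℤ τ) k t) + bd ℤ t' := by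
  induction k with
  | zero =>
    have h1 : bd ℤ (s 1 - s' 1) = 0 := by
      rw [map_sub, hs.bd 0 (by omega), hs'.bd 0 (by omega), hs.zero, hs'.zero, sub_self]
    obtain ⟨d, hd, hd'⟩ := hfill 1 _ (Submodule.sub_mem _ (hs.mem 1 hk) (hs'.mem 1 hk)) h1
    exact ⟨0, Submodule.zero_mem _, d, hd, by simp [hd']⟩
  | succ k ih =>
    obtain ⟨t, ht, t', ht', hu⟩ := ih (by omega)
    have h1 : bd ℤ (s (k + 1 + 1) - s' (k + 1 + 1) - Dop ℤ N (mp ℤ τ) (k + 1) t') = 0 := by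
      rw [map_sub, map_sub, hs.bd (k + 1) (by omega), hs'.bd (k + 1) (by omega), bd_Dop,
        ← map_sub, hu, map_add]
      split_ifs with h0
      · simp
      · rw [Dop_Dop hN (by omega)]; simp
    obtain ⟨d, hd, hd'⟩ := hfill (k + 2) _ (Submodule.sub_mem _
      (Submodule.sub_mem _ (hs.mem _ hk) (hs'.mem _ hk)) (Dop_mem hmap ht')) h1
    refine ⟨t', ht', d, hd, ?_⟩
    rw [if_neg (by omega), hd']
    abel

theorem isW_compare
    (hmap : ∀ l, P l → P (l.map τ))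
    (hfill : ∀ k, ∀ c ∈ K ℤ P k, bd ℤ c = 0 → ∃ d ∈ K ℤ P (k + 1), bd ℤ d = c)
    (hN : τ^[N] = id) (e : List T → ℤ)
    (he : ∀ l, P l → l.length = m + 1 → lin ℤ e (bdL ℤ l) = 0)
    (hinv : ∀ l, P l → e (l.map τ) = e l) (hm : Odd m)
    {s s' : ℕ → Ch ℤ T} (hs : IsW ℤ τ N P m s) (hs' : IsW ℤ τ N P m s') :
    (N : ℤ) ∣ lin ℤ e (s m) - lin ℤ e (s' m) := by
  obtain ⟨k, rfl⟩ : ∃ k, m = k + 1 := ⟨m - 1, by have := hm.pos; omega⟩
  obtain ⟨t, ht, t', ht', hu⟩ := isW_compare_aux hmap hfill hN hs hs' k le_rfl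
  rw [← map_sub, hu, map_add, lin_bd_zero he ht', add_zero]
  split_ifs with h0
  · simp
  · have hk : Even k := by
      rcases hm with ⟨j, hj⟩
      exact ⟨j, by omega⟩
    rw [Dop_even _ _ hk h0, lin_sum_pow_inv hmap hinv ht]
    exact dvd_mul_right _ _

end compare

section bar

variable {G T : Type*} [Group G] {ρ : G →* Equiv.Perm T} {P : List T → Prop}

/-- The standard system in the bar complex. -/
noncomputable def barW (R : Type*) [CommRing R] (J : G) (N : ℕ) : ℕ → Ch R G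
  | 0 => Finsupp.single [] 1
  | k + 1 => cone R 1 (Dop R N (mp R (fun x => J * x)) k (barW R J N k))

theorem iterate_mul_left (J : G) (i : ℕ) : (fun x : G => J * x)^[i] = fun x => J ^ i * x := by
  funext x
  induction i with
  | zero => simp
  | succ i ih => rw [Function.iterate_succ_apply', ih, pow_succ', mul_assoc]

theorem barW_isW (R : Type*) [CommRing R] (J : G) {N : ℕ} (hJ : J ^ N = 1) (m : ℕ) :
    IsW R (fun x => J * x) N (fun _ => True) m (barW R J N) := by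
  have hN : (fun x : G => J * x)^[N] = id := by
    rw [iterate_mul_left, hJ]; funext x; simp
  have hmem : ∀ k, barW R J N k ∈ K R (fun _ : List G => True) k := by
    intro k
    induction k with
    | zero => exact single_mem_K' trivial rfl 1
    | succ k ih =>
      exact cone_mem_K 1 (Dop_mem (fun _ _ => trivial) ih) (fun _ _ => trivial)
  have hcyc : ∀ k, bd R (Dop R N (mp R (fun x => J * x)) k (barW R J N k)) = 0 ∧
      bd R (barW R J N (k + 1)) = Dop R N (mp R (fun x => J * x)) k (barW R J N k) := by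
    intro k
    have h2 : ∀ k, bd R (Dop R N (mp R (fun x => J * x)) k (barW R J N k)) = 0 →
        bd R (barW R J N (k + 1)) = Dop R N (mp R (fun x => J * x)) k (barW R J N k) := by
      intro k hk
      rw [barW, bd_cone, hk]; simp
    induction k with
    | zero =>
      have h1 : bd R (Dop R N (mp R (fun x => J * x)) 0 (barW R J N 0)) = 0 := by
        rw [Dop_zero]; simp [barW, bd_single]
      exact ⟨h1, h2 0 h1⟩
    | succ k ih =>
      have h1 : bd R (Dop R N (mp R (fun x => J * x)) (k + 1) (barW R J N (k + 1))) = 0 := by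
        rw [bd_Dop, ih.2]
        rcases Nat.eq_zero_or_pos k with hk | hk
        · subst hk
          rw [Dop_zero, Dop_odd _ _ (by decide)]
          simp [barW]
        · exact Dop_Dop hN hk _
      exact ⟨h1, h2 _ h1⟩
  exact ⟨rfl, fun k _ => (hcyc k).2, fun k _ => hmem k⟩

theorem lin_sigma_pow {σ : List G → Ch ℤ T} (hσ : IsSystem ρ P σ) (J : G) (c : Ch ℤ G) :
    lin ℤ σ (mp ℤ (fun x => J * x) c) = mp ℤ (ρ J) (lin ℤ σ c) := by
  rw [lin_mp, map_lin]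
  exact LinearMap.congr_fun (ch_ext fun l => by simp [hσ.act J l]) c

theorem lin_sigma_Dop {σ : List G → Ch ℤ T} (hσ : IsSystem ρ P σ) (J : G) (N k : ℕ) (c : Ch ℤ G) :
    lin ℤ σ (Dop ℤ N (mp ℤ (fun x => J * x)) k c) = Dop ℤ N (mp ℤ (ρ J)) k (lin ℤ σ c) := by
  have hpow : ∀ i : ℕ, lin ℤ σ ((mp ℤ (fun x => J * x) ^ i) c) =
      (mp ℤ (ρ J) ^ i) (lin ℤ σ c) := by
    intro i
    induction i with
    | zero => simp
    | succ i ih =>
      rw [pow_succ', pow_succ', Module.End.mul_apply, Module.End.mul_apply, lin_sigma_pow hσ, ih]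
  unfold Dop
  split_ifs
  · rfl
  · simp only [LinearMap.sub_apply, map_sub, lin_sigma_pow hσ, LinearMap.id_apply]
  · simp only [LinearMap.sum_apply, map_sum, hpow]

theorem lin_sigma_bd {σ : List G → Ch ℤ T} (hσ : IsSystem ρ P σ) (c : Ch ℤ G) :
    bd ℤ (lin ℤ σ c) = lin ℤ σ (bd ℤ c) := by
  rw [map_lin, lin_bd]
  exact LinearMap.congr_fun (ch_ext fun l => by simp [hσ.bd l]) c

/-- The image of a bar system. -/
theorem isW_sigma {σ : List G → Ch ℤ T} (hσ : IsSystem ρ P σ) {J : G} {N m : ℕ}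
    {θ : ℕ → Ch ℤ G} (hθ : IsW ℤ (fun x => J * x) N (fun _ => True) m θ) :
    IsW ℤ (ρ J) N P m (fun k => lin ℤ σ (θ k)) := by
  refine ⟨?_, fun k hk => ?_, fun k hk => ?_⟩
  · show lin ℤ σ (θ 0) = _
    rw [hθ.zero]; simp [hσ.nil]
  · show bd ℤ (lin ℤ σ (θ (k + 1))) = Dop ℤ N (mp ℤ (ρ J)) k (lin ℤ σ (θ k))
    rw [lin_sigma_bd hσ, hθ.bd k hk, lin_sigma_Dop hσ]
  · exact lin_mem (P := fun _ => True) _ (fun l _ hl => hl ▸ hσ.mem l) (hθ.mem k hk)

/-- geometric sums in stages -/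
theorem geom_stage {A : Type*} [Ring A] (x : A) (r M : ℕ) :
    (∑ j ∈ Finset.range M, (x ^ r) ^ j) * (∑ i ∈ Finset.range r, x ^ i) =
      ∑ k ∈ Finset.range (r * M), x ^ k := by
  induction M with
  | zero => simp
  | succ M ih =>
    rw [Finset.sum_range_succ, add_mul, ih, Nat.mul_succ, Finset.sum_range_add, Finset.mul_sum]
    congr 1
    refine Finset.sum_congr rfl fun i _ => ?_
    rw [← pow_mul, ← pow_add]

/-- Passing from `τ` of order `N = r M` to `τ^r`. -/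
theorem isW_reduce {τ : T → T} {r M m : ℕ} {P : List T → Prop}
    (hmap : ∀ l, P l → P (l.map τ)) {s : ℕ → Ch ℤ T}
    (hs : IsW ℤ τ (r * M) P m s) :
    IsW ℤ (τ^[r]) M P m (fun k => if Even k ∧ k ≠ 0 then
      (∑ i ∈ Finset.range r, (mp ℤ τ) ^ i) (s k) else s k) := by
  have hpow : mp ℤ (τ^[r]) = (mp ℤ τ) ^ r := (mp_pow τ r).symm
  refine ⟨?_, fun k hk => ?_, fun k hk => ?_⟩
  · simpa using hs.zero
  · rcases Nat.eq_zero_or_pos k with h0 | h0
    · subst h0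
      have := hs.bd 0 hk
      simpa [Dop_zero] using this
    · rcases Nat.even_or_odd k with h | h
      · have h1 : ¬ (Even (k + 1) ∧ k + 1 ≠ 0) := by
          rintro ⟨h2, -⟩
          exact (Nat.not_even_iff_odd.2 (Even.add_one h)) h2
        simp only [h1, if_false]
        rw [if_pos ⟨h, by omega⟩, hs.bd k hk, Dop_even _ _ h (by omega),
          Dop_even _ _ h (by omega), hpow, ← Module.End.mul_apply, geom_stage]
      · have h1 : (Even (k + 1) ∧ k + 1 ≠ 0) := ⟨Odd.add_one h, by omega⟩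
        have h2 : ¬ (Even k ∧ k ≠ 0) := by
          rintro ⟨h3, -⟩
          exact (Nat.not_even_iff_odd.2 h) h3
        have h3 : (∑ i ∈ Finset.range r, mp ℤ τ ^ i) * (mp ℤ τ - 1) = mp ℤ τ ^ r - 1 :=
          geom_sum_mul (R := Module.End ℤ (Ch ℤ T)) (mp ℤ τ) r
        rw [if_pos h1, if_neg h2, bd_sum_pow, hs.bd k hk, Dop_odd _ _ h, Dop_odd _ _ h, hpow,
          ← Module.End.mul_apply, h3]
  · split_ifs
    · exact sum_pow_mem hmap (hs.mem k hk) r
    · exact hs.mem k hk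

theorem exists_bar_system 
    (hP : Adm ρ P) {σ : List G → Ch ℤ T} (hσ : IsSystem ρ P σ) {m : ℕ} (hm : Odd m)
    (e : List T → ℤ) (he : ∀ l, P l → l.length = m + 1 → lin ℤ e (bdL ℤ l) = 0)
    (hinv : ∀ g l, P l → e (l.map (ρ g)) = e l)
    (J : G) (N M p : ℕ) (_hN : 1 ≤ N) (hM : M ∣ N) (hp : p ∣ M) (hJ : J ^ N = 1)
    (s : ℕ → Ch ℤ T) (hs : IsW ℤ (ρ (J ^ (N / M))) M P m s) (hnd : ¬ (p : ℤ) ∣ lin ℤ e (s m)) :
    ∃ θ : ℕ → Ch ℤ G, IsW ℤ (fun x => J * x) N (fun _ => True) m θ ∧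
      ¬ (p : ℤ) ∣ lin ℤ (fun l => lin ℤ e (σ l)) (θ m) := by
  refine ⟨barW ℤ J N, barW_isW ℤ J hJ m, ?_⟩
  have hr : N = N / M * M := (Nat.div_mul_cancel hM).symm
  set r := N / M with hrdef
  have h1 := isW_sigma hσ (barW_isW ℤ J hJ m)
  have hmapJ : ∀ l, P l → P (l.map (ρ J)) := fun l hl => hP.act J hl
  have hmap : ∀ l, P l → P (l.map (ρ (J ^ r))) := fun l hl => hP.act _ hl
  have h2 : IsW ℤ ((ρ J)^[r]) M P m _ :=
    isW_reduce (τ := ρ J) (r := r) (M := M) hmapJ (by rw [← hr]; exact h1)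
  have hit : (⇑(ρ J))^[r] = ρ (J ^ r) := by
    rw [map_pow]
    exact Equiv.Perm.iterate_eq_pow (ρ J) r
  rw [hit] at h2
  have hNN : (⇑(ρ (J ^ r)))^[M] = id := by
    have : (⇑(ρ (J ^ r)))^[M] = ρ ((J ^ r) ^ M) := by
      rw [map_pow ρ (J ^ r) M]
      exact Equiv.Perm.iterate_eq_pow (ρ (J ^ r)) M
    rw [this, ← pow_mul, ← hr, hJ, map_one]
    rfl
  have h3 := isW_compare hmap (fun k c hc h0 => hP.fill hc h0) hNN e he
    (fun l hl => hinv _ l hl) hm h2 hs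
  have hodd : ¬ (Even m ∧ m ≠ 0) := fun h => (Nat.not_even_iff_odd.2 hm) h.1
  rw [if_neg hodd] at h3
  rw [← map_lin]
  intro hdvd
  apply hnd
  have h4 : (p : ℤ) ∣ lin ℤ e (lin ℤ σ (barW ℤ J N m)) - lin ℤ e (s m) :=
    (Int.natCast_dvd_natCast.2 hp).trans h3
  have := dvd_sub hdvd h4
  simpa using this

theorem kills_lin {J : G} {N m : ℕ} {f h : List G → ℤ} {d : ℤ}
    (hinv : ∀ g l, h (l.map (g * ·)) = h l)
    (hh : ∀ l : List G, l.length = m + 1 → d * f l = lin ℤ h (bdL ℤ l))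
    (hm : Even m) (hm0 : m ≠ 0) {θ : ℕ → Ch ℤ G}
    (hθ : IsW ℤ (fun x => J * x) N (fun _ => True) (m + 1) θ) :
    d * lin ℤ f (θ (m + 1)) = N * lin ℤ h (θ m) := by
  have h1 : d * lin ℤ f (θ (m + 1)) = lin ℤ h (bd ℤ (θ (m + 1))) := by
    rw [lin_bd]
    have : d * lin ℤ f (θ (m + 1)) = lin ℤ (fun l => d * f l) (θ (m + 1)) :=
      map_lin (LinearMap.mulLeft ℤ d) f _
    rw [this]
    exact lin_congr_K (P := fun _ => True) (fun l _ hl => hh l hl) (hθ.mem _ le_rfl)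
  rw [h1, hθ.bd m (by omega), Dop_even _ _ hm hm0]
  exact lin_sum_pow_inv (P := fun _ => True) (fun _ _ => trivial) (fun l _ => hinv J l)
    (hθ.mem m (by omega)) N

theorem kills_dvd {J : G} {m : ℕ} (hm : Odd m) (hm3 : 3 ≤ m)
    (f : List G → ℤ) (p k : ℕ) (hp : p.Prime) (θ : ℕ → Ch ℤ G)
    (hθ : IsW ℤ (fun x => J * x) (p ^ k) (fun _ => True) m θ)
    (hnd : ¬ (p : ℤ) ∣ lin ℤ f (θ m)) (d : ℤ) (hd : Kills m f d) : ((p ^ k : ℕ) : ℤ) ∣ d := by
  obtain ⟨h, h1, h2⟩ := hd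
  obtain ⟨j, rfl⟩ : ∃ j, m = j + 1 := ⟨m - 1, by omega⟩
  have hj : Even j := by
    rcases hm with ⟨i, hi⟩
    exact ⟨i, by omega⟩
  have h3 := kills_lin h1 h2 hj (by omega) hθ
  have h4 : ((p ^ k : ℕ) : ℤ) ∣ d * lin ℤ f (θ (j + 1)) := ⟨_, h3⟩
  refine IsCoprime.dvd_of_dvd_mul_right ?_ h4
  rw [Nat.cast_pow]
  refine IsCoprime.pow_left ?_
  exact (Prime.coprime_iff_not_dvd (Nat.prime_iff_prime_int.1 hp)).2 hnd

end bar

end Pool.Agent.H121
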