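import Mathlib

/-!
# Definitions for the order of the top Hodge class

Chains on finite ordered tuples (lists) of points, equivariant systems of chains,
vectors in general position, the degree of a simplex at the origin, the Euler class of a
representation in SL_n(Z), and the top Hodge class.
-/

namespace Pool.Agent.H121

/-- `Ch R T`: the free `R`-module on finite ordered tuples (lists) of elements of `T`.  The
list `[x_0, ..., x_k]` is an ordered simplex of dimension `k`; the empty list is the
augmentation simplex of dimension `-1`. -/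
abbrev Ch (R : Type*) [CommRing R] (T : Type*) := List T →₀ R

section
variable (R : Type*) [CommRing R] {S T : Type*}

/-- `cone R t [x_0, ..., x_k] = [t, x_0, ..., x_k]`. -/
noncomputable def cone (t : T) : Ch R T →ₗ[R] Ch R T :=
  Finsupp.lmapDomain R R (List.cons t)

/-- The simplicial boundary of a list: `bdL [x_0, ..., x_k] = sum_i (-1)^i [x_0, .. omit x_i .., x_k]`,
in recursive form. -/
noncomputable def bdL : List T → Ch R T
  | [] => 0
  | t :: l => Finsupp.single l 1 - cone R t (bdL l)

/-- The boundary as a linear map on chains. -/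
noncomputable def bd : Ch R T →ₗ[R] Ch R T := Finsupp.linearCombination R (bdL R)

/-- The map on chains induced by a map of vertices. -/
noncomputable def mp (φ : S → T) : Ch R S →ₗ[R] Ch R T :=
  Finsupp.lmapDomain R R (List.map φ)

/-- Linear extension of a function on lists to chains. -/
noncomputable def lin {M : Type*} [AddCommGroup M] [Module R M] (f : List S → M) :
    Ch R S →ₗ[R] M := Finsupp.linearCombination R f

/-- Chains supported on lists of length `k` satisfying `P`. -/
def K (P : List T → Prop) (k : ℕ) : Submodule R (Ch R T) :=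
  Finsupp.supported R R {l | P l ∧ l.length = k}

end

/-- An equivariant system of `P`-chains indexed by the simplices of the bar complex of `G`:
an augmentation preserving, `G`-equivariant chain map from the homogeneous bar complex of `G`
to the chains of `P`-lists in `T`. -/
structure IsSystem {G T : Type*} [Group G] (ρ : G →* Equiv.Perm T) (P : List T → Prop)
    (σ : List G → Ch ℤ T) : Prop where
  nil : σ [] = Finsupp.single [] 1
  bd : ∀ l, bd ℤ (σ l) = lin ℤ σ (bdL ℤ l)
  act : ∀ g l, σ (l.map (g * ·)) = mp ℤ (ρ g) (σ l)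
  mem : ∀ l, σ l ∈ K ℤ P l.length

/-- Lists of vectors of `ℝ^n` in general position: any at most `n` entries (at different places)
are linearly independent. -/
def GenPos (n : ℕ) (l : List (Fin n → ℝ)) : Prop :=
  ∀ l' : List (Fin n → ℝ), l'.Sublist l → l'.length ≤ n → LinearIndependent ℝ l'.get

/-- `minor n [x_0, ..., x_n] i = (-1)^i det(x_0, .. omit x_i .., x_n)`. -/
noncomputable def minor (n : ℕ) (l : List (Fin n → ℝ)) (i : ℕ) : ℝ :=
  (-1) ^ i * Matrix.det (Matrix.of fun j : Fin n => (l.eraseIdx i).getD j 0)

open Classical in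
/-- The degree at the origin of the simplex `[x_0, ..., x_n]` in `ℝ^n`: `1` or `-1` (according to
orientation) if the origin lies in its interior, and `0` otherwise.  By Cramer's rule
`sum_i minor n l i • x_i = 0`, so the origin is interior iff all the minors have the same sign. -/
noncomputable def eps (n : ℕ) (l : List (Fin n → ℝ)) : ℤ :=
  if ∀ i ≤ n, 0 < minor n l i then 1 else if ∀ i ≤ n, minor n l i < 0 then -1 else 0

/-- The matrix of `A` acting on a real vector. -/
noncomputable def slVec {n : ℕ} (A : Matrix.SpecialLinearGroup (Fin n) ℤ) (v : Fin n → ℝ) :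
    Fin n → ℝ :=
  ((A : Matrix (Fin n) (Fin n) ℤ).map (Int.cast : ℤ → ℝ)).mulVec v

theorem slVec_mul {n : ℕ} (A B : Matrix.SpecialLinearGroup (Fin n) ℤ) (v : Fin n → ℝ) :
    slVec (A * B) v = slVec A (slVec B v) := by
  unfold slVec
  rw [Matrix.mulVec_mulVec, Matrix.SpecialLinearGroup.coe_mul]
  congr 1
  exact Matrix.map_mul (L := A.1) (M := B.1) (f := Int.castRingHom ℝ)

theorem slVec_one {n : ℕ} (v : Fin n → ℝ) :
    slVec (1 : Matrix.SpecialLinearGroup (Fin n) ℤ) v = v := by
  unfold slVec
  rw [Matrix.SpecialLinearGroup.coe_one, Matrix.map_one _ Int.cast_zero Int.cast_one,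
    Matrix.one_mulVec]

/-- The action of `SL_n(ℤ)` on `ℝ^n`. -/
noncomputable def slPerm (n : ℕ) :
    Matrix.SpecialLinearGroup (Fin n) ℤ →* Equiv.Perm (Fin n → ℝ) where
  toFun A :=
    { toFun := slVec A
      invFun := slVec A⁻¹
      left_inv := fun v => by rw [← slVec_mul, inv_mul_cancel, slVec_one]
      right_inv := fun v => by rw [← slVec_mul, mul_inv_cancel, slVec_one] }
  map_one' := by
    ext1 v
    exact slVec_one v
  map_mul' A B := by
    ext1 v
    exact slVec_mul A B v

/-- The Euler cochain `[γ_0, ..., γ_n] ↦` number of zeros, counted with sign, of the simplicial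
chain `σ(γ_0, ..., γ_n)`. -/
noncomputable def euler {G : Type*} (n : ℕ) (σ : List G → Ch ℤ (Fin n → ℝ)) (l : List G) : ℤ :=
  lin ℤ (eps n) (σ l)

/-- The identification of index sets `Fin g ⊕ Fin g ≃ Fin (2 * g)`. -/
def spEquiv (g : ℕ) : Fin g ⊕ Fin g ≃ Fin (2 * g) :=
  finSumFinEquiv.trans (finCongr (two_mul g).symm)

/-- The inclusion of `Sp_{2g}(ℤ)` in `SL_{2g}(ℤ)`. -/
def toSL (g : ℕ) : Matrix.symplecticGroup (Fin g) ℤ →*
    Matrix.SpecialLinearGroup (Fin (2 * g)) ℤ where
  toFun A := ⟨Matrix.reindex (spEquiv g) (spEquiv g) A.1, by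
    rw [Matrix.det_reindex_self]; exact SymplecticGroup.det_eq_one A.2⟩
  map_one' := by
    apply Subtype.ext
    simp
  map_mul' A B := by
    apply Subtype.ext
    simp [Matrix.submatrix_mul_equiv]

/-- The inhomogeneous cochain attached to a homogeneous one:
`(g_1, ..., g_n) ↦ f [1, g_1, g_1 g_2, ..., g_1 ... g_n]`. -/
def inhom {G : Type*} [Group G] (n : ℕ) (f : List G → ℤ) : (Fin n → G) → ℤ :=
  fun g => f (List.ofFn (Fin.partialProd g))

/-- The Euler class in `H^n(G;ℤ)` of the oriented flat vector bundle of a homomorphism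
`ρ : G → SL_n(ℤ)`: `x` is the class of the obstruction cocycle of an equivariant system of
simplicial chains in general position. -/
def IsEulerClass {G : Type} [Group G] (n : ℕ) (ρ : G →* Matrix.SpecialLinearGroup (Fin n) ℤ)
    (x : groupCohomology (Rep.trivial ℤ G ℤ) n) : Prop :=
  ∃ σ : List G → Ch ℤ (Fin n → ℝ), IsSystem ((slPerm n).comp ρ) (GenPos n) σ ∧
    ∃ c : groupCohomology.cocycles (Rep.trivial ℤ G ℤ) n,
      groupCohomology.iCocycles (Rep.trivial ℤ G ℤ) n c = inhom n (euler n σ) ∧
      groupCohomology.π (Rep.trivial ℤ G ℤ) n c = x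

/-- `x ∈ H^{2g}(Sp_{2g}(ℤ);ℤ) = H^{2g}(A_g;ℤ)` is the top Hodge class `λ_g` up to sign.  The dual of
the Hodge bundle on the quotient stack of the Siegel space by `Sp_{2g}(ℤ)` is, as an oriented real
vector bundle, the flat bundle with fibre `ℝ^{2g}` (each point of the Siegel space is a complex
structure on `ℝ^{2g}`, and the Siegel space is contractible), so `λ_g` is, up to sign, its Euler
class. -/
def IsTopHodge (g : ℕ)
    (x : groupCohomology (Rep.trivial ℤ (Matrix.symplecticGroup (Fin g) ℤ) ℤ) (2 * g)) : Prop :=
  IsEulerClass (2 * g) (toSL g) x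

end Pool.Agent.H121
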