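import Pool.Agent.helper121_TH.Basics

/-!
# The case g = 1
-/

namespace Pool.Agent.H121

namespace GOne

open Matrix

theorem mem_of_det (A : Matrix (Fin 2) (Fin 2) ℤ) (hA : A.det = 1) :
    Matrix.reindex (finSumFinEquiv (m := 1) (n := 1)).symm
    (finSumFinEquiv (m := 1) (n := 1)).symm A ∈ Matrix.symplecticGroup (Fin 1) ℤ := by
  rw [SymplecticGroup.mem_iff]
  rw [Matrix.det_fin_two] at hA
  have h0 : (finSumFinEquiv (m := 1) (n := 1)) (Sum.inl 0) = 0 := rfl
  have h1 : (finSumFinEquiv (m := 1) (n := 1)) (Sum.inr 0) = 1 := rfl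
  ext i j
  rcases i with i | i <;> rcases j with j | j <;>
      (fin_cases i; fin_cases j;
       simp [Matrix.mul_apply, Fintype.sum_sum_type, Matrix.J, Matrix.fromBlocks, h0, h1])
  · linarith
  · linarith
  · linarith
  · linarith

/-- The inclusion of `SL_2(ℤ)` in `Sp_2(ℤ)`. -/
def fromSL : Matrix.SpecialLinearGroup (Fin 2) ℤ →* Matrix.symplecticGroup (Fin 1) ℤ where
  toFun A := ⟨Matrix.reindex (finSumFinEquiv (m := 1) (n := 1)).symm
    (finSumFinEquiv (m := 1) (n := 1)).symm A.1, mem_of_det A.1 A.2⟩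
  map_one' := by
    apply Subtype.ext
    simp
  map_mul' A B := by
    apply Subtype.ext
    simp [Matrix.submatrix_mul_equiv]

theorem fromSL_surjective : Function.Surjective fromSL := by
  intro B
  refine ⟨⟨Matrix.reindex (finSumFinEquiv (m := 1) (n := 1))
    (finSumFinEquiv (m := 1) (n := 1)) B.1, ?_⟩, ?_⟩
  · rw [Matrix.det_reindex_self]
    exact SymplecticGroup.det_eq_one B.2
  · apply Subtype.ext
    ext i j
    simp [fromSL]

theorem sq4 : ∀ x : ZMod 24, 4 * x = 0 → ∃ y : ZMod 24, x = 2 * y := by decide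

theorem sq6 : ∀ x : ZMod 24, 6 * x = 0 → ∃ y : ZMod 24, x = 2 * y := by decide

theorem S4 : ModularGroup.S ^ 4 = 1 := by
  apply Subtype.ext
  rw [Matrix.SpecialLinearGroup.coe_pow, ModularGroup.coe_S]
  decide

theorem ST6 : (ModularGroup.S * ModularGroup.T) ^ 6 = 1 := by
  apply Subtype.ext
  rw [Matrix.SpecialLinearGroup.coe_pow, Matrix.SpecialLinearGroup.coe_mul, ModularGroup.coe_S,
    ModularGroup.coe_T]
  decide

/-- Homomorphisms from `SL_2(ℤ)` to `ℤ/24` have even values. -/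
theorem even_hom (χ : Matrix.SpecialLinearGroup (Fin 2) ℤ → ZMod 24)
    (hχ : ∀ a b, χ (a * b) = χ a + χ b) (a : Matrix.SpecialLinearGroup (Fin 2) ℤ) :
    ∃ y, χ a = 2 * y := by
  have h1 : χ 1 = 0 := by
    have := hχ 1 1
    rw [mul_one] at this
    simpa using this
  have hpow : ∀ (a : Matrix.SpecialLinearGroup (Fin 2) ℤ) (n : ℕ), χ (a ^ n) = n * χ a := by
    intro a n
    induction n with
    | zero => simp [h1]
    | succ n ih => rw [pow_succ, hχ, ih]; push_cast; ring
  have hinv : ∀ a, χ a⁻¹ = - χ a := by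
    intro a
    have := hχ a⁻¹ a
    rw [inv_mul_cancel, h1] at this
    exact eq_neg_of_add_eq_zero_left this.symm
  have hS : ∃ y, χ ModularGroup.S = 2 * y := by
    apply sq4
    have := hpow ModularGroup.S 4
    rw [S4, h1] at this
    exact_mod_cast this.symm
  have hST : ∃ y, χ (ModularGroup.S * ModularGroup.T) = 2 * y := by
    apply sq6
    have := hpow (ModularGroup.S * ModularGroup.T) 6
    rw [ST6, h1] at this
    exact_mod_cast this.symm
  have hT : ∃ y, χ ModularGroup.T = 2 * y := by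
    obtain ⟨y, hy⟩ := hS
    obtain ⟨z, hz⟩ := hST
    refine ⟨z - y, ?_⟩
    rw [hχ, hy] at hz
    linear_combination hz
  have ha : a ∈ Subgroup.closure {ModularGroup.S, ModularGroup.T} := by
    rw [SpecialLinearGroup.SL2Z_generators]; trivial
  induction ha using Subgroup.closure_induction with
  | mem x hx =>
    rcases hx with rfl | rfl
    · exact hS
    · exact hT
  | one => exact ⟨0, by rw [h1]; simp⟩
  | mul x y _ _ hx hy =>
    obtain ⟨u, hu⟩ := hx
    obtain ⟨v, hv⟩ := hy
    exact ⟨u + v, by rw [hχ, hu, hv]; ring⟩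
  | inv x _ hx =>
    obtain ⟨u, hu⟩ := hx
    exact ⟨-u, by rw [hinv, hu]; ring⟩

theorem lin_bd3 {G : Type*} (h : List G → ℤ) (x y z : G) :
    lin ℤ h (bdL ℤ [x, y, z]) = h [y, z] - h [x, z] + h [x, y] := by
  simp [bdL_cons]
  ring

end GOne

open GOne in
theorem g_one (f : List (Matrix.symplecticGroup (Fin 1) ℤ) → ℤ) (h : Kills 3 f 24) :
    Kills 3 f 12 := by
  obtain ⟨h, hinv, hh⟩ := h
  have h2 : ∀ x y, h [x, y] = h [1, x⁻¹ * y] := by
    intro x y
    have := hinv x [1, x⁻¹ * y]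
    simpa using this
  have hcoc : ∀ x y : Matrix.symplecticGroup (Fin 1) ℤ,
      ((h [1, x * y] : ℤ) : ZMod 24) = (h [1, x] : ℤ) + (h [1, y] : ℤ) := by
    intro x y
    have h3 := hh [1, x, x * y] rfl
    rw [lin_bd3] at h3
    have h4 : h [x, x * y] = h [1, y] := by
      have := h2 x (x * y)
      simpa using this
    rw [h4] at h3
    have h5 : (((24 : ℤ) * f [1, x, x * y] : ℤ) : ZMod 24) = 0 := by
      push_cast
      have : (24 : ZMod 24) = 0 := by decide
      rw [this, zero_mul]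
    rw [h3] at h5
    push_cast at h5
    linear_combination -h5
  have heven : ∀ x, ∃ y : ZMod 24, ((h [1, x] : ℤ) : ZMod 24) = 2 * y := by
    intro x
    obtain ⟨a, rfl⟩ := fromSL_surjective x
    exact even_hom (fun a => ((h [1, fromSL a] : ℤ) : ZMod 24))
      (fun a b => by rw [map_mul]; exact hcoc _ _) a
  have heven2 : ∀ x y, (2 : ℤ) ∣ h [x, y] := by
    intro x y
    rw [h2]
    obtain ⟨u, hu⟩ := heven (x⁻¹ * y)
    rw [← ZMod.intCast_zmod_cast u] at hu
    have h6 : ((h [1, x⁻¹ * y] - 2 * (u.cast : ℤ) : ℤ) : ZMod 24) = 0 := by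
      push_cast
      push_cast at hu
      rw [hu]; ring
    rw [ZMod.intCast_zmod_eq_zero_iff_dvd] at h6
    obtain ⟨w, hw⟩ := h6
    push_cast at hw
    omega
  refine ⟨fun l => h l / 2, fun g l => by simp only [hinv], fun l hl => ?_⟩
  obtain ⟨x, y, z, rfl⟩ := List.length_eq_three.1 hl
  have h7 := hh [x, y, z] rfl
  rw [lin_bd3] at h7 ⊢
  have h8 := heven2 y z
  have h9 := heven2 x z
  have h10 := heven2 x y
  omega

end Pool.Agent.H121
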