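import Pool.Agent.helper121_TH.Basics

/-!
# Number theory: the gcd of the numbers `a ^ (n (n + 1)) (a ^ n - 1)`
-/

namespace Pool.Agent.H121

namespace NT

/-- the value for the upper bound -/
theorem upper_nat {g m : ℕ} (hU : ∀ a : ℕ, 2 ≤ a →
      (m : ℤ) ∣ ((a : ℤ) ^ (2 * g)) ^ (2 * g + 1) * ((a : ℤ) ^ (2 * g) - 1))
    {p k : ℕ} (hp : p.Prime) (hk : p ^ k ∣ m) {a : ℕ} (ha : 2 ≤ a) (hpa : ¬ p ∣ a) :
    p ^ k ∣ a ^ (2 * g) - 1 := by
  have h1 : ((p ^ k : ℕ) : ℤ) ∣ ((a : ℤ) ^ (2 * g)) ^ (2 * g + 1) * ((a : ℤ) ^ (2 * g) - 1) :=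
    (Int.natCast_dvd_natCast.mpr hk).trans (hU a ha)
  have h2 : (((a ^ (2 * g)) ^ (2 * g + 1) * (a ^ (2 * g) - 1) : ℕ) : ℤ) =
      ((a : ℤ) ^ (2 * g)) ^ (2 * g + 1) * ((a : ℤ) ^ (2 * g) - 1) := by
    have h3 : 1 ≤ a ^ (2 * g) := Nat.one_le_pow _ _ (by omega)
    push_cast [Nat.cast_sub h3]
    ring
  rw [← h2, Int.natCast_dvd_natCast] at h1
  refine Nat.Coprime.dvd_of_dvd_mul_left ?_ h1
  apply Nat.Coprime.pow_left
  apply Nat.Coprime.pow_right
  apply Nat.Coprime.pow_right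
  exact (hp.coprime_iff_not_dvd).mpr hpa

/-- odd primes `p` with `p - 1 ∣ 2 g` -/
theorem odd_case {g m : ℕ} (hg : 1 ≤ g) (hU : ∀ a : ℕ, 2 ≤ a →
      (m : ℤ) ∣ ((a : ℤ) ^ (2 * g)) ^ (2 * g + 1) * ((a : ℤ) ^ (2 * g) - 1))
    {p k : ℕ} (hp : p.Prime) (hp2 : p ≠ 2) (hk : p ^ k ∣ m) :
    p ^ k ∣ p ^ (1 + padicValNat p (2 * g)) := by
  have hF : Fact p.Prime := ⟨hp⟩
  have hodd : Odd p := hp.odd_of_ne_two hp2
  have hp1 := hp.two_le
  have hpa : ¬ p ∣ p + 1 := by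
    intro h
    have h1 : p ∣ 1 := (Nat.dvd_add_right (dvd_refl p)).mp h
    exact hp.one_lt.ne' (Nat.dvd_one.mp h1)
  have h1 := upper_nat hU hp hk (a := p + 1) (by omega) hpa
  have h2 := padicValNat.pow_sub_pow (p := p) (x := p + 1) (y := 1) hodd (by omega)
    (by simp) hpa (n := 2 * g) (by omega)
  rw [one_pow, Nat.add_sub_cancel, padicValNat.self hp.one_lt] at h2
  have hne : (p + 1) ^ (2 * g) - 1 ≠ 0 := by
    have : 1 < (p + 1) ^ (2 * g) := Nat.one_lt_pow (by omega) (by omega)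
    omega
  have h3 := (padicValNat_dvd_iff_le hne).mp h1
  rw [h2] at h3
  exact pow_dvd_pow p h3

/-- odd primes `p` with `¬ p - 1 ∣ 2 g` -/
theorem odd_case' {g m : ℕ} (hU : ∀ a : ℕ, 2 ≤ a →
      (m : ℤ) ∣ ((a : ℤ) ^ (2 * g)) ^ (2 * g + 1) * ((a : ℤ) ^ (2 * g) - 1))
    {p k : ℕ} (hp : p.Prime) (hdvd : ¬ (p - 1) ∣ 2 * g) (hk : p ^ k ∣ m) : k = 0 := by
  have hF : Fact p.Prime := ⟨hp⟩
  have h1 : ¬ ∀ x : (ZMod p)ˣ, x ^ (2 * g) = 1 := by
    rw [FiniteField.forall_pow_eq_one_iff, ZMod.card]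
    exact hdvd
  push Not at h1
  obtain ⟨x, hx⟩ := h1
  have hcast : (((x : ZMod p).val + p : ℕ) : ZMod p) = (x : ZMod p) := by
    rw [Nat.cast_add, ZMod.natCast_self, add_zero, ZMod.natCast_zmod_val]
  have hpa : ¬ p ∣ (x : ZMod p).val + p := by
    intro h
    rw [← ZMod.natCast_eq_zero_iff, hcast] at h
    exact x.ne_zero h
  have ha2 : 2 ≤ (x : ZMod p).val + p := by
    have := hp.two_le
    omega
  have h2 := upper_nat hU hp hk ha2 hpa
  by_contra hk0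
  have h3 : p ∣ ((x : ZMod p).val + p) ^ (2 * g) - 1 := (dvd_pow_self p hk0).trans h2
  have h4 : 1 ≤ ((x : ZMod p).val + p) ^ (2 * g) := Nat.one_le_pow _ _ (by omega)
  rw [← ZMod.natCast_eq_zero_iff, Nat.cast_sub h4, Nat.cast_pow, hcast, Nat.cast_one,
    sub_eq_zero] at h3
  apply hx
  apply Units.ext
  rw [Units.val_pow_eq_pow_val, h3, Units.val_one]

/-- the prime `2` -/
theorem two_case {g m : ℕ} (hg : 1 ≤ g) (hU : ∀ a : ℕ, 2 ≤ a →
      (m : ℤ) ∣ ((a : ℤ) ^ (2 * g)) ^ (2 * g + 1) * ((a : ℤ) ^ (2 * g) - 1))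
    {k : ℕ} (hk : 2 ^ k ∣ m) : 2 ^ k ∣ 2 * 2 ^ (1 + padicValNat 2 (2 * g)) := by
  have h1 := upper_nat hU Nat.prime_two hk (a := 3) (by norm_num) (by norm_num)
  have h2 := padicValNat.pow_two_sub_pow (x := 3) (y := 1) (by norm_num) (by norm_num)
    (by norm_num) (n := 2 * g) (by omega) (by simp)
  rw [one_pow] at h2
  have h5 : padicValNat 2 (3 + 1) = 2 := by
    have : (3 + 1 : ℕ) = 2 ^ 2 := by norm_num
    rw [this, padicValNat.prime_pow]
  have h6 : padicValNat 2 (3 - 1) = 1 := by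
    have : (3 - 1 : ℕ) = 2 := by norm_num
    rw [this, padicValNat.self (by norm_num)]
  rw [h5, h6] at h2
  have hne : 3 ^ (2 * g) - 1 ≠ 0 := by
    have : 1 < 3 ^ (2 * g) := Nat.one_lt_pow (by omega) (by omega)
    omega
  have h3 := (padicValNat_dvd_iff_le hne).mp h1
  rw [← pow_succ']
  apply pow_dvd_pow
  omega

/-- the upper bound for the generator -/
theorem dvd_T {g m : ℕ} (hg : 1 ≤ g) (hU : ∀ a : ℕ, 2 ≤ a →
      (m : ℤ) ∣ ((a : ℤ) ^ (2 * g)) ^ (2 * g + 1) * ((a : ℤ) ^ (2 * g) - 1)) :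
    m ∣ 2 * ∏ p ∈ (Finset.range (2 * g + 2)).filter (fun p => p.Prime ∧ (p - 1) ∣ 2 * g),
      p ^ (1 + padicValNat p (2 * g)) := by
  rw [Nat.dvd_iff_prime_pow_dvd_dvd]
  intro p k hp hk
  by_cases hdvd : (p - 1) ∣ 2 * g
  · have hmem : p ∈ (Finset.range (2 * g + 2)).filter (fun p => p.Prime ∧ (p - 1) ∣ 2 * g) := by
      rw [Finset.mem_filter, Finset.mem_range]
      refine ⟨?_, hp, hdvd⟩
      have := Nat.le_of_dvd (by omega) hdvd
      omega
    have h3 := Finset.dvd_prod_of_mem (fun p => p ^ (1 + padicValNat p (2 * g))) hmem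
    by_cases hp2 : p = 2
    · subst hp2
      exact (two_case hg hU hk).trans (Nat.mul_dvd_mul_left 2 h3)
    · exact ((odd_case hg hU hp hp2 hk).trans h3).trans (Dvd.intro_left 2 rfl)
  · rw [odd_case' hU hp hdvd hk, pow_zero]
    exact one_dvd _

/-- the lower bound for the generator -/
theorem order_dvd {g m : ℕ} (hg : 1 ≤ g)
    (hL : ∀ p : ℕ, p.Prime → p ≠ 2 → (p - 1) ∣ 2 * g → p ^ (1 + padicValNat p (2 * g)) ∣ m)
    (h2 : 2 ^ ((if g = 1 then 2 else 3) + padicValNat 2 g) ∣ m) : theOrder g ∣ m := by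
  have hv : padicValNat 2 (2 * g) = 1 + padicValNat 2 g := by
    have hF : Fact (Nat.Prime 2) := ⟨Nat.prime_two⟩
    rw [padicValNat.mul (by norm_num) (by omega), padicValNat.self (by norm_num)]
  set s := (Finset.range (2 * g + 2)).filter (fun p => p.Prime ∧ (p - 1) ∣ 2 * g) with hs
  have h2s : 2 ∈ s := by
    rw [hs, Finset.mem_filter, Finset.mem_range]
    refine ⟨by omega, Nat.prime_two, ?_⟩
    simp
  have hsplit : theOrder g = 2 ^ ((if g = 1 then 2 else 3) + padicValNat 2 g) *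
      ∏ p ∈ s.erase 2, p ^ (1 + padicValNat p (2 * g)) := by
    unfold theOrder
    rw [← hs, ← Finset.mul_prod_erase s _ h2s, ← mul_assoc, hv]
    congr 1
    split_ifs
    · rw [one_mul]
      congr 1
      omega
    · rw [← pow_succ']
      congr 1
      omega
  rw [hsplit]
  apply Nat.Coprime.mul_dvd_of_dvd_of_dvd
  · apply Nat.Coprime.pow_left
    rw [Nat.coprime_prod_right_iff]
    intro p hp
    rw [Finset.mem_erase, hs, Finset.mem_filter] at hp
    apply Nat.Coprime.pow_right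
    exact (Nat.coprime_primes Nat.prime_two hp.2.2.1).mpr (fun h => hp.1 h.symm)
  · exact h2
  · apply Finset.prod_dvd_of_isRelPrime
    · intro p hp q hq hpq
      have hp' := Finset.mem_coe.mp hp
      have hq' := Finset.mem_coe.mp hq
      rw [Finset.mem_erase, hs, Finset.mem_filter] at hp' hq'
      exact Nat.coprime_iff_isRelPrime.mp
        (Nat.Coprime.pow _ _ ((Nat.coprime_primes hp'.2.2.1 hq'.2.2.1).mpr hpq))
    · intro p hp
      rw [Finset.mem_erase, hs, Finset.mem_filter] at hp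
      exact hL p hp.2.2.1 hp.1 hp.2.2.2

end NT

theorem nt_main (g : ℕ) (hg : 1 ≤ g) (S : AddSubgroup ℤ)
    (hU : ∀ a : ℕ, 2 ≤ a → ((a : ℤ) ^ (2 * g)) ^ (2 * g + 1) * ((a : ℤ) ^ (2 * g) - 1) ∈ S)
    (hL : ∀ p : ℕ, p.Prime → p ≠ 2 → (p - 1) ∣ 2 * g → ∀ d ∈ S,
      ((p ^ (1 + padicValNat p (2 * g)) : ℕ) : ℤ) ∣ d)
    (h2 : ∀ d ∈ S, ((2 ^ ((if g = 1 then 2 else 3) + padicValNat 2 g) : ℕ) : ℤ) ∣ d)
    (h1 : g = 1 → (24 : ℤ) ∈ S → (12 : ℤ) ∈ S) (d : ℤ) : d ∈ S ↔ (theOrder g : ℤ) ∣ d := by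
  obtain ⟨a, ha⟩ := Int.subgroup_cyclic S
  have hmem : ∀ d : ℤ, d ∈ S ↔ ((a.natAbs : ℕ) : ℤ) ∣ d := by
    intro d
    rw [ha, ← AddSubgroup.zmultiples_eq_closure, Int.mem_zmultiples_iff, Int.natAbs_dvd]
  set m := a.natAbs with hm
  have hmS : (m : ℤ) ∈ S := (hmem _).mpr (dvd_refl _)
  have hT := NT.dvd_T hg (m := m) (fun a ha => (hmem _).mp (hU a ha))
  have hO : theOrder g ∣ m := NT.order_dvd hg
    (fun p hp hp2 hd => by exact_mod_cast hL p hp hp2 hd _ hmS)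
    (by exact_mod_cast h2 _ hmS)
  have hO' : m ∣ theOrder g := by
    by_cases hg1 : g = 1
    · subst hg1
      have hprod : ∏ p ∈ (Finset.range (2 * 1 + 2)).filter
          (fun p => p.Prime ∧ (p - 1) ∣ 2 * 1), p ^ (1 + padicValNat p (2 * 1)) = 12 := by
        have hset : (Finset.range (2 * 1 + 2)).filter
            (fun p => p.Prime ∧ (p - 1) ∣ 2 * 1) = {2, 3} := by
          decide
        rw [hset, Finset.prod_pair (by norm_num)]
        have v2 : padicValNat 2 (2 * 1) = 1 := by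
          rw [mul_one, padicValNat.self (by norm_num)]
        have v3 : padicValNat 3 (2 * 1) = 0 :=
          padicValNat.eq_zero_of_not_dvd (by norm_num)
        rw [v2, v3]
        norm_num
      rw [hprod] at hT
      have h24 : (24 : ℤ) ∈ S := by
        rw [hmem]
        exact_mod_cast hT
      have h12 := (hmem _).mp (h1 rfl h24)
      have hord : theOrder 1 = 12 := by
        unfold theOrder
        rw [hprod]
        simp
      rw [hord]
      exact_mod_cast h12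
    · have hord : theOrder g = 2 * ∏ p ∈ (Finset.range (2 * g + 2)).filter
          (fun p => p.Prime ∧ (p - 1) ∣ 2 * g), p ^ (1 + padicValNat p (2 * g)) := by
        unfold theOrder
        rw [if_neg hg1]
      rw [hord]
      exact hT
  rw [hmem, Nat.dvd_antisymm hO' hO]

end Pool.Agent.H121
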