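import Pool.Agent.helper121_TH.Basics

/-!
# Module OddElt (section 9 of the paper): elements of odd prime power order

Block monomial matrices `Wr`, the rotation `Sm` of order `2 h + 1` of `ℤ^{2h}` preserving the
standard symplectic form, its real invariant planes `(cv, sv)`, and the element `J`.
-/

namespace Pool.Agent.H121

namespace OddElt

open Matrix

section Wr
variable {R : Type*} [CommRing R]
variable {κ I : Type*} [Fintype κ] [DecidableEq κ] [Fintype I] [DecidableEq I]

/-- Block monomial matrix of a permutation `π` with blocks `d`. -/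
def Wr (π : Equiv.Perm κ) (d : κ → Matrix I I R) : Matrix (κ × I) (κ × I) R :=
  Matrix.of fun x y => if x.1 = π y.1 then d y.1 x.2 y.2 else 0

theorem Wr_mul (π π' : Equiv.Perm κ) (d d' : κ → Matrix I I R) :
    Wr π d * Wr π' d' = Wr (π * π') (fun c => d (π' c) * d' c) := by
  ext x y
  simp only [Wr, Matrix.mul_apply, Matrix.of_apply, Fintype.sum_prod_type, Equiv.Perm.mul_apply]
  rw [Finset.sum_eq_single (π' y.1)]
  · by_cases hx : x.1 = π (π' y.1)
    · simp [hx]
    · simp [hx]
  · intro c _ hc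
    simp [hc]
  · simp

theorem Wr_transpose (π : Equiv.Perm κ) (d : κ → Matrix I I R) :
    (Wr π d)ᵀ = Wr π⁻¹ (fun c => (d (π⁻¹ c))ᵀ) := by
  ext x y
  simp only [Wr, Matrix.transpose_apply, Matrix.of_apply]
  by_cases hx : y.1 = π x.1
  · have hx' : x.1 = π⁻¹ y.1 := by rw [hx]; simp
    rw [if_pos hx, if_pos hx', ← hx']
  · have hx' : ¬ x.1 = π⁻¹ y.1 := by
      intro h
      apply hx
      rw [h]; simp
    rw [if_neg hx, if_neg hx']

theorem Wr_one : Wr (1 : Equiv.Perm κ) (fun _ => (1 : Matrix I I R)) = 1 := by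
  ext x y
  simp only [Wr, Matrix.of_apply, Matrix.one_apply, Equiv.Perm.one_apply]
  by_cases h1 : x.1 = y.1
  · by_cases h2 : x.2 = y.2
    · have : x = y := Prod.ext h1 h2
      simp [h1, h2, this]
    · have : x ≠ y := fun h => h2 (by rw [h])
      simp [h1, h2, this]
  · have : x ≠ y := fun h => h1 (by rw [h])
    simp [h1, this]

theorem Wr_pow (π : Equiv.Perm κ) (M : Matrix I I R) (n : κ → ℕ) (k : ℕ) :
    Wr π (fun c => M ^ n c) ^ k =
      Wr (π ^ k) (fun c => M ^ (∑ j ∈ Finset.range k, n ((π ^ j) c))) := by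
  induction k with
  | zero =>
    simp only [pow_zero, Finset.range_zero, Finset.sum_empty]
    exact Wr_one.symm
  | succ k ih =>
    rw [pow_succ', ih, Wr_mul, pow_succ' π k]
    congr 1
    ext1 c
    rw [← pow_add, Finset.sum_range_succ, add_comm]

/-- The vector `u` placed in block `c`. -/
def dl (c : κ) (u : I → R) : κ × I → R := fun x => if x.1 = c then u x.2 else 0

theorem Wr_one_mulVec (d : κ → Matrix I I R) (c : κ) (u : I → R) :
    (Wr 1 d).mulVec (dl c u) = dl c ((d c).mulVec u) := by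
  ext x
  simp only [Wr, Matrix.mulVec, dotProduct, Matrix.of_apply, dl, Fintype.sum_prod_type,
    Equiv.Perm.one_apply]
  rw [Finset.sum_eq_single c]
  · by_cases hx : x.1 = c
    · simp [hx]
    · simp [hx]
  · intro c' _ hc'
    simp [hc']
  · simp

theorem Wr_map {R' : Type*} [CommRing R'] (φ : R →+* R') (π : Equiv.Perm κ)
    (d : κ → Matrix I I R) : (Wr π d).map φ = Wr π (fun c => (d c).map φ) := by
  ext x y
  simp only [Wr, Matrix.map_apply, Matrix.of_apply]
  split_ifs <;> simp

end Wr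

section Sm
variable (R : Type*) [CommRing R]

def Bm (h : ℕ) : Matrix (Fin h) (Fin h) R :=
  Matrix.of fun j i => (if j.val = i.val + 1 then 1 else 0) - (if j.val = i.val then 1 else 0)

def Cm (h : ℕ) : Matrix (Fin h) (Fin h) R :=
  Matrix.of fun j i => if j.val ≤ i.val then 1 else 0

def Dm (h : ℕ) : Matrix (Fin h) (Fin h) R :=
  Matrix.of fun _ i => if i.val + 1 = h then -1 else 0

/-- The matrix of the rotation of order `2 h + 1`. -/
def Sm (h : ℕ) : Matrix (Fin h ⊕ Fin h) (Fin h ⊕ Fin h) R :=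
  Matrix.fromBlocks 0 (Bm R h) (Cm R h) (Dm R h)

theorem sum_val_eq {h : ℕ} (a : ℕ) (F : ℕ → R) :
    (∑ i : Fin h, (if i.val = a then F i.val else 0)) = if a < h then F a else 0 := by
  by_cases ha : a < h
  · rw [if_pos ha, Finset.sum_eq_single ⟨a, ha⟩]
    · simp
    · intro b _ hb
      rw [if_neg]
      intro hh
      exact hb (Fin.ext hh)
    · simp
  · rw [if_neg ha]
    apply Finset.sum_eq_zero
    intro i _
    rw [if_neg]
    intro hh
    exact ha (hh ▸ i.isLt)

theorem BC (h : ℕ) : Bm R h * (Cm R h)ᵀ = -1 := by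
  ext j k
  have e1 : (Bm R h * (Cm R h)ᵀ) j k =
      ∑ i : Fin h, ((if i.val + 1 = j.val then (if k.val ≤ i.val then (1 : R) else 0) else 0)
        - (if i.val = j.val then (if k.val ≤ i.val then (1 : R) else 0) else 0)) := by
    rw [Matrix.mul_apply]
    apply Finset.sum_congr rfl
    intro i _
    simp only [Bm, Cm, Matrix.of_apply, Matrix.transpose_apply, eq_comm (a := j.val)]
    split_ifs <;> simp
  rw [e1, Finset.sum_sub_distrib]
  rw [sum_val_eq R j.val (fun i => if k.val ≤ i then (1 : R) else 0), if_pos j.isLt]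
  have e2 : (∑ i : Fin h, (if i.val + 1 = j.val then (if k.val ≤ i.val then (1 : R) else 0) else 0))
      = if k.val < j.val then 1 else 0 := by
    rcases Nat.eq_zero_or_pos j.val with hj | hj
    · rw [hj]
      simp
    · have e3 : ∀ i : Fin h, (if i.val + 1 = j.val then (if k.val ≤ i.val then (1 : R) else 0) else 0)
          = (if i.val = j.val - 1 then (if k.val ≤ i.val then (1 : R) else 0) else 0) := by
        intro i
        have : (i.val + 1 = j.val) ↔ (i.val = j.val - 1) := by omega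
        simp only [this]
      rw [Finset.sum_congr rfl (fun i _ => e3 i),
        sum_val_eq R (j.val - 1) (fun i => if k.val ≤ i then (1 : R) else 0),
        if_pos (by have := j.isLt; omega)]
      have : (k.val ≤ j.val - 1) ↔ (k.val < j.val) := by omega
      simp only [this]
  rw [e2, Matrix.neg_apply, Matrix.one_apply]
  by_cases h1 : j = k
  · subst h1
    simp
  · have h2 : j.val ≠ k.val := fun hh => h1 (Fin.ext hh)
    rw [if_neg h1]
    have : (k.val < j.val) ↔ (k.val ≤ j.val) := by omega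
    simp only [this]
    simp

theorem CB (h : ℕ) : Cm R h * (Bm R h)ᵀ = -1 := by
  have := congrArg Matrix.transpose (BC R h)
  rw [Matrix.transpose_mul, Matrix.transpose_transpose] at this
  rw [this]
  simp

theorem DC (h : ℕ) : Dm R h * (Cm R h)ᵀ = Cm R h * (Dm R h)ᵀ := by
  ext j k
  rw [Matrix.mul_apply, Matrix.mul_apply]
  apply Finset.sum_congr rfl
  intro i _
  simp only [Dm, Cm, Matrix.of_apply, Matrix.transpose_apply]
  by_cases hi : i.val + 1 = h
  · have hj := j.isLt
    have hk := k.isLt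
    have h1 : j.val ≤ i.val := by omega
    have h2 : k.val ≤ i.val := by omega
    have h1' : j ≤ i := h1
    have h2' : k ≤ i := h2
    simp [hi, h1', h2']
  · simp [hi]

theorem Sm_symp (h : ℕ) : Sm R h * Matrix.J (Fin h) R * (Sm R h)ᵀ = Matrix.J (Fin h) R := by
  unfold Sm Matrix.J
  rw [Matrix.fromBlocks_transpose, Matrix.fromBlocks_multiply, Matrix.fromBlocks_multiply]
  simp only [Matrix.zero_mul, Matrix.mul_one, Matrix.mul_zero, Matrix.transpose_zero, zero_add,
    add_zero, Matrix.mul_neg, Matrix.neg_mul, neg_zero]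
  rw [BC, CB, DC]
  simp

/-! ### The orbit of the first basis vector -/

def Pv (h i : ℕ) : Fin h ⊕ Fin h → R :=
  Sum.elim (fun j => (if j.val = i then 1 else 0) - (if j.val + 1 = i then 1 else 0)) (fun _ => 0)

def Qv (h i : ℕ) : Fin h ⊕ Fin h → R :=
  Sum.elim (fun _ => 0) (fun j => if j.val = i then 1 else 0)

def Lv (h : ℕ) : Fin h ⊕ Fin h → R :=
  Sum.elim (fun j => if j.val + 1 = h then -1 else 0) (fun _ => -1)

theorem Sm_mulVec (h : ℕ) (x y : Fin h → R) :
    (Sm R h).mulVec (Sum.elim x y) =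
      Sum.elim ((Bm R h).mulVec y) ((Cm R h).mulVec x + (Dm R h).mulVec y) := by
  unfold Sm
  rw [Matrix.fromBlocks_mulVec]
  simp

theorem S_Pv (h i : ℕ) (hi : i < h) : (Sm R h).mulVec (Pv R h i) = Qv R h i := by
  unfold Pv Qv
  rw [Sm_mulVec]
  have e0 : (Bm R h).mulVec (fun _ => 0) = fun _ => 0 := Matrix.mulVec_zero _
  have e0' : (Dm R h).mulVec (fun _ => 0) = fun _ => 0 := Matrix.mulVec_zero _
  rw [e0, e0']
  congr 1
  ext j
  simp only [Pi.add_apply, add_zero]
  have e1 : (Cm R h).mulVec (fun j => (if j.val = i then (1 : R) else 0) - (if j.val + 1 = i then 1 else 0)) j =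
      ∑ k : Fin h, ((if k.val = i then (if j.val ≤ k.val then (1 : R) else 0) else 0)
        - (if k.val + 1 = i then (if j.val ≤ k.val then (1 : R) else 0) else 0)) := by
    simp only [Matrix.mulVec, dotProduct]
    apply Finset.sum_congr rfl
    intro k _
    simp only [Cm, Matrix.of_apply]
    split_ifs <;> simp
  rw [e1, Finset.sum_sub_distrib]
  rw [sum_val_eq R i (fun k => if j.val ≤ k then (1 : R) else 0), if_pos hi]
  have e2 : (∑ k : Fin h, (if k.val + 1 = i then (if j.val ≤ k.val then (1 : R) else 0) else 0))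
      = if j.val < i then 1 else 0 := by
    rcases Nat.eq_zero_or_pos i with hj | hj
    · rw [hj]
      simp
    · have e3 : ∀ k : Fin h, (if k.val + 1 = i then (if j.val ≤ k.val then (1 : R) else 0) else 0)
          = (if k.val = i - 1 then (if j.val ≤ k.val then (1 : R) else 0) else 0) := by
        intro k
        have : (k.val + 1 = i) ↔ (k.val = i - 1) := by omega
        simp only [this]
      rw [Finset.sum_congr rfl (fun k _ => e3 k),
        sum_val_eq R (i - 1) (fun k => if j.val ≤ k then (1 : R) else 0),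
        if_pos (by omega)]
      have : (j.val ≤ i - 1) ↔ (j.val < i) := by omega
      simp only [this]
  rw [e2]
  by_cases h1 : j.val = i
  · subst h1
    simp
  · rw [if_neg h1]
    have : (j.val < i) ↔ (j.val ≤ i) := by omega
    simp only [this]
    simp

theorem B_Q (h i : ℕ) (hi : i < h) (j : Fin h) :
    (Bm R h).mulVec (fun j => if j.val = i then (1 : R) else 0) j =
      (if j.val = i + 1 then 1 else 0) - (if j.val = i then 1 else 0) := by
  have e1 : (Bm R h).mulVec (fun j => if j.val = i then (1 : R) else 0) j =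
      ∑ k : Fin h, (if k.val = i then ((if j.val = k.val + 1 then (1 : R) else 0) - (if j.val = k.val then 1 else 0)) else 0) := by
    simp only [Matrix.mulVec, dotProduct]
    apply Finset.sum_congr rfl
    intro k _
    simp only [Bm, Matrix.of_apply]
    by_cases hk : k.val = i
    · simp [hk]
    · simp [hk]
  rw [e1, sum_val_eq R i (fun k => (if j.val = k + 1 then (1 : R) else 0) - (if j.val = k then 1 else 0)),
    if_pos hi]

theorem D_Q (h i : ℕ) (hi : i < h) (j : Fin h) :
    (Dm R h).mulVec (fun j => if j.val = i then (1 : R) else 0) j =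
      if i + 1 = h then -1 else 0 := by
  have e1 : (Dm R h).mulVec (fun j => if j.val = i then (1 : R) else 0) j =
      ∑ k : Fin h, (if k.val = i then (if k.val + 1 = h then (-1 : R) else 0) else 0) := by
    simp only [Matrix.mulVec, dotProduct]
    apply Finset.sum_congr rfl
    intro k _
    simp only [Dm, Matrix.of_apply]
    by_cases hk : k.val = i
    · simp [hk]
    · simp [hk]
  rw [e1, sum_val_eq R i (fun k => (if k + 1 = h then (-1 : R) else 0)),
    if_pos hi]

theorem S_Qv (h i : ℕ) (hi : i + 1 < h) : (Sm R h).mulVec (Qv R h i) = Pv R h (i + 1) := by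
  unfold Pv Qv
  rw [Sm_mulVec]
  have e0 : (Cm R h).mulVec (fun _ => 0) = fun _ => 0 := Matrix.mulVec_zero _
  rw [e0]
  congr 1
  · ext j
    rw [B_Q R h i (by omega) j]
    simp
  · ext j
    simp only [Pi.add_apply, zero_add]
    rw [D_Q R h i (by omega) j, if_neg (by omega)]

theorem S_Qv_last (h : ℕ) (hh : 1 ≤ h) : (Sm R h).mulVec (Qv R h (h - 1)) = Lv R h := by
  unfold Lv Qv
  rw [Sm_mulVec]
  have e0 : (Cm R h).mulVec (fun _ => 0) = fun _ => 0 := Matrix.mulVec_zero _
  rw [e0]
  congr 1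
  · ext j
    rw [B_Q R h (h - 1) (by omega) j]
    have hj := j.isLt
    rw [if_neg (by omega)]
    have : (j.val = h - 1) ↔ (j.val + 1 = h) := by omega
    simp only [this]
    split_ifs <;> simp
  · ext j
    simp only [Pi.add_apply, zero_add]
    rw [D_Q R h (h - 1) (by omega) j, if_pos (by omega)]

theorem S_Lv (h : ℕ) (hh : 1 ≤ h) : (Sm R h).mulVec (Lv R h) = Pv R h 0 := by
  unfold Lv Pv
  rw [Sm_mulVec]
  congr 1
  · ext j
    have e1 : (Bm R h).mulVec (fun _ => -1) j =
        ∑ k : Fin h, ((if k.val = j.val then (1 : R) else 0) - (if k.val + 1 = j.val then 1 else 0)) := by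
      simp only [Matrix.mulVec, dotProduct]
      apply Finset.sum_congr rfl
      intro k _
      simp only [Bm, Matrix.of_apply, eq_comm (a := j.val)]
      ring
    rw [e1, Finset.sum_sub_distrib, sum_val_eq R j.val (fun _ => (1 : R)), if_pos j.isLt]
    rcases Nat.eq_zero_or_pos j.val with hj | hj
    · simp [hj]
    · have e3 : ∀ k : Fin h, (if k.val + 1 = j.val then (1 : R) else 0)
          = (if k.val = j.val - 1 then (1 : R) else 0) := by
        intro k
        have : (k.val + 1 = j.val) ↔ (k.val = j.val - 1) := by omega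
        simp only [this]
      rw [Finset.sum_congr rfl (fun k _ => e3 k), sum_val_eq R (j.val - 1) (fun _ => (1 : R)),
        if_pos (by have := j.isLt; omega), if_neg (by omega)]
      simp
  · ext j
    simp only [Pi.add_apply]
    have e1 : (Cm R h).mulVec (fun j => if j.val + 1 = h then (-1 : R) else 0) j =
        ∑ k : Fin h, (if k.val = h - 1 then (if j.val ≤ k.val then (-1 : R) else 0) else 0) := by
      simp only [Matrix.mulVec, dotProduct]
      apply Finset.sum_congr rfl
      intro k _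
      have hk := k.isLt
      have : (k.val + 1 = h) ↔ (k.val = h - 1) := by omega
      simp only [Cm, Matrix.of_apply, this]
      split_ifs <;> simp
    have e2 : (Dm R h).mulVec (fun _ => -1) j =
        ∑ k : Fin h, (if k.val = h - 1 then (1 : R) else 0) := by
      simp only [Matrix.mulVec, dotProduct]
      apply Finset.sum_congr rfl
      intro k _
      have hk := k.isLt
      have : (k.val + 1 = h) ↔ (k.val = h - 1) := by omega
      simp only [Dm, Matrix.of_apply, this]
      split_ifs <;> simp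
    rw [e1, e2, sum_val_eq R (h - 1) (fun k => if j.val ≤ k then (-1 : R) else 0),
      sum_val_eq R (h - 1) (fun _ => (1 : R)), if_pos (by omega), if_pos (by omega),
      if_pos (by have := j.isLt; omega)]
    simp

/-- The orbit vector. -/
def wv (h k : ℕ) : Fin h ⊕ Fin h → R := ((Sm R h) ^ k).mulVec (Pv R h 0)

theorem wv_zero (h : ℕ) : wv R h 0 = Pv R h 0 := by
  simp [wv]

theorem S_wv (h k : ℕ) : (Sm R h).mulVec (wv R h k) = wv R h (k + 1) := by
  unfold wv
  rw [Matrix.mulVec_mulVec, pow_succ']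

theorem wv_even_odd (h i : ℕ) (hi : i < h) :
    wv R h (2 * i) = Pv R h i ∧ wv R h (2 * i + 1) = Qv R h i := by
  induction i with
  | zero =>
    refine ⟨wv_zero R h, ?_⟩
    rw [← S_wv, Nat.mul_zero, wv_zero, S_Pv R h 0 hi]
  | succ i ih =>
    have h1 : wv R h (2 * (i + 1)) = Pv R h (i + 1) := by
      have : 2 * (i + 1) = (2 * i + 1) + 1 := by ring
      rw [this, ← S_wv, (ih (by omega)).2, S_Qv R h i hi]
    refine ⟨h1, ?_⟩
    rw [← S_wv, h1, S_Pv R h (i + 1) hi]

theorem wv_last (h : ℕ) (hh : 1 ≤ h) : wv R h (2 * h) = Lv R h := by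
  have : 2 * h = (2 * (h - 1) + 1) + 1 := by omega
  rw [this, ← S_wv, (wv_even_odd R h (h - 1) (by omega)).2, S_Qv_last R h hh]

theorem wv_period (h : ℕ) (hh : 1 ≤ h) : wv R h (2 * h + 1) = wv R h 0 := by
  rw [← S_wv, wv_last R h hh, S_Lv R h hh, wv_zero]

theorem wv_span (h : ℕ) (W : Submodule R (Fin h ⊕ Fin h → R)) (hW : ∀ k, k < 2 * h + 1 → wv R h k ∈ W) :
    W = ⊤ := by
  have h1 : ∀ i : ℕ, ∀ hi : i < h, (Pi.single (Sum.inl ⟨i, hi⟩) 1 : Fin h ⊕ Fin h → R) ∈ W := by
    intro i
    induction i with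
    | zero =>
      intro hi
      have := hW 0 (by omega)
      rw [wv_zero] at this
      convert this using 1
      ext j
      rcases j with j | j
      · simp only [Pv, Sum.elim_inl, Pi.single_apply, Sum.inl.injEq, Fin.ext_iff]
        simp
      · simp [Pv, Pi.single_apply]
    | succ i ih =>
      intro hi
      have h2 := ih (by omega)
      have h3 := hW (2 * (i + 1)) (by omega)
      rw [(wv_even_odd R h (i + 1) hi).1] at h3
      have h4 := W.add_mem h2 h3
      convert h4 using 1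
      ext j
      rcases j with j | j
      · simp only [Pv, Sum.elim_inl, Pi.single_apply, Sum.inl.injEq, Fin.ext_iff, Pi.add_apply]
        simp only [add_left_inj]
        split_ifs <;> simp
      · simp [Pv, Pi.single_apply]
  have h2 : ∀ i : Fin h, (Pi.single (Sum.inr i) 1 : Fin h ⊕ Fin h → R) ∈ W := by
    intro i
    have h3 := hW (2 * i.val + 1) (by have := i.isLt; omega)
    rw [(wv_even_odd R h i.val i.isLt).2] at h3
    convert h3 using 1
    ext j
    rcases j with j | j
    · simp [Qv, Pi.single_apply]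
    · simp only [Qv, Sum.elim_inr, Pi.single_apply, Sum.inr.injEq, Fin.ext_iff]
  rw [eq_top_iff]
  intro x _
  rw [pi_eq_sum_univ' x]
  apply Submodule.sum_mem
  intro i _
  apply Submodule.smul_mem
  rcases i with i | i
  · have := h1 i.val i.isLt
    convert this using 1
  · have := h2 i
    convert this using 1

theorem Sm_pow (h : ℕ) (hh : 1 ≤ h) : (Sm R h) ^ (2 * h + 1) = 1 := by
  have h0 : ∀ k, ((Sm R h) ^ (2 * h + 1)).mulVec (wv R h k) = wv R h k := by
    intro k
    have h1 : wv R h k = ((Sm R h) ^ k).mulVec (wv R h 0) := by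
      simp [wv]
    have h2 : ((Sm R h) ^ (2 * h + 1)).mulVec (wv R h 0) = wv R h 0 := by
      have := wv_period R h hh
      conv_rhs => rw [← this]
      simp [wv]
    rw [h1, Matrix.mulVec_mulVec, ← pow_add, add_comm, pow_add, ← Matrix.mulVec_mulVec, h2]
  have h1 := wv_span R h (LinearMap.ker (Matrix.mulVecLin ((Sm R h) ^ (2 * h + 1) - 1))) (by
    intro k _
    rw [LinearMap.mem_ker, Matrix.mulVecLin_apply, Matrix.sub_mulVec, h0, Matrix.one_mulVec,
      sub_self])
  rw [LinearMap.ker_eq_top] at h1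
  have h2 : (Sm R h) ^ (2 * h + 1) - 1 = 0 := by
    have h3 := congrArg LinearMap.toMatrix' h1
    rwa [← Matrix.toLin'_apply', LinearMap.toMatrix'_toLin', map_zero] at h3
  exact sub_eq_zero.mp h2

theorem wv_sum (h : ℕ) (hh : 1 ≤ h) : ∑ k ∈ Finset.range (2 * h + 1), wv R h k = 0 := by
  have key : ∀ n, n ≤ h → ∑ k ∈ Finset.range (2 * n), wv R h k =
      ∑ i ∈ Finset.range n, (Pv R h i + Qv R h i) := by
    intro n
    induction n with
    | zero => intro _; simp
    | succ n ih =>
      intro hn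
      have : 2 * (n + 1) = 2 * n + 1 + 1 := by ring
      rw [this, Finset.sum_range_succ, Finset.sum_range_succ, ih (by omega),
        (wv_even_odd R h n (by omega)).1, (wv_even_odd R h n (by omega)).2,
        Finset.sum_range_succ, add_assoc]
  rw [Finset.sum_range_succ, key h le_rfl, wv_last R h hh]
  ext j
  rw [Pi.add_apply, Finset.sum_apply]
  rcases j with j | j
  · simp only [Pv, Qv, Lv, Pi.add_apply, Sum.elim_inl, add_zero, Finset.sum_sub_distrib,
      Finset.sum_ite_eq, Finset.mem_range, Pi.zero_apply]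
    have hj := j.isLt
    rw [if_pos hj]
    by_cases h1 : j.val + 1 = h
    · rw [if_pos h1, if_neg (by omega)]; simp
    · rw [if_neg h1, if_pos (by omega)]; simp
  · simp only [Pv, Qv, Lv, Pi.add_apply, Sum.elim_inr, zero_add,
      Finset.sum_ite_eq, Finset.mem_range, Pi.zero_apply]
    rw [if_pos j.isLt]
    simp

end Sm

section Planes

theorem sum_shift {M : Type*} [AddCommGroup M] (G : ℕ → M) (p : ℕ) (hG : G p = G 0) :
    ∑ k ∈ Finset.range p, G (k + 1) = ∑ k ∈ Finset.range p, G k := by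
  have h1 := Finset.sum_range_succ' G p
  have h2 := Finset.sum_range_succ G p
  rw [h1, hG] at h2
  exact add_right_cancel h2

noncomputable def cv (h a : ℕ) : Fin h ⊕ Fin h → ℝ :=
  ∑ k ∈ Finset.range (2 * h + 1), Real.cos (2 * Real.pi * a / (2 * h + 1 : ℕ) * k) • wv ℝ h k

noncomputable def sv (h a : ℕ) : Fin h ⊕ Fin h → ℝ :=
  ∑ k ∈ Finset.range (2 * h + 1), Real.sin (2 * Real.pi * a / (2 * h + 1 : ℕ) * k) • wv ℝ h k

theorem S_cv (h a : ℕ) (hh : 1 ≤ h) : (Sm ℝ h).mulVec (cv h a) =
    Real.cos (2 * Real.pi * a / (2 * h + 1 : ℕ)) • cv h a +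
      Real.sin (2 * Real.pi * a / (2 * h + 1 : ℕ)) • sv h a := by
  set θ : ℝ := 2 * Real.pi * a / (2 * h + 1 : ℕ) with hθ
  have hp : θ * (2 * h + 1 : ℕ) = a * (2 * Real.pi) := by
    rw [hθ]
    have : ((2 * h + 1 : ℕ) : ℝ) ≠ 0 := by positivity
    field_simp
  have e1 : (Sm ℝ h).mulVec (cv h a) =
      ∑ k ∈ Finset.range (2 * h + 1), Real.cos (θ * k) • wv ℝ h (k + 1) := by
    unfold cv
    rw [Matrix.mulVec_sum]
    apply Finset.sum_congr rfl
    intro k _
    rw [Matrix.mulVec_smul, S_wv]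
  have e2 : ∀ k : ℕ, Real.cos (θ * k) = Real.cos θ * Real.cos (θ * (k + 1 : ℕ)) +
      Real.sin θ * Real.sin (θ * (k + 1 : ℕ)) := by
    intro k
    have : θ * k = θ * (k + 1 : ℕ) - θ := by push_cast; ring
    rw [this, Real.cos_sub]
    ring
  rw [e1]
  have e3 : ∑ k ∈ Finset.range (2 * h + 1), Real.cos (θ * k) • wv ℝ h (k + 1) =
      Real.cos θ • (∑ k ∈ Finset.range (2 * h + 1), Real.cos (θ * (k + 1 : ℕ)) • wv ℝ h (k + 1)) +
      Real.sin θ • (∑ k ∈ Finset.range (2 * h + 1), Real.sin (θ * (k + 1 : ℕ)) • wv ℝ h (k + 1)) := by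
    rw [Finset.smul_sum, Finset.smul_sum, ← Finset.sum_add_distrib]
    apply Finset.sum_congr rfl
    intro k _
    rw [e2 k, add_smul, mul_smul, mul_smul]
  rw [e3, sum_shift (fun k => Real.cos (θ * k) • wv ℝ h k), sum_shift (fun k => Real.sin (θ * k) • wv ℝ h k)]
  · rfl
  · rw [wv_period ℝ h hh, hp,
      show (a : ℝ) * (2 * Real.pi) = ((2 * a : ℕ) : ℝ) * Real.pi by push_cast; ring,
      Real.sin_nat_mul_pi]
    simp
  · rw [wv_period ℝ h hh, hp, Real.cos_nat_mul_two_pi]
    simp

theorem S_sv (h a : ℕ) (hh : 1 ≤ h) : (Sm ℝ h).mulVec (sv h a) =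
    -Real.sin (2 * Real.pi * a / (2 * h + 1 : ℕ)) • cv h a +
      Real.cos (2 * Real.pi * a / (2 * h + 1 : ℕ)) • sv h a := by
  set θ : ℝ := 2 * Real.pi * a / (2 * h + 1 : ℕ) with hθ
  have hp : θ * (2 * h + 1 : ℕ) = a * (2 * Real.pi) := by
    rw [hθ]
    have : ((2 * h + 1 : ℕ) : ℝ) ≠ 0 := by positivity
    field_simp
  have e1 : (Sm ℝ h).mulVec (sv h a) =
      ∑ k ∈ Finset.range (2 * h + 1), Real.sin (θ * k) • wv ℝ h (k + 1) := by
    unfold sv
    rw [Matrix.mulVec_sum]
    apply Finset.sum_congr rfl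
    intro k _
    rw [Matrix.mulVec_smul, S_wv]
  have e2 : ∀ k : ℕ, Real.sin (θ * k) = -Real.sin θ * Real.cos (θ * (k + 1 : ℕ)) +
      Real.cos θ * Real.sin (θ * (k + 1 : ℕ)) := by
    intro k
    have : θ * k = θ * (k + 1 : ℕ) - θ := by push_cast; ring
    rw [this, Real.sin_sub]
    ring
  rw [e1]
  have e3 : ∑ k ∈ Finset.range (2 * h + 1), Real.sin (θ * k) • wv ℝ h (k + 1) =
      -Real.sin θ • (∑ k ∈ Finset.range (2 * h + 1), Real.cos (θ * (k + 1 : ℕ)) • wv ℝ h (k + 1)) +
      Real.cos θ • (∑ k ∈ Finset.range (2 * h + 1), Real.sin (θ * (k + 1 : ℕ)) • wv ℝ h (k + 1)) := by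
    rw [Finset.smul_sum, Finset.smul_sum, ← Finset.sum_add_distrib]
    apply Finset.sum_congr rfl
    intro k _
    rw [e2 k, add_smul, mul_smul, mul_smul]
  rw [e3, sum_shift (fun k => Real.cos (θ * k) • wv ℝ h k), sum_shift (fun k => Real.sin (θ * k) • wv ℝ h k)]
  · rfl
  · rw [wv_period ℝ h hh, hp,
      show (a : ℝ) * (2 * Real.pi) = ((2 * a : ℕ) : ℝ) * Real.pi by push_cast; ring,
      Real.sin_nat_mul_pi]
    simp
  · rw [wv_period ℝ h hh, hp, Real.cos_nat_mul_two_pi]
    simp

theorem orth (p : ℕ) (hp : 1 ≤ p) (j k : ℕ) (hj : j < p) (hk : k < p) :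
    ∑ a ∈ Finset.range p, (Real.cos (2 * Real.pi * a / p * j) * Real.cos (2 * Real.pi * a / p * k) +
      Real.sin (2 * Real.pi * a / p * j) * Real.sin (2 * Real.pi * a / p * k)) =
    if j = k then (p : ℝ) else 0 := by
  have hp0 : (p : ℝ) ≠ 0 := by positivity
  have e1 : ∀ a : ℕ, Real.cos (2 * Real.pi * a / p * j) * Real.cos (2 * Real.pi * a / p * k) +
      Real.sin (2 * Real.pi * a / p * j) * Real.sin (2 * Real.pi * a / p * k) =
      Real.cos (a * (2 * Real.pi * ((j : ℝ) - k) / p)) := by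
    intro a
    rw [← Real.cos_sub]
    congr 1
    field_simp
  rw [Finset.sum_congr rfl (fun a _ => e1 a)]
  by_cases hjk : j = k
  · subst hjk
    simp
  · rw [if_neg hjk]
    set z : ℂ := Complex.exp (((2 * Real.pi * ((j : ℝ) - k) / p : ℝ) : ℂ) * Complex.I) with hz
    have hzp : z ^ p = 1 := by
      rw [hz, ← Complex.exp_nat_mul, Complex.exp_eq_one_iff]
      refine ⟨(j : ℤ) - k, ?_⟩
      push_cast
      have : (p : ℂ) ≠ 0 := by exact_mod_cast hp0
      field_simp
    have hz1 : z ≠ 1 := by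
      rw [hz, Ne, Complex.exp_eq_one_iff]
      rintro ⟨n, hn⟩
      have hI : Complex.I ≠ 0 := Complex.I_ne_zero
      have h1 : ((2 * Real.pi * ((j : ℝ) - k) / p : ℝ) : ℂ) = ((n * (2 * Real.pi) : ℝ) : ℂ) := by
        apply mul_right_cancel₀ hI
        rw [hn]
        push_cast
        ring
      have h2 : 2 * Real.pi * ((j : ℝ) - k) / p = n * (2 * Real.pi) := by exact_mod_cast h1
      have hpi : (2 * Real.pi) ≠ 0 := by positivity
      have h3 : ((j : ℝ) - k) = n * p := by
        field_simp at h2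
        have : Real.pi ≠ 0 := Real.pi_ne_zero
        nlinarith [h2]
      have h4 : (j : ℤ) - k = n * p := by exact_mod_cast h3
      have h5 : n = 0 := by
        by_contra hn0
        have : (1 : ℤ) ≤ |n| := Int.one_le_abs hn0
        have h6 : |(j : ℤ) - k| < p := by
          rw [abs_lt]; constructor <;> omega
        rw [h4, abs_mul, Nat.abs_cast] at h6
        nlinarith
      rw [h5] at h4
      omega
    have hsum : ∑ a ∈ Finset.range p, z ^ a = 0 := by
      have := geom_sum_mul z p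
      rw [hzp, sub_self] at this
      rcases mul_eq_zero.mp this with h | h
      · exact h
      · exact absurd (sub_eq_zero.mp h) hz1
    have hre := congrArg Complex.re hsum
    rw [Complex.re_sum] at hre
    simp only [Complex.zero_re] at hre
    rw [← hre]
    apply Finset.sum_congr rfl
    intro a _
    rw [hz, ← Complex.exp_nat_mul]
    have : (a : ℂ) * (((2 * Real.pi * ((j : ℝ) - k) / p : ℝ) : ℂ) * Complex.I) =
      (((a : ℝ) * (2 * Real.pi * ((j : ℝ) - k) / p) : ℝ) : ℂ) * Complex.I := by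
      push_cast
      ring
    rw [this, Complex.exp_ofReal_mul_I_re]

theorem fourier_inv (h j : ℕ) (hj : j < 2 * h + 1) :
    ((2 * h + 1 : ℕ) : ℝ) • wv ℝ h j = ∑ a ∈ Finset.range (2 * h + 1),
      (Real.cos (2 * Real.pi * a / (2 * h + 1 : ℕ) * j) • cv h a +
        Real.sin (2 * Real.pi * a / (2 * h + 1 : ℕ) * j) • sv h a) := by
  have e1 : ∀ a : ℕ, (Real.cos (2 * Real.pi * a / (2 * h + 1 : ℕ) * j) • cv h a +
        Real.sin (2 * Real.pi * a / (2 * h + 1 : ℕ) * j) • sv h a) =
      ∑ k ∈ Finset.range (2 * h + 1),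
        (Real.cos (2 * Real.pi * a / (2 * h + 1 : ℕ) * j) * Real.cos (2 * Real.pi * a / (2 * h + 1 : ℕ) * k) +
      Real.sin (2 * Real.pi * a / (2 * h + 1 : ℕ) * j) * Real.sin (2 * Real.pi * a / (2 * h + 1 : ℕ) * k)) •
        wv ℝ h k := by
    intro a
    unfold cv sv
    rw [Finset.smul_sum, Finset.smul_sum, ← Finset.sum_add_distrib]
    apply Finset.sum_congr rfl
    intro k _
    rw [smul_smul, smul_smul, ← add_smul]
  rw [Finset.sum_congr rfl (fun a _ => e1 a), Finset.sum_comm]
  have e2 : ∀ k ∈ Finset.range (2 * h + 1), ∑ a ∈ Finset.range (2 * h + 1),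
        (Real.cos (2 * Real.pi * a / (2 * h + 1 : ℕ) * j) * Real.cos (2 * Real.pi * a / (2 * h + 1 : ℕ) * k) +
      Real.sin (2 * Real.pi * a / (2 * h + 1 : ℕ) * j) * Real.sin (2 * Real.pi * a / (2 * h + 1 : ℕ) * k)) •
        wv ℝ h k = (if j = k then ((2 * h + 1 : ℕ) : ℝ) else 0) • wv ℝ h k := by
    intro k hk
    rw [← Finset.sum_smul, orth (2 * h + 1) (by omega) j k hj (Finset.mem_range.mp hk)]
  rw [Finset.sum_congr rfl e2, Finset.sum_eq_single j]
  · simp
  · intro k _ hk
    rw [if_neg (Ne.symm hk), zero_smul]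
  · intro hj'
    exact absurd (Finset.mem_range.mpr hj) hj'

theorem cv_zero (h : ℕ) (hh : 1 ≤ h) : cv h 0 = 0 := by
  unfold cv
  simp only [Nat.cast_zero, mul_zero, zero_div, zero_mul, Real.cos_zero, one_smul]
  exact wv_sum ℝ h hh

theorem sv_zero (h : ℕ) : sv h 0 = 0 := by
  unfold sv
  simp

theorem arg_flip (h a k : ℕ) (ha : a ≤ 2 * h + 1) :
    2 * Real.pi * (2 * h + 1 - a : ℕ) / (2 * h + 1 : ℕ) * k =
      k * (2 * Real.pi) - 2 * Real.pi * a / (2 * h + 1 : ℕ) * k := by
  have : ((2 * h + 1 : ℕ) : ℝ) ≠ 0 := by positivity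
  rw [Nat.cast_sub ha]
  field_simp

theorem cv_flip (h a : ℕ) (ha : a ≤ 2 * h + 1) : cv h (2 * h + 1 - a) = cv h a := by
  unfold cv
  apply Finset.sum_congr rfl
  intro k _
  rw [arg_flip h a k ha, Real.cos_nat_mul_two_pi_sub]

theorem sv_flip (h a : ℕ) (ha : a ≤ 2 * h + 1) : sv h (2 * h + 1 - a) = - sv h a := by
  unfold sv
  rw [← Finset.sum_neg_distrib]
  apply Finset.sum_congr rfl
  intro k _
  rw [arg_flip h a k ha, Real.sin_nat_mul_two_pi_sub, neg_smul]

theorem plane_span (h : ℕ) (hh : 1 ≤ h) (W : Submodule ℝ (Fin h ⊕ Fin h → ℝ))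
    (h1 : ∀ a, 1 ≤ a → a ≤ h → cv h a ∈ W) (h2 : ∀ a, 1 ≤ a → a ≤ h → sv h a ∈ W) : W = ⊤ := by
  have hc : ∀ a, a < 2 * h + 1 → cv h a ∈ W := by
    intro a ha
    rcases Nat.eq_zero_or_pos a with h0 | h0
    · rw [h0, cv_zero h hh]; exact W.zero_mem
    · by_cases hle : a ≤ h
      · exact h1 a h0 hle
      · rw [← cv_flip h a (by omega)]
        exact h1 _ (by omega) (by omega)
  have hs : ∀ a, a < 2 * h + 1 → sv h a ∈ W := by
    intro a ha
    rcases Nat.eq_zero_or_pos a with h0 | h0
    · rw [h0, sv_zero h]; exact W.zero_mem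
    · by_cases hle : a ≤ h
      · exact h2 a h0 hle
      · have : sv h a = - sv h (2 * h + 1 - a) := by
          rw [sv_flip h a (by omega), neg_neg]
        rw [this]
        exact W.neg_mem (h2 _ (by omega) (by omega))
  apply wv_span ℝ h W
  intro k hk
  have h3 : ((2 * h + 1 : ℕ) : ℝ) • wv ℝ h k ∈ W := by
    rw [fourier_inv h k hk]
    apply Submodule.sum_mem
    intro a ha
    rw [Finset.mem_range] at ha
    exact W.add_mem (W.smul_mem _ (hc a ha)) (W.smul_mem _ (hs a ha))
  have h4 : ((2 * h + 1 : ℕ) : ℝ) ≠ 0 := by positivity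
  exact (W.smul_mem_iff h4).mp h3

end Planes

theorem submatrix_pow {α β : Type*} [Fintype α] [DecidableEq α] [Fintype β] [DecidableEq β]
    (A : Matrix β β ℤ) (f : α ≃ β) (k : ℕ) :
    (A.submatrix f f) ^ k = (A ^ k).submatrix f f := by
  induction k with
  | zero => simp
  | succ k ih => rw [pow_succ, ih, Matrix.submatrix_mul_equiv, pow_succ]

theorem Sm_cast (h : ℕ) : (Sm ℤ h).map (Int.cast : ℤ → ℝ) = Sm ℝ h := by
  ext i j
  rcases i with i | i <;> rcases j with j | j
  · simp [Sm]
  · simp only [Sm, Matrix.map_apply, Matrix.fromBlocks_apply₁₂, Bm, Matrix.of_apply]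
    push_cast
    rfl
  · simp only [Sm, Matrix.map_apply, Matrix.fromBlocks_apply₂₁, Cm, Matrix.of_apply]
    push_cast
    rfl
  · simp only [Sm, Matrix.map_apply, Matrix.fromBlocks_apply₂₂, Dm, Matrix.of_apply]
    push_cast
    rfl

section
variable {κ : Type*} [Fintype κ] [DecidableEq κ]

/-- The index equivalence. -/
def idx {g h : ℕ} (e : Fin g ≃ κ × Fin h) : Fin g ⊕ Fin g ≃ κ × (Fin h ⊕ Fin h) :=
  (Equiv.sumCongr e e).trans (Equiv.prodSumDistrib κ (Fin h) (Fin h)).symm

theorem idx_inl {g h : ℕ} (e : Fin g ≃ κ × Fin h) (i : Fin g) :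
    idx e (Sum.inl i) = ((e i).1, Sum.inl (e i).2) := rfl

theorem idx_inr {g h : ℕ} (e : Fin g ≃ κ × Fin h) (i : Fin g) :
    idx e (Sum.inr i) = ((e i).1, Sum.inr (e i).2) := rfl

theorem J_eq {g h : ℕ} (e : Fin g ≃ κ × Fin h) :
    Matrix.J (Fin g) ℤ = (Wr (1 : Equiv.Perm κ) (fun _ => Matrix.J (Fin h) ℤ)).submatrix (idx e) (idx e) := by
  have key : ∀ i j : Fin g, ((e i).1 = (e j).1 ∧ (e i).2 = (e j).2) ↔ i = j := by
    intro i j
    rw [← Prod.ext_iff]
    exact e.injective.eq_iff
  ext i j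
  rcases i with i | i <;> rcases j with j | j
  · simp [Matrix.J, Wr, idx_inl, idx_inr]
  · simp only [Matrix.J, Wr, idx_inl, idx_inr, Matrix.submatrix_apply, Matrix.of_apply,
      Matrix.fromBlocks_apply₁₂, Matrix.neg_apply, Matrix.one_apply, Equiv.Perm.one_apply,
      ← key i j]
    by_cases h1 : (e i).1 = (e j).1
    · simp [h1]
    · simp [h1]
  · simp only [Matrix.J, Wr, idx_inl, idx_inr, Matrix.submatrix_apply, Matrix.of_apply,
      Matrix.fromBlocks_apply₂₁, Matrix.one_apply, Equiv.Perm.one_apply,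
      ← key i j]
    by_cases h1 : (e i).1 = (e j).1
    · simp [h1]
    · simp [h1]
  · simp [Matrix.J, Wr, idx_inr]

theorem Wr_symp {g h : ℕ} (e : Fin g ≃ κ × Fin h) (π : Equiv.Perm κ)
    (d : κ → Matrix (Fin h ⊕ Fin h) (Fin h ⊕ Fin h) ℤ)
    (hd : ∀ c, d c * Matrix.J (Fin h) ℤ * (d c)ᵀ = Matrix.J (Fin h) ℤ) :
    (Wr π d).submatrix (idx e) (idx e) ∈ Matrix.symplecticGroup (Fin g) ℤ := by
  rw [SymplecticGroup.mem_iff, J_eq e, Matrix.transpose_submatrix, Wr_transpose,
    Matrix.submatrix_mul_equiv, Matrix.submatrix_mul_equiv, Wr_mul, Wr_mul]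
  congr 1
  simp only [mul_one, mul_inv_cancel, Equiv.Perm.one_apply, hd]

end

end OddElt

open Matrix OddElt in
theorem exists_odd_elt (g p : ℕ) (hg : 1 ≤ g) (hp : p.Prime) (hp2 : p ≠ 2)
    (hdvd : (p - 1) ∣ 2 * g) :
    ∃ J : Matrix.symplecticGroup (Fin g) ℤ, J ^ (p ^ (1 + padicValNat p (2 * g))) = 1 ∧
      ∃ (a : Fin g → ℕ) (b : Module.Basis (Fin g × Fin 2) ℝ (Fin (2 * g) → ℝ)),
        (∀ j, 1 ≤ a j ∧ 2 * a j < p) ∧
        (∀ j, slVec (toSL g (J ^ (p ^ padicValNat p (2 * g)))) (b (j, 0)) =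
          Real.cos (2 * Real.pi * a j / p) • b (j, 0) +
            Real.sin (2 * Real.pi * a j / p) • b (j, 1)) ∧
        (∀ j, slVec (toSL g (J ^ (p ^ padicValNat p (2 * g)))) (b (j, 1)) =
          -Real.sin (2 * Real.pi * a j / p) • b (j, 0) +
            Real.cos (2 * Real.pi * a j / p) • b (j, 1)) := by
  -- numbers
  obtain ⟨h, hph⟩ : ∃ h, p = 2 * h + 1 := by
    have := hp.eq_two_or_odd'.resolve_left hp2
    exact this
  have hh : 1 ≤ h := by
    have := hp.two_le
    omega
  obtain ⟨m, hm⟩ := hdvd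
  have hgm : g = h * m := by
    have : p - 1 = 2 * h := by omega
    rw [this] at hm
    nlinarith
  have hm0 : m ≠ 0 := by
    rintro rfl
    omega
  have : Fact p.Prime := ⟨hp⟩
  set v := padicValNat p (2 * g) with hv
  have hvm : v = padicValNat p m := by
    rw [hv, hm, padicValNat.mul (by omega) hm0]
    have : padicValNat p (p - 1) = 0 := by
      apply padicValNat.eq_zero_of_not_dvd
      intro hd
      have := Nat.le_of_dvd (by omega) hd
      omega
    omega
  obtain ⟨t, ht⟩ : p ^ v ∣ m := by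
    rw [hvm]; exact pow_padicValNat_dvd
  set s := p ^ v with hs
  have hs1 : s ≠ 0 := by rw [hs]; exact pow_ne_zero _ hp.ne_zero
  have : NeZero s := ⟨hs1⟩
  let κ := ZMod s × Fin t
  have hcard : Fintype.card (Fin g) = Fintype.card (κ × Fin h) := by
    simp only [κ, Fintype.card_fin, Fintype.card_prod, ZMod.card]
    rw [hgm, ht]; ring
  let e : Fin g ≃ κ × Fin h := Fintype.equivOfCardEq hcard
  let π : Equiv.Perm κ := Equiv.prodCongr (Equiv.addRight 1) (Equiv.refl _)
  let n : κ → ℕ := fun c => if c.1 = 0 then 1 else 0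
  have hπ : ∀ j : ℕ, ∀ c : κ, (π ^ j) c = (c.1 + (j : ZMod s), c.2) := by
    intro j
    induction j with
    | zero => intro c; simp
    | succ j ih =>
      intro c
      rw [pow_succ', Equiv.Perm.mul_apply, ih]
      change (c.1 + (j : ZMod s) + 1, c.2) = _
      push_cast
      rw [add_assoc]
  have hπs : π ^ s = 1 := by
    ext1 c
    rw [hπ]
    simp
  have hsum : ∀ c : κ, ∑ j ∈ Finset.range s, n ((π ^ j) c) = 1 := by
    intro c
    simp only [hπ, n]
    have e1 : ∑ j ∈ Finset.range s, (if c.1 + (j : ZMod s) = 0 then 1 else 0) =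
        ∑ z : ZMod s, (if c.1 + z = 0 then 1 else 0) := by
      refine Finset.sum_bij' (fun j _ => (j : ZMod s)) (fun z _ => z.val) ?_ ?_ ?_ ?_ ?_
      · intro j _; exact Finset.mem_univ _
      · intro z _; exact Finset.mem_range.mpr (ZMod.val_lt z)
      · intro j hj
        exact ZMod.val_cast_of_lt (Finset.mem_range.mp hj)
      · intro z _; exact ZMod.natCast_zmod_val z
      · intro j _; rfl
    rw [e1, Finset.sum_eq_single (-c.1)]
    · simp
    · intro z _ hz
      rw [if_neg]
      intro h0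
      exact hz (eq_neg_of_add_eq_zero_right h0)
    · simp
  let M0 : Matrix (κ × (Fin h ⊕ Fin h)) (κ × (Fin h ⊕ Fin h)) ℤ := Wr π (fun c => (Sm ℤ h) ^ n c)
  have hsymp : M0.submatrix (idx e) (idx e) ∈ Matrix.symplecticGroup (Fin g) ℤ := by
    apply Wr_symp
    intro c
    by_cases hc : c.1 = 0
    · simp only [n, if_pos hc, pow_one]
      exact Sm_symp ℤ h
    · simp only [n, if_neg hc, pow_zero]
      simp
  let J : Matrix.symplecticGroup (Fin g) ℤ := ⟨M0.submatrix (idx e) (idx e), hsymp⟩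
  have hM0s : M0 ^ s = Wr 1 (fun _ => (Sm ℤ h) ^ 1) := by
    simp only [M0]
    rw [Wr_pow, hπs]
    congr 1
    ext1 c
    rw [hsum c]
  have hM0N : M0 ^ (s * p) = 1 := by
    rw [pow_mul, hM0s, Wr_pow (1 : Equiv.Perm κ) (Sm ℤ h) (fun _ => 1) p]
    have : Sm ℤ h ^ p = 1 := by rw [hph]; exact Sm_pow ℤ h hh
    simp only [one_pow, Finset.sum_const, Finset.card_range, smul_eq_mul, mul_one, this]
    exact Wr_one
  have hJk : ∀ k, ((J ^ k : Matrix.symplecticGroup (Fin g) ℤ) : Matrix (Fin g ⊕ Fin g) (Fin g ⊕ Fin g) ℤ) =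
      (M0 ^ k).submatrix (idx e) (idx e) := by
    intro k
    rw [SubmonoidClass.coe_pow]
    exact submatrix_pow M0 (idx e) k
  refine ⟨J, ?_, ?_⟩
  · apply Subtype.ext
    have h1 : p ^ (1 + v) = s * p := by rw [hs, pow_add, pow_one, mul_comm]
    rw [hJk, h1, hM0N]
    simp
  -- the planes
  let F : Fin (2 * g) ≃ κ × (Fin h ⊕ Fin h) := (spEquiv g).symm.trans (idx e)
  have hact : ∀ (c : κ) (u : Fin h ⊕ Fin h → ℝ),
      slVec (toSL g (J ^ s)) (dl c u ∘ F) = dl c ((Sm ℝ h).mulVec u) ∘ F := by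
    intro c u
    have h1 : ((toSL g (J ^ s) : Matrix (Fin (2 * g)) (Fin (2 * g)) ℤ).map (Int.cast : ℤ → ℝ)) =
        (Wr (1 : Equiv.Perm κ) (fun _ => Sm ℝ h)).submatrix F F := by
      have h2 : (toSL g (J ^ s) : Matrix (Fin (2 * g)) (Fin (2 * g)) ℤ) =
          (M0 ^ s).submatrix F F := by
        change Matrix.reindex (spEquiv g) (spEquiv g) ((J ^ s : Matrix.symplecticGroup (Fin g) ℤ) :
          Matrix (Fin g ⊕ Fin g) (Fin g ⊕ Fin g) ℤ) = _
        rw [hJk]
        rfl
      rw [h2, hM0s]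
      simp only [pow_one]
      change ((Wr (1 : Equiv.Perm κ) (fun _ => Sm ℤ h)).map (Int.castRingHom ℝ)).submatrix F F = _
      have h4 : (Wr (1 : Equiv.Perm κ) (fun _ => Sm ℤ h)).map (Int.castRingHom ℝ) =
          Wr (1 : Equiv.Perm κ) (fun _ => Sm ℝ h) := by
        rw [← Sm_cast]
        exact Wr_map (Int.castRingHom ℝ) (1 : Equiv.Perm κ) (fun _ : κ => Sm ℤ h)
      rw [h4]
    unfold slVec
    rw [h1, Matrix.submatrix_mulVec_equiv]
    have h2 : (dl c u ∘ F) ∘ F.symm = dl c u := by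
      ext x; simp
    rw [h2, Wr_one_mulVec]
  have dl_add : ∀ (c : κ) (x y : ℝ) (u w : Fin h ⊕ Fin h → ℝ),
      dl c (x • u + y • w) ∘ F = x • (dl c u ∘ F) + y • (dl c w ∘ F) := by
    intro c x y u w
    ext i
    simp only [Function.comp_apply, dl, Pi.add_apply, Pi.smul_apply, smul_eq_mul]
    split_ifs <;> simp
  let a : Fin g → ℕ := fun j => (e j).2.val + 1
  let bv : Fin g × Fin 2 → (Fin (2 * g) → ℝ) := fun x =>
    dl (e x.1).1 (if x.2 = 0 then cv h (a x.1) else sv h (a x.1)) ∘ F
  have hspan : (⊤ : Submodule ℝ (Fin (2 * g) → ℝ)) ≤ Submodule.span ℝ (Set.range bv) := by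
    intro y _
    let L : κ → (Fin h ⊕ Fin h → ℝ) →ₗ[ℝ] (Fin (2 * g) → ℝ) := fun c =>
      { toFun := fun u => dl c u ∘ F
        map_add' := fun u w => by
          have := dl_add c 1 1 u w
          simpa using this
        map_smul' := fun x u => by
          have := dl_add c x 0 u 0
          simpa using this }
    have hL : ∀ c, (Submodule.span ℝ (Set.range bv)).comap (L c) = ⊤ := by
      intro c
      apply plane_span h hh
      · intro a' ha1 ha2
        rw [Submodule.mem_comap]
        apply Submodule.subset_span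
        refine ⟨(e.symm (c, ⟨a' - 1, by omega⟩), 0), ?_⟩
        simp only [bv, a, L, Equiv.apply_symm_apply]
        have : a' - 1 + 1 = a' := by omega
        simp [this]
      · intro a' ha1 ha2
        rw [Submodule.mem_comap]
        apply Submodule.subset_span
        refine ⟨(e.symm (c, ⟨a' - 1, by omega⟩), 1), ?_⟩
        simp only [bv, a, L, Equiv.apply_symm_apply]
        have : a' - 1 + 1 = a' := by omega
        simp [this]
    have hy : y = ∑ c, L c (fun i => y (F.symm (c, i))) := by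
      ext x
      rw [Finset.sum_apply, Finset.sum_eq_single (F x).1]
      · simp [L, dl]
      · intro c _ hc
        simp only [L, LinearMap.coe_mk, AddHom.coe_mk, Function.comp_apply, dl]
        rw [if_neg (Ne.symm hc)]
      · simp
    rw [hy]
    apply Submodule.sum_mem
    intro c _
    have : (fun i => y (F.symm (c, i))) ∈ (Submodule.span ℝ (Set.range bv)).comap (L c) := by
      rw [hL c]; exact Submodule.mem_top
    exact this
  let b := basisOfTopLeSpanOfCardEqFinrank bv hspan (by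
    simp [Fintype.card_prod, Module.finrank_fin_fun]; ring)
  have hb : ∀ x, b x = bv x := by
    intro x
    simp only [b]
    rw [coe_basisOfTopLeSpanOfCardEqFinrank]
  refine ⟨a, b, ?_, ?_, ?_⟩
  · intro j
    have := (e j).2.isLt
    simp only [a]
    omega
  · intro j
    rw [hb, hb]
    have h1 : ((1 : Fin 2) = 0) ↔ False := by simp
    simp only [bv, h1, if_false, if_true]
    rw [hact, S_cv h _ hh, dl_add]
    simp only [hph]
  · intro j
    rw [hb, hb]
    have h1 : ((1 : Fin 2) = 0) ↔ False := by simp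
    simp only [bv, h1, if_false, if_true]
    rw [hact, S_sv h _ hh, dl_add]
    simp only [hph]

end Pool.Agent.H121
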