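import Pool.Agent.helper121_TH.Basics
import Pool.Agent.helper121_TH.Cyc

/-!
# Rotations: an explicit system over the periodic resolution
-/

namespace Pool.Agent.H121.Rot

open Pool.Agent.H121

section alg

variable {R : Type*} [CommRing R] {T : Type*}

/-- one plane: `c ↦ sum_k [w_k, w_{k+1}, c]` -/
noncomputable def LL (R : Type*) [CommRing R] {T : Type*} (M : ℕ) (w : ℕ → T) :
    Ch R T →ₗ[R] Ch R T :=
  ∑ k ∈ Finset.range M, (cone R (w k)).comp (cone R (w (k + 1)))

theorem LL_apply (M : ℕ) (w : ℕ → T) (c : Ch R T) :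
    LL R M w c = ∑ k ∈ Finset.range M, cone R (w k) (cone R (w (k + 1)) c) := by
  simp [LL, LinearMap.sum_apply]

theorem bd_LL {M : ℕ} {w : ℕ → T} (hw : w M = w 0) (c : Ch R T) :
    bd R (LL R M w c) = LL R M w (bd R c) := by
  rw [LL_apply, LL_apply, map_sum]
  have h1 : ∀ k, bd R (cone R (w k) (cone R (w (k + 1)) c)) =
      (cone R (w (k + 1)) c - cone R (w k) c) + cone R (w k) (cone R (w (k + 1)) (bd R c)) := by
    intro k
    rw [bd_cone, bd_cone, map_sub]
    abel
  rw [Finset.sum_congr rfl fun k _ => h1 k, Finset.sum_add_distrib,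
    Finset.sum_range_sub (fun k => cone R (w k) c), hw, sub_self, zero_add]

theorem mp_LL {M : ℕ} {w : ℕ → T} {τ : T → T} (hτ : ∀ k, τ (w k) = w (k + 1)) (hw : w M = w 0)
    (c : Ch R T) : mp R τ (LL R M w c) = LL R M w (mp R τ c) := by
  rw [LL_apply, LL_apply, map_sum]
  have h1 : ∀ k, mp R τ (cone R (w k) (cone R (w (k + 1)) c)) =
      cone R (w (k + 1)) (cone R (w (k + 1 + 1)) (mp R τ c)) := by
    intro k
    rw [mp_cone, mp_cone, hτ, hτ]
  rw [Finset.sum_congr rfl fun k _ => h1 k]
  have h2 := Finset.sum_range_succ' (fun k => cone R (w k) (cone R (w (k + 1)) (mp R τ c))) M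
  rw [Finset.sum_range_succ] at h2
  have h3 : w (M + 1) = w (0 + 1) := by rw [← hτ M, hw, hτ]
  rw [hw, h3] at h2
  exact (add_right_cancel h2).symm

/-- the composition of the first `i` planes -/
noncomputable def TW (R : Type*) [CommRing R] {T : Type*} (M : ℕ) (w : ℕ → ℕ → T) :
    ℕ → (Ch R T →ₗ[R] Ch R T)
  | 0 => LinearMap.id
  | (i + 1) => (TW R M w i).comp (LL R M (w i))

theorem TW_succ (M : ℕ) (w : ℕ → ℕ → T) (i : ℕ) (c : Ch R T) :
    TW R M w (i + 1) c = TW R M w i (LL R M (w i) c) := rfl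

theorem TW_succ_single (M : ℕ) (w : ℕ → ℕ → T) (i : ℕ) (t : List T) :
    TW R M w (i + 1) (Finsupp.single t 1) =
      ∑ r ∈ Finset.range M, TW R M w i (Finsupp.single (w i r :: w i (r + 1) :: t) 1) := by
  rw [TW_succ, LL_apply, map_sum]
  refine Finset.sum_congr rfl fun r _ => ?_
  rw [cone_single, cone_single]

theorem bd_TW {M : ℕ} {w : ℕ → ℕ → T} (hw : ∀ j, w j M = w j 0) (i : ℕ) (c : Ch R T) :
    bd R (TW R M w i c) = TW R M w i (bd R c) := by
  induction i generalizing c with
  | zero => rfl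
  | succ i ih => rw [TW_succ, TW_succ, ih, bd_LL (hw i)]

theorem mp_TW {M : ℕ} {w : ℕ → ℕ → T} {τ : T → T} (hτ : ∀ j k, τ (w j k) = w j (k + 1))
    (hw : ∀ j, w j M = w j 0) (i : ℕ) (c : Ch R T) :
    mp R τ (TW R M w i c) = TW R M w i (mp R τ c) := by
  induction i generalizing c with
  | zero => rfl
  | succ i ih => rw [TW_succ, TW_succ, ih, mp_LL (hτ i) (hw i)]

theorem mp_pow_TW {M : ℕ} {w : ℕ → ℕ → T} {τ : T → T} (hτ : ∀ j k, τ (w j k) = w j (k + 1))
    (hw : ∀ j, w j M = w j 0) (i r : ℕ) (c : Ch R T) :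
    ((mp R τ) ^ r) (TW R M w i c) = TW R M w i (((mp R τ) ^ r) c) := by
  induction r generalizing c with
  | zero => rfl
  | succ r ih =>
    rw [pow_succ, Module.End.mul_apply, Module.End.mul_apply, mp_TW hτ hw, ih]

/-- the system -/
noncomputable def sW (R : Type*) [CommRing R] {T : Type*} (M : ℕ) (w : ℕ → ℕ → T) (x : ℕ → T)
    (k : ℕ) : Ch R T :=
  if k = 0 then Finsupp.single [] 1
  else if Odd k then TW R M w (k / 2) (Finsupp.single [x (k / 2)] 1)
  else TW R M w (k / 2 - 1) (Finsupp.single [w (k / 2 - 1) 0, w (k / 2 - 1) 1] 1)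

theorem sW_zero (M : ℕ) (w : ℕ → ℕ → T) (x : ℕ → T) :
    sW R M w x 0 = Finsupp.single [] 1 := by simp [sW]

theorem sW_odd (M : ℕ) (w : ℕ → ℕ → T) (x : ℕ → T) (i : ℕ) :
    sW R M w x (2 * i + 1) = TW R M w i (Finsupp.single [x i] 1) := by
  have h1 : (2 * i + 1) / 2 = i := by omega
  have h2 : Odd (2 * i + 1) := ⟨i, rfl⟩
  rw [sW, if_neg (by omega), if_pos h2, h1]

theorem sW_even (M : ℕ) (w : ℕ → ℕ → T) (x : ℕ → T) (i : ℕ) :
    sW R M w x (2 * i + 2) = TW R M w i (Finsupp.single [w i 0, w i 1] 1) := by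
  have h1 : (2 * i + 2) / 2 - 1 = i := by omega
  have h2 : ¬ Odd (2 * i + 2) := by
    rw [Nat.not_odd_iff_even]
    exact ⟨i + 1, by ring⟩
  rw [sW, if_neg (by omega), if_neg h2, h1]

theorem sW_bd {M : ℕ} {w : ℕ → ℕ → T} {x : ℕ → T} {τ : T → T}
    (hτ : ∀ j k, τ (w j k) = w j (k + 1)) (hw : ∀ j, w j M = w j 0) {h : ℕ}
    (hx : ∀ i < h, x i = w i 0) (k : ℕ) (hk : k < 2 * h + 1) :
    bd R (sW R M w x (k + 1)) = Dop R M (mp R τ) k (sW R M w x k) := by
  rcases Nat.even_or_odd k with hk2 | hk2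
  · rcases Nat.eq_zero_or_pos k with h0 | h0
    · subst h0
      rw [Dop_zero, sW_zero]
      have := sW_odd (R := R) M w x 0
      rw [mul_zero, zero_add] at this
      rw [zero_add, this, bd_TW hw, bd_single]
      simp [bdL_cons, TW]
    · obtain ⟨i, hi⟩ : ∃ i, k = 2 * i + 2 := by
        obtain ⟨j, hj⟩ := hk2
        exact ⟨j - 1, by omega⟩
      subst hi
      rw [Dop_even _ _ hk2 h0.ne']
      have e1 : 2 * i + 2 + 1 = 2 * (i + 1) + 1 := by ring
      rw [e1, sW_odd, sW_even, bd_TW hw, bd_single, bdL_cons]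
      simp only [bdL_nil, map_zero, sub_zero, one_smul]
      rw [TW_succ, LL_apply, LinearMap.sum_apply, map_sum]
      refine Finset.sum_congr rfl fun r _ => ?_
      rw [mp_pow_TW hτ hw, cone_single, cone_single, mp_pow, mp_single]
      congr 2
      have h3 : ∀ r k : ℕ, τ^[r] (w i k) = w i (k + r) := by
        intro r
        induction r with
        | zero => intro k; simp
        | succ r ih =>
          intro k
          rw [Function.iterate_succ_apply', ih, hτ]
          rfl
      simp [h3, add_comm]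
  · obtain ⟨i, hi⟩ := hk2
    subst hi
    rw [Dop_odd _ _ ⟨i, rfl⟩]
    have e1 : 2 * i + 1 + 1 = 2 * i + 2 := by ring
    rw [e1, sW_odd, sW_even, bd_TW hw, LinearMap.sub_apply, Module.End.one_apply, mp_TW hτ hw,
      ← map_sub, bd_single, mp_single, hx i (by omega)]
    congr 1
    simp [bdL_cons, hτ]

/-- the beginning of a list -/
def pre (w : ℕ → ℕ → T) (k : ℕ → ℕ) : ℕ → List T
  | 0 => []
  | (i + 1) => pre w k i ++ [w i (k i), w i (k i + 1)]

theorem pre_length (w : ℕ → ℕ → T) (k : ℕ → ℕ) (i : ℕ) : (pre w k i).length = 2 * i := by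
  induction i with
  | zero => rfl
  | succ i ih => rw [pre, List.length_append, ih]; simp; ring

theorem pre_congr {w : ℕ → ℕ → T} {k k' : ℕ → ℕ} {i : ℕ} (h : ∀ j < i, k j = k' j) :
    pre w k i = pre w k' i := by
  induction i with
  | zero => rfl
  | succ i ih => rw [pre, pre, ih (fun j hj => h j (by omega)), h i (by omega)]

theorem pre_update (w : ℕ → ℕ → T) (k : ℕ → ℕ) (i r : ℕ) :
    pre w (Function.update k i r) (i + 1) = pre w k i ++ [w i r, w i (r + 1)] := by
  rw [pre, Function.update_self]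
  congr 1
  apply pre_congr
  intro j hj
  rw [Function.update_of_ne (by omega)]

theorem TW_mem {M : ℕ} {w : ℕ → ℕ → T} {P : List T → Prop} (i : ℕ) (t : List T)
    (h : ∀ k : ℕ → ℕ, P (pre w k i ++ t)) :
    TW R M w i (Finsupp.single t 1) ∈ K R P (2 * i + t.length) := by
  induction i generalizing t with
  | zero =>
    rw [mul_zero, zero_add]
    exact single_mem_K (by simpa [pre] using h 0) 1
  | succ i ih =>
    rw [TW_succ_single]
    apply Submodule.sum_mem
    intro r _
    have h1 := ih (w i r :: w i (r + 1) :: t) (by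
      intro k
      have h2 := h (Function.update k i r)
      rw [pre_update] at h2
      simpa using h2)
    have e1 : 2 * i + (w i r :: w i (r + 1) :: t).length = 2 * (i + 1) + t.length := by
      simp; ring
    rw [e1] at h1
    exact h1

/-- the end of a list -/
def suf (w : ℕ → ℕ → T) (p : T) (k : ℕ → ℕ) : ℕ → ℕ → List T
  | _, 0 => [p]
  | i, (n + 1) => w i (k i) :: w i (k i + 1) :: suf w p k (i + 1) n

theorem suf_congr {w : ℕ → ℕ → T} {p : T} {k k' : ℕ → ℕ} (n : ℕ) :
    ∀ i, (∀ j, i ≤ j → k j = k' j) → suf w p k i n = suf w p k' i n := by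
  induction n with
  | zero => intro i _; rfl
  | succ n ih =>
    intro i h
    rw [suf, suf, ih (i + 1) (fun j hj => h j (by omega)), h i le_rfl]

theorem pre_suf (w : ℕ → ℕ → T) (p : T) (k : ℕ → ℕ) (n : ℕ) :
    ∀ i, pre w k i ++ suf w p k i n = pre w k (i + n) ++ [p] := by
  induction n with
  | zero => intro i; rfl
  | succ n ih =>
    intro i
    have h1 := ih (i + 1)
    have e1 : i + (n + 1) = i + 1 + n := by ring
    rw [e1, ← h1, suf, pre]
    simp

theorem lin_TW {M : ℕ} {w : ℕ → ℕ → T} {p : T} {h : ℕ} (e : List T → ℤ) (s : ℤ) (χ : ℕ → ℕ → ℤ)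
    (he : ∀ k : ℕ → ℕ, e (pre w k h ++ [p]) = s * ∏ j ∈ Finset.range h, χ j (k j)) (i : ℕ) :
    ∀ n, i + n = h → ∀ k : ℕ → ℕ, lin ℤ e (TW ℤ M w i (Finsupp.single (suf w p k i n) 1)) =
      s * (∏ j ∈ Finset.range i, ∑ r ∈ Finset.range M, χ j r) * ∏ j ∈ Finset.Ico i h, χ j (k j) := by
  induction i with
  | zero =>
    intro n hn k
    have h1 := pre_suf w p k n 0
    rw [pre, List.nil_append, hn] at h1
    rw [h1]
    simp only [TW, LinearMap.id_apply, lin_single, one_smul, Finset.range_zero, Finset.prod_empty,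
      mul_one]
    rw [he, Finset.range_eq_Ico]
  | succ i ih =>
    intro n hn k
    rw [TW_succ_single, map_sum]
    have h1 : ∀ r ∈ Finset.range M,
        lin ℤ e (TW ℤ M w i (Finsupp.single (w i r :: w i (r + 1) :: suf w p k (i + 1) n) 1)) =
        s * (∏ j ∈ Finset.range i, ∑ r ∈ Finset.range M, χ j r) *
          (χ i r * ∏ j ∈ Finset.Ico (i + 1) h, χ j (k j)) := by
      intro r _
      have h2 := ih (n + 1) (by omega) (Function.update k i r)
      have h3 : suf w p (Function.update k i r) i (n + 1) =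
          w i r :: w i (r + 1) :: suf w p k (i + 1) n := by
        rw [suf, Function.update_self]
        congr 2
        apply suf_congr
        intro j hj
        rw [Function.update_of_ne (by omega)]
      rw [h3] at h2
      rw [h2, Finset.prod_eq_prod_Ico_succ_bot (by omega), Function.update_self]
      congr 2
      refine Finset.prod_congr rfl fun j hj => ?_
      rw [Finset.mem_Ico] at hj
      rw [Function.update_of_ne (by omega)]
    rw [Finset.sum_congr rfl h1, ← Finset.mul_sum, ← Finset.sum_mul, Finset.prod_range_succ]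
    ring

theorem lin_TW_top {M : ℕ} {w : ℕ → ℕ → T} {p : T} {h : ℕ} (e : List T → ℤ) (s : ℤ)
    (χ : ℕ → ℕ → ℤ)
    (he : ∀ k : ℕ → ℕ, e (pre w k h ++ [p]) = s * ∏ j ∈ Finset.range h, χ j (k j)) :
    lin ℤ e (TW ℤ M w h (Finsupp.single [p] 1)) =
      s * ∏ j ∈ Finset.range h, ∑ r ∈ Finset.range M, χ j r := by
  have h1 := lin_TW (M := M) e s χ he h 0 (by omega) 0
  simpa [suf] using h1

end alg

section lists

variable {T : Type*}

theorem pre_getD_even (w : ℕ → ℕ → T) (k : ℕ → ℕ) (d : T) (i j : ℕ) (hj : j < i) :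
    (pre w k i).getD (2 * j) d = w j (k j) := by
  induction i with
  | zero => omega
  | succ i ih =>
    rw [pre]
    rcases Nat.lt_or_ge j i with h | h
    · rw [List.getD_append _ _ _ _ (by rw [pre_length]; omega), ih h]
    · have : j = i := by omega
      subst this
      rw [List.getD_append_right _ _ _ _ (by rw [pre_length]), pre_length]
      simp

theorem pre_getD_odd (w : ℕ → ℕ → T) (k : ℕ → ℕ) (d : T) (i j : ℕ) (hj : j < i) :
    (pre w k i).getD (2 * j + 1) d = w j (k j + 1) := by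
  induction i with
  | zero => omega
  | succ i ih =>
    rw [pre]
    rcases Nat.lt_or_ge j i with h | h
    · rw [List.getD_append _ _ _ _ (by rw [pre_length]; omega), ih h]
    · have : j = i := by omega
      subst this
      rw [List.getD_append_right _ _ _ _ (by rw [pre_length]; omega), pre_length]
      have : 2 * j + 1 - 2 * j = 1 := by omega
      rw [this]
      simp

theorem sublist_eraseIdx {l' l : List T} (h : l'.Sublist l) (hlen : l'.length < l.length) :
    ∃ i < l.length, l'.Sublist (l.eraseIdx i) := by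
  induction h with
  | slnil => simp at hlen
  | @cons l₁ l₂ a h ih => exact ⟨0, by simp, by simpa using h⟩
  | @cons_cons l₁ l₂ a h ih =>
    obtain ⟨i, hi, h1⟩ := ih (by simpa using hlen)
    exact ⟨i + 1, by simpa using hi, by simpa using h1.cons_cons a⟩

end lists

section cramer

variable {n : ℕ}

theorem minor_eq (l : List (Fin n → ℝ)) (i : Fin (n + 1)) :
    minor n l i = (-1) ^ (i : ℕ) * Matrix.det (Matrix.of fun j : Fin n => l.getD (i.succAbove j) 0) := by
  rw [minor]
  congr 3
  funext j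
  rw [List.getD_eq_getElem?_getD, List.getD_eq_getElem?_getD, List.getElem?_eraseIdx]
  congr 1
  by_cases h : (j : ℕ) < i
  · rw [if_pos h, Fin.succAbove_of_castSucc_lt _ _ (by rw [Fin.lt_def]; exact h)]
    rfl
  · rw [if_neg h, Fin.succAbove_of_le_castSucc _ _ (by rw [Fin.le_def]; simpa using h)]
    rfl

/-- Cramer's rule -/
theorem cramer (l : List (Fin n → ℝ)) :
    ∑ i : Fin (n + 1), minor n l i • l.getD i 0 = 0 := by
  funext k
  rw [Finset.sum_apply]
  simp only [Pi.smul_apply, smul_eq_mul, Pi.zero_apply]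
  set B : Matrix (Fin (n + 1)) (Fin (n + 1)) ℝ :=
    Matrix.of fun i j => Fin.cases (l.getD i 0 k) (fun j' => l.getD i 0 j') j with hB
  have h1 : B.det = 0 := by
    apply Matrix.det_zero_of_column_eq (i := 0) (j := k.succ) (by simp [Fin.ext_iff])
    intro i
    simp [hB]
  rw [Matrix.det_succ_column_zero] at h1
  rw [← h1]
  refine Finset.sum_congr rfl fun i _ => ?_
  rw [minor_eq l]
  have h2 : B.submatrix i.succAbove Fin.succ =
      Matrix.of fun j : Fin n => l.getD (i.succAbove j) 0 := by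
    ext a b
    simp [hB]
  have h3 : B i 0 = l.getD i 0 k := by simp [hB]
  rw [h2, h3]
  ring

/-- the minors from a dependency -/
theorem minor_of_dep (l : List (Fin n → ℝ)) (c : ℕ → ℝ) (hc : c n = 1)
    (hdep : ∑ i : Fin (n + 1), c i • l.getD i 0 = 0) (hD : minor n l n ≠ 0) (i : ℕ) (hi : i ≤ n) :
    minor n l i = minor n l n * c i := by
  have hlast : minor n l n = (-1) ^ n * Matrix.det (Matrix.of fun j : Fin n => l.getD j 0) := by
    have := minor_eq l (Fin.last n)
    simpa using this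
  have hdet : Matrix.det (Matrix.of fun j : Fin n => l.getD (j : ℕ) 0) ≠ 0 := by
    intro h0
    rw [hlast, h0, mul_zero] at hD
    exact hD rfl
  have hli : LinearIndependent ℝ (fun j : Fin n => l.getD (j : ℕ) 0) := by
    have h1 : IsUnit (Matrix.of fun j : Fin n => l.getD (j : ℕ) 0) :=
      (Matrix.isUnit_iff_isUnit_det _).2 (isUnit_iff_ne_zero.2 hdet)
    have := Matrix.linearIndependent_rows_iff_isUnit.2 h1
    exact this
  rcases hi.lt_or_eq with h2 | h2
  · have h3 := cramer l
    rw [Fin.sum_univ_castSucc] at h3 hdep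
    simp only [Fin.val_castSucc, Fin.val_last] at h3 hdep
    rw [hc, one_smul] at hdep
    have h4 : ∑ j : Fin n, (minor n l j - minor n l n * c j) • l.getD (j : ℕ) 0 = 0 := by
      simp only [sub_smul, mul_smul, Finset.sum_sub_distrib, ← Finset.smul_sum]
      have e1 : ∑ j : Fin n, minor n l j • l.getD (j : ℕ) 0 = -(minor n l n • l.getD n 0) :=
        eq_neg_of_add_eq_zero_left h3
      have e2 : ∑ j : Fin n, c j • l.getD (j : ℕ) 0 = - l.getD n 0 :=
        eq_neg_of_add_eq_zero_left hdep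
      rw [e1, e2]
      simp
    have h5 := (Fintype.linearIndependent_iff.1 hli) _ h4 ⟨i, h2⟩
    simp only at h5
    linarith
  · rw [h2, hc, mul_one]

theorem genPos_of_minor (l : List (Fin n → ℝ)) (hl : l.length = n + 1)
    (h : ∀ i ≤ n, minor n l i ≠ 0) : GenPos n l := by
  intro l' hl' hlen
  obtain ⟨i, hi, h1⟩ := sublist_eraseIdx hl' (by omega)
  have h2 := h i (by omega)
  have hlen2 : (l.eraseIdx i).length = n := by
    rw [List.length_eraseIdx_of_lt hi]; omega
  have hdet : Matrix.det (Matrix.of fun j : Fin n => (l.eraseIdx i).getD j 0) ≠ 0 := by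
    intro h0
    rw [minor, h0, mul_zero] at h2
    exact h2 rfl
  have hli : LinearIndependent ℝ (fun j : Fin n => (l.eraseIdx i).getD (j : ℕ) 0) := by
    have h3 : IsUnit (Matrix.of fun j : Fin n => (l.eraseIdx i).getD (j : ℕ) 0) :=
      (Matrix.isUnit_iff_isUnit_det _).2 (isUnit_iff_ne_zero.2 hdet)
    exact Matrix.linearIndependent_rows_iff_isUnit.2 h3
  obtain ⟨f, hf⟩ := List.sublist_iff_exists_fin_orderEmbedding_get_eq.1 h1
  have h4 : l'.get = (fun j : Fin n => (l.eraseIdx i).getD (j : ℕ) 0) ∘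
      (fun a => Fin.cast hlen2 (f a)) := by
    funext a
    rw [hf a]
    simp only [Function.comp_apply, Fin.val_cast]
    rw [List.getD_eq_getElem _ _ (f a).2]
    rfl
  rw [h4]
  apply hli.comp
  intro a b hab
  exact f.injective (Fin.cast_injective _ hab)

end cramer

section trig

open Real

theorem trig_cond {M a : ℕ} (ha1 : 1 ≤ a) (ha2 : 2 * a < M) (d : ℕ) (hd : d < M) :
    (0 < sin (π / (2 * M) + 2 * π * (d : ℤ) / M) ∧
      0 < sin (2 * π * (a - (d : ℤ)) / M - π / (2 * M))) ↔ d < a := by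
  have hM : (0 : ℝ) < M := by exact_mod_cast (by omega : 0 < M)
  have hpi := Real.pi_pos
  have e1 : π / (2 * M) + 2 * π * ((d : ℤ) : ℝ) / M = π * ((2 * d + 1 / 2) / M) := by
    push_cast
    field_simp
    ring
  have e2 : 2 * π * ((a : ℝ) - ((d : ℤ) : ℝ)) / M - π / (2 * M) =
      π * ((2 * ((a : ℝ) - d) - 1 / 2) / M) := by
    push_cast
    field_simp
  rw [e1, e2]
  constructor
  · rintro ⟨h1, h2⟩
    by_contra hcon
    push Not at hcon
    rcases Nat.lt_or_ge (2 * d) M with h3 | h3
    · have h4 : sin (π * ((2 * ((a : ℝ) - d) - 1 / 2) / M)) < 0 := by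
        apply Real.sin_neg_of_neg_of_neg_pi_lt
        · have : (2 * ((a : ℝ) - d) - 1 / 2) / M < 0 := by
            apply div_neg_of_neg_of_pos _ hM
            have : (a : ℝ) ≤ d := by exact_mod_cast hcon
            linarith
          nlinarith
        · have : -1 < (2 * ((a : ℝ) - d) - 1 / 2) / M := by
            rw [lt_div_iff₀ hM]
            have h5 : (2 * d + 1 : ℝ) ≤ M := by exact_mod_cast h3
            have h6 : (1 : ℝ) ≤ a := by exact_mod_cast ha1
            linarith
          nlinarith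
      linarith
    · have h4 : sin (π * ((2 * (d : ℝ) + 1 / 2) / M)) < 0 := by
        rw [← Real.sin_sub_two_pi]
        apply Real.sin_neg_of_neg_of_neg_pi_lt
        · have : (2 * (d : ℝ) + 1 / 2) / M < 2 := by
            rw [div_lt_iff₀ hM]
            have h5 : (d + 1 : ℝ) ≤ M := by exact_mod_cast hd
            linarith
          nlinarith
        · have : 1 < (2 * (d : ℝ) + 1 / 2) / M := by
            rw [lt_div_iff₀ hM]
            have h5 : (M : ℝ) ≤ 2 * d := by exact_mod_cast h3
            linarith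
          nlinarith
      linarith
  · intro h
    have h5 : (d + 1 : ℝ) ≤ a := by exact_mod_cast h
    have h6 : (2 * a : ℝ) < M := by exact_mod_cast ha2
    have h7 : (0 : ℝ) ≤ d := by positivity
    constructor
    · apply Real.sin_pos_of_pos_of_lt_pi
      · positivity
      · have : (2 * (d : ℝ) + 1 / 2) / M < 1 := by
          rw [div_lt_iff₀ hM]
          linarith
        nlinarith
    · apply Real.sin_pos_of_pos_of_lt_pi
      · have : 0 < (2 * ((a : ℝ) - d) - 1 / 2) / M := by
          apply div_pos _ hM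
          linarith
        positivity
      · have : (2 * ((a : ℝ) - d) - 1 / 2) / M < 1 := by
          rw [div_lt_iff₀ hM]
          linarith
        nlinarith

theorem trig_cond_int {M a : ℕ} (ha1 : 1 ≤ a) (ha2 : 2 * a < M) (d : ℤ) :
    (0 < sin (π / (2 * M) + 2 * π * d / M) ∧
      0 < sin (2 * π * (a - d) / M - π / (2 * M))) ↔ (d % M).toNat < a := by
  have hM0 : (0 : ℤ) < M := by exact_mod_cast (by omega : 0 < M)
  have hM : (0 : ℝ) < M := by exact_mod_cast (by omega : 0 < M)
  have h1 := Int.emod_nonneg d hM0.ne'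
  have h2 := Int.emod_lt_of_pos d hM0
  rw [← trig_cond ha1 ha2 (d % M).toNat (by omega)]
  have h3 : ((d % M).toNat : ℤ) = d % M := Int.toNat_of_nonneg h1
  rw [h3]
  have h4 : (d : ℝ) = ((d % M : ℤ) : ℝ) + M * ((d / M : ℤ) : ℝ) := by
    have := Int.emod_add_mul_ediv d M
    exact_mod_cast this.symm
  have e1 : π / (2 * M) + 2 * π * (d : ℝ) / M =
      (π / (2 * M) + 2 * π * ((d % M : ℤ) : ℝ) / M) + ((d / M : ℤ) : ℝ) * (2 * π) := by
    rw [h4]
    field_simp
    ring
  have e2 : 2 * π * ((a : ℝ) - d) / M - π / (2 * M) =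
      (2 * π * ((a : ℝ) - ((d % M : ℤ) : ℝ)) / M - π / (2 * M)) - ((d / M : ℤ) : ℝ) * (2 * π) := by
    rw [h4]
    field_simp
    ring
  rw [e1, e2, Real.sin_add_int_mul_two_pi, Real.sin_sub_int_mul_two_pi]

theorem trig_count {M a : ℕ} (ha1 : 1 ≤ a) (ha2 : 2 * a < M) (hc : a.Coprime M) :
    ∑ r ∈ Finset.range M, (if 0 < sin (π / (2 * M) - 2 * π * a * r / M) ∧
      0 < sin (2 * π * a * (r + 1) / M - π / (2 * M)) then (1 : ℤ) else 0) = a := by
  have hM0 : (0 : ℤ) < M := by exact_mod_cast (by omega : 0 < M)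
  set i : ℕ → ℕ := fun r => ((-(a * r) : ℤ) % M).toNat with hi
  have h1 : ∀ r ∈ Finset.range M, (if 0 < sin (π / (2 * M) - 2 * π * a * r / M) ∧
      0 < sin (2 * π * a * (r + 1) / M - π / (2 * M)) then (1 : ℤ) else 0) =
      if i r < a then 1 else 0 := by
    intro r _
    have h2 := trig_cond_int ha1 ha2 (-(a * r) : ℤ)
    have e1 : π / (2 * M) + 2 * π * ((-(a * r) : ℤ) : ℝ) / M =
        π / (2 * M) - 2 * π * a * r / M := by
      push_cast
      ring
    have e2 : 2 * π * ((a : ℝ) - ((-(a * r) : ℤ) : ℝ)) / M - π / (2 * M) =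
        2 * π * a * (r + 1) / M - π / (2 * M) := by
      push_cast
      ring
    rw [e1, e2] at h2
    simp only [h2, hi]
  rw [Finset.sum_congr rfl h1]
  have hmaps : ∀ r ∈ Finset.range M, i r ∈ Finset.range M := by
    intro r _
    rw [Finset.mem_range]
    have h2 := Int.emod_nonneg (-(a * r) : ℤ) hM0.ne'
    have h3 := Int.emod_lt_of_pos (-(a * r) : ℤ) hM0
    simp only [hi]
    omega
  have hinj : Set.InjOn i (Finset.range M) := by
    intro r hr r' hr' h
    rw [Finset.coe_range, Set.mem_Iio] at hr hr'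
    simp only [hi] at h
    have h2 := Int.emod_nonneg (-(a * r) : ℤ) hM0.ne'
    have h2' := Int.emod_nonneg (-(a * r') : ℤ) hM0.ne'
    have h3 : (-(a * r) : ℤ) % M = (-(a * r') : ℤ) % M := by omega
    have h4 : (M : ℤ) ∣ a * (r - r' : ℤ) := by
      have h5 := Int.emod_emod_of_dvd (-(a * r) : ℤ) (dvd_refl (M : ℤ))
      have h6 := (Int.emod_eq_emod_iff_emod_sub_eq_zero).1 h3
      have h7 := Int.dvd_of_emod_eq_zero h6
      have h8 : (-(a * r) : ℤ) - (-(a * r')) = -(a * (r - r')) := by ring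
      rw [h8] at h7
      exact (dvd_neg).1 h7
    have h5 : (M : ℤ) ∣ (r - r' : ℤ) := by
      have hc' : IsCoprime (M : ℤ) (a : ℤ) := by
        rw [Int.isCoprime_iff_gcd_eq_one]
        have : Int.gcd (M : ℤ) (a : ℤ) = Nat.gcd M a := by simp [Int.gcd]
        rw [this]
        exact hc.symm
      exact hc'.dvd_of_dvd_mul_left h4
    obtain ⟨q, hq⟩ := h5
    have h6 : q = 0 := by
      by_contra h0
      have h7 : (M : ℤ) ≤ |(r - r' : ℤ)| := by
        rw [hq, abs_mul, abs_of_pos hM0]
        have : 1 ≤ |q| := Int.one_le_abs h0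
        nlinarith
      have h8 : |(r - r' : ℤ)| < M := by
        rw [abs_lt]
        constructor <;> omega
      omega
    rw [h6] at hq
    omega
  have himg : (Finset.range M).image i = Finset.range M := by
    apply Finset.eq_of_subset_of_card_le
    · intro x hx
      rw [Finset.mem_image] at hx
      obtain ⟨r, hr, rfl⟩ := hx
      exact hmaps r hr
    · rw [Finset.card_image_of_injOn hinj]
  have h2 : ∑ d ∈ Finset.range M, (if d < a then (1 : ℤ) else 0) = a := by
    rw [← Finset.sum_filter]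
    have : (Finset.range M).filter (fun d => d < a) = Finset.range a := by
      ext x
      rw [Finset.mem_filter, Finset.mem_range, Finset.mem_range]
      omega
    rw [this]
    simp
  rw [← h2]
  conv_rhs => rw [← himg]
  rw [Finset.sum_image hinj]

end trig

section main

open Real

variable {h : ℕ} (b : Module.Basis (Fin h × Fin 2) ℝ (Fin (2 * h) → ℝ))

/-- the unit vector at angle `t` in the plane `j` -/
noncomputable def ev (j : ℕ) (t : ℝ) : Fin (2 * h) → ℝ :=
  if hj : j < h then cos t • b (⟨j, hj⟩, 0) + sin t • b (⟨j, hj⟩, 1) else 0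

theorem ev_three (j : ℕ) (x y θ : ℝ) :
    sin (y - x) • ev b j θ = sin (y - θ) • ev b j x + sin (θ - x) • ev b j y := by
  unfold ev
  by_cases hj : j < h
  · simp only [dif_pos hj, smul_add, smul_smul]
    have e1 : sin (y - x) * cos θ = sin (y - θ) * cos x + sin (θ - x) * cos y := by
      rw [sin_sub, sin_sub, sin_sub]; ring
    have e2 : sin (y - x) * sin θ = sin (y - θ) * sin x + sin (θ - x) * sin y := by
      rw [sin_sub, sin_sub, sin_sub]; ring
    rw [e1, e2, add_smul, add_smul]
    abel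
  · simp [dif_neg hj]

theorem ev_int (j : ℕ) (t : ℝ) (m : ℤ) : ev b j (t + m * (2 * π)) = ev b j t := by
  unfold ev
  rw [cos_add_int_mul_two_pi, sin_add_int_mul_two_pi]

theorem ev_repr (j : ℕ) (hj : j < h) (t : ℝ) (i : Fin h × Fin 2) :
    b.repr (ev b j t) i = if i.1 = ⟨j, hj⟩ then (if i.2 = 0 then cos t else sin t) else 0 := by
  unfold ev
  rw [dif_pos hj, map_add, map_smul, map_smul, Module.Basis.repr_self, Module.Basis.repr_self,
    Finsupp.add_apply, Finsupp.smul_apply, Finsupp.smul_apply, smul_eq_mul, smul_eq_mul,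
    Finsupp.single_apply, Finsupp.single_apply]
  obtain ⟨i1, i2⟩ := i
  by_cases h1 : i1 = ⟨j, hj⟩
  · subst h1
    fin_cases i2 <;> simp
  · have h2 : ∀ ε : Fin 2, ¬ ((⟨j, hj⟩ : Fin h), ε) = (i1, i2) := by
      intro ε h3
      exact h1 (Prod.ext_iff.1 h3).1.symm
    rw [if_neg (h2 0), if_neg (h2 1)]
    simp [h1]

/-- numbering of the rows -/
def sg (h : ℕ) : Fin h × Fin 2 ≃ Fin (2 * h) := finProdFinEquiv.trans (finCongr (mul_comm h 2))

theorem sg_val (x : Fin h × Fin 2) : ((sg h x : Fin (2 * h)) : ℕ) = x.2 + 2 * x.1 := by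
  simp [sg, finProdFinEquiv]

/-- the determinant of the basis -/
noncomputable def D0 : ℝ := Matrix.det (Matrix.of fun m : Fin (2 * h) => b.reindex (sg h) m)

theorem det_rows (Y : Fin (2 * h) → (Fin (2 * h) → ℝ)) :
    Matrix.det (Matrix.of Y) = D0 b * ((b.reindex (sg h)).toMatrix Y).det := by
  have h1 := AlternatingMap.eq_smul_basis_det (b.reindex (sg h))
    (Matrix.detRowAlternating (n := Fin (2 * h)) (R := ℝ))
  have h2 := congrArg (fun f : (Fin (2 * h) → ℝ) [⋀^Fin (2 * h)]→ₗ[ℝ] ℝ => f Y) h1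
  simp only [AlternatingMap.smul_apply, smul_eq_mul] at h2
  exact h2

theorem D0_ne : D0 b ≠ 0 := by
  intro h0
  have h1 := det_rows b (fun i => Pi.single i 1)
  rw [h0, zero_mul] at h1
  have h2 : (Matrix.of fun i : Fin (2 * h) => (Pi.single i 1 : Fin (2 * h) → ℝ)) = 1 := by
    ext i j
    simp [Matrix.one_apply, Pi.single_apply, eq_comm]
  rw [h2, Matrix.det_one] at h1
  exact one_ne_zero h1

theorem det_ev (t : Fin h → Fin 2 → ℝ) (Y : Fin (2 * h) → (Fin (2 * h) → ℝ))
    (hY : ∀ x : Fin h × Fin 2, Y (sg h x) = ev b x.1 (t x.1 x.2)) :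
    Matrix.det (Matrix.of Y) = D0 b * ∏ j, sin (t j 1 - t j 0) := by
  rw [det_rows b]
  congr 1
  rw [← Matrix.det_submatrix_equiv_self (sg h)]
  have h1 : ((b.reindex (sg h)).toMatrix Y).submatrix (sg h) (sg h) =
      (Matrix.blockDiagonal (fun j : Fin h => !![cos (t j 0), cos (t j 1);
        sin (t j 0), sin (t j 1)])).submatrix (Equiv.prodComm (Fin h) (Fin 2))
        (Equiv.prodComm (Fin h) (Fin 2)) := by
    ext x y
    obtain ⟨x1, x2⟩ := x
    obtain ⟨y1, y2⟩ := y
    rw [Matrix.submatrix_apply, Matrix.submatrix_apply, Module.Basis.toMatrix_apply, hY,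
      Module.Basis.repr_reindex_apply, Equiv.symm_apply_apply, ev_repr b _ y1.2]
    simp only [Equiv.prodComm_apply, Prod.swap_prod_mk, Matrix.blockDiagonal_apply, Fin.eta]
    by_cases hxy : x1 = y1
    · subst hxy
      fin_cases x2 <;> fin_cases y2 <;> simp
    · simp [hxy]
  rw [h1, Matrix.det_submatrix_equiv_self, Matrix.det_blockDiagonal]
  refine Finset.prod_congr rfl fun j _ => ?_
  rw [Matrix.det_fin_two_of, sin_sub]
  ring

theorem sum_range_two_mul {E : Type*} [AddCommMonoid E] (f : ℕ → E) (n : ℕ) :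
    ∑ m ∈ Finset.range (2 * n), f m = ∑ j ∈ Finset.range n, (f (2 * j) + f (2 * j + 1)) := by
  induction n with
  | zero => simp
  | succ n ih =>
    rw [Finset.sum_range_succ, ← ih]
    have : 2 * (n + 1) = 2 * n + 1 + 1 := by ring
    rw [this, Finset.sum_range_succ, Finset.sum_range_succ, add_assoc]

/-- the angular speeds, extended by zero -/
def aN (a : Fin h → ℕ) (j : ℕ) : ℕ := if hj : j < h then a ⟨j, hj⟩ else 0

/-- the angle of the vertex `k` in the plane `j` -/
noncomputable def ph (M : ℕ) (a : Fin h → ℕ) (j k : ℕ) : ℝ := 2 * π * aN a j * k / M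

/-- the vertex `k` in the plane `j` -/
noncomputable def wv (M : ℕ) (a : Fin h → ℕ) (j k : ℕ) : Fin (2 * h) → ℝ := ev b j (ph M a j k)

/-- the apex -/
noncomputable def pv (M : ℕ) : Fin (2 * h) → ℝ := - ∑ j ∈ Finset.range h, ev b j (π / (2 * M))

/-- the coefficients of the dependency -/
noncomputable def cf (M : ℕ) (a : Fin h → ℕ) (k : ℕ → ℕ) (m : ℕ) : ℝ :=
  if m = 2 * h then 1
  else if m % 2 = 0 then
    sin (ph M a (m / 2) (k (m / 2) + 1) - π / (2 * M)) / sin (2 * π * aN a (m / 2) / M)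
  else sin (π / (2 * M) - ph M a (m / 2) (k (m / 2))) / sin (2 * π * aN a (m / 2) / M)

section facts

variable {M : ℕ} {a : Fin h → ℕ} (ha : ∀ j, 1 ≤ a j ∧ 2 * a j < M ∧ (a j).Coprime M)

include ha

theorem aN_prop {j : ℕ} (hj : j < h) : 1 ≤ aN a j ∧ 2 * aN a j < M ∧ (aN a j).Coprime M := by
  unfold aN
  rw [dif_pos hj]
  exact ha ⟨j, hj⟩

theorem sin_pos' {j : ℕ} (hj : j < h) : 0 < sin (2 * π * aN a j / M) := by
  obtain ⟨h1, h2, _⟩ := aN_prop ha hj
  have hM : (0 : ℝ) < M := by exact_mod_cast (by omega : 0 < M)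
  have h3 : (1 : ℝ) ≤ aN a j := by exact_mod_cast h1
  have h4 : (2 * aN a j : ℝ) < M := by exact_mod_cast h2
  have hpi := Real.pi_pos
  apply Real.sin_pos_of_pos_of_lt_pi
  · positivity
  · rw [div_lt_iff₀ hM]
    nlinarith

omit ha in
theorem sin_ne₁ (hM : 0 < M) (j k : ℕ) : sin (π / (2 * M) - ph M a j k) ≠ 0 := by
  intro h0
  rw [Real.sin_eq_zero_iff] at h0
  obtain ⟨n, hn⟩ := h0
  have hM' : (0 : ℝ) < M := by exact_mod_cast hM
  have hpi := Real.pi_pos
  unfold ph at hn
  have h1 : (n : ℝ) * (2 * M) = 1 - 4 * aN a j * k := by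
    have e1 : π / (2 * M) - 2 * π * aN a j * k / M = π * ((1 - 4 * aN a j * k) / (2 * M)) := by
      field_simp
      ring
    rw [e1, mul_comm] at hn
    have h2 := mul_left_cancel₀ hpi.ne' hn
    rw [h2]
    field_simp
  have h2 : n * (2 * M) = 1 - 4 * aN a j * k := by exact_mod_cast h1
  have h3 : 2 * (n * M + 2 * (aN a j * k : ℤ)) = 1 := by linarith
  omega

omit ha in
theorem sin_ne₂ (hM : 0 < M) (j k : ℕ) : sin (ph M a j k - π / (2 * M)) ≠ 0 := by
  rw [← neg_sub, Real.sin_neg]
  exact neg_ne_zero.2 (sin_ne₁ hM j k)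

end facts

theorem full_length (w : ℕ → ℕ → (Fin (2 * h) → ℝ)) (p : Fin (2 * h) → ℝ) (k : ℕ → ℕ) :
    (pre w k h ++ [p]).length = 2 * h + 1 := by
  rw [List.length_append, pre_length]
  rfl

theorem full_even (w : ℕ → ℕ → (Fin (2 * h) → ℝ)) (p : Fin (2 * h) → ℝ) (k : ℕ → ℕ) {j : ℕ}
    (hj : j < h) : (pre w k h ++ [p]).getD (2 * j) 0 = w j (k j) := by
  rw [List.getD_append _ _ _ _ (by rw [pre_length]; omega), pre_getD_even _ _ _ _ _ hj]

theorem full_odd (w : ℕ → ℕ → (Fin (2 * h) → ℝ)) (p : Fin (2 * h) → ℝ) (k : ℕ → ℕ) {j : ℕ}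
    (hj : j < h) : (pre w k h ++ [p]).getD (2 * j + 1) 0 = w j (k j + 1) := by
  rw [List.getD_append _ _ _ _ (by rw [pre_length]; omega), pre_getD_odd _ _ _ _ _ hj]

theorem full_last (w : ℕ → ℕ → (Fin (2 * h) → ℝ)) (p : Fin (2 * h) → ℝ) (k : ℕ → ℕ) :
    (pre w k h ++ [p]).getD (2 * h) 0 = p := by
  rw [List.getD_append_right _ _ _ _ (by rw [pre_length]), pre_length]
  simp

theorem full_det (M : ℕ) (a : Fin h → ℕ) (k : ℕ → ℕ) :
    minor (2 * h) (pre (wv b M a) k h ++ [pv b M]) (2 * h) =
      D0 b * ∏ j : Fin h, sin (2 * π * aN a j / M) := by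
  have h1 := minor_eq (pre (wv b M a) k h ++ [pv b M]) (Fin.last (2 * h))
  simp only [Fin.val_last, Fin.succAbove_last, Fin.val_castSucc] at h1
  rw [h1, (even_two_mul h).neg_one_pow, one_mul,
    det_ev b (fun j ε => ph M a j (k j + ε)) (fun m => (pre (wv b M a) k h ++ [pv b M]).getD m 0)]
  · congr 1
    refine Finset.prod_congr rfl fun j _ => ?_
    congr 1
    unfold ph
    push_cast
    simp only [Fin.val_one, Fin.val_zero]
    push_cast
    ring
  · rintro ⟨j, ε⟩
    simp only
    rw [sg_val]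
    have hj : (j : ℕ) < h := j.2
    fin_cases ε
    · simp only [zero_add, add_zero]
      rw [full_even _ _ _ hj]
      rfl
    · simp only
      rw [add_comm, full_odd _ _ _ hj]
      rfl

theorem full_dep {M : ℕ} {a : Fin h → ℕ} (ha : ∀ j, 1 ≤ a j ∧ 2 * a j < M ∧ (a j).Coprime M)
    (k : ℕ → ℕ) : ∑ i : Fin (2 * h + 1),
      cf M a k i • (pre (wv b M a) k h ++ [pv b M]).getD i 0 = 0 := by
  rw [← Finset.sum_range (fun m => cf M a k m • (pre (wv b M a) k h ++ [pv b M]).getD m 0),
    Finset.sum_range_succ, sum_range_two_mul, full_last]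
  have h1 : cf M a k (2 * h) = 1 := by simp [cf]
  have h2 : ∀ j ∈ Finset.range h,
      cf M a k (2 * j) • (pre (wv b M a) k h ++ [pv b M]).getD (2 * j) 0 +
      cf M a k (2 * j + 1) • (pre (wv b M a) k h ++ [pv b M]).getD (2 * j + 1) 0 =
      ev b j (π / (2 * M)) := by
    intro j hj
    rw [Finset.mem_range] at hj
    rw [full_even _ _ _ hj, full_odd _ _ _ hj]
    have hs := (sin_pos' ha hj).ne'
    have e1 : cf M a k (2 * j) =
        sin (ph M a j (k j + 1) - π / (2 * M)) / sin (2 * π * aN a j / M) := by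
      have : 2 * j / 2 = j := by omega
      rw [cf, if_neg (by omega), if_pos (by omega), this]
    have e2 : cf M a k (2 * j + 1) =
        sin (π / (2 * M) - ph M a j (k j)) / sin (2 * π * aN a j / M) := by
      have : (2 * j + 1) / 2 = j := by omega
      rw [cf, if_neg (by omega), if_neg (by omega), this]
    have e3 : ph M a j (k j + 1) - ph M a j (k j) = 2 * π * aN a j / M := by
      unfold ph
      push_cast
      ring
    have h3 := ev_three b j (ph M a j (k j)) (ph M a j (k j + 1)) (π / (2 * M))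
    rw [e3] at h3
    rw [e1, e2]
    have h4 : ev b j (π / (2 * M)) = (sin (2 * π * aN a j / M))⁻¹ •
        (sin (2 * π * aN a j / M) • ev b j (π / (2 * M))) := by
      rw [smul_smul, inv_mul_cancel₀ hs, one_smul]
    rw [h4, h3, smul_add, smul_smul, smul_smul]
    unfold wv
    congr 2 <;> ring
  rw [h1, one_smul, Finset.sum_congr rfl h2, pv, add_neg_cancel]

theorem full_minor {M : ℕ} {a : Fin h → ℕ} (ha : ∀ j, 1 ≤ a j ∧ 2 * a j < M ∧ (a j).Coprime M)
    (k : ℕ → ℕ) (i : ℕ) (hi : i ≤ 2 * h) :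
    minor (2 * h) (pre (wv b M a) k h ++ [pv b M]) i =
      (D0 b * ∏ j : Fin h, sin (2 * π * aN a j / M)) * cf M a k i := by
  have h1 := minor_of_dep (pre (wv b M a) k h ++ [pv b M]) (cf M a k) (by simp [cf])
    (full_dep b ha k) (by
      rw [full_det]
      exact mul_ne_zero (D0_ne b) (Finset.prod_ne_zero_iff.2 fun j _ => (sin_pos' ha j.2).ne')) i hi
  rw [h1, full_det]

theorem cf_ne {M : ℕ} {a : Fin h → ℕ} (ha : ∀ j, 1 ≤ a j ∧ 2 * a j < M ∧ (a j).Coprime M)
    (k : ℕ → ℕ) (i : ℕ) (hi : i ≤ 2 * h) : cf M a k i ≠ 0 := by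
  unfold cf
  split_ifs with h1 h2
  · exact one_ne_zero
  · have hj : i / 2 < h := by omega
    have hM : 0 < M := by have := ha ⟨i / 2, hj⟩; omega
    exact div_ne_zero (sin_ne₂ hM _ _) (sin_pos' ha hj).ne'
  · have hj : i / 2 < h := by omega
    have hM : 0 < M := by have := ha ⟨i / 2, hj⟩; omega
    exact div_ne_zero (sin_ne₁ hM _ _) (sin_pos' ha hj).ne'

theorem full_genPos {M : ℕ} {a : Fin h → ℕ} (ha : ∀ j, 1 ≤ a j ∧ 2 * a j < M ∧ (a j).Coprime M)
    (k : ℕ → ℕ) : GenPos (2 * h) (pre (wv b M a) k h ++ [pv b M]) := by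
  apply genPos_of_minor _ (full_length _ _ _)
  intro i hi
  rw [full_minor b ha k i hi]
  exact mul_ne_zero (mul_ne_zero (D0_ne b)
    (Finset.prod_ne_zero_iff.2 fun j _ => (sin_pos' ha j.2).ne')) (cf_ne ha k i hi)

theorem cf_pos_iff {M : ℕ} {a : Fin h → ℕ} (ha : ∀ j, 1 ≤ a j ∧ 2 * a j < M ∧ (a j).Coprime M)
    (k : ℕ → ℕ) : (∀ i ≤ 2 * h, 0 < cf M a k i) ↔ ∀ j ∈ Finset.range h,
      (0 < sin (π / (2 * M) - 2 * π * aN a j * (k j) / M) ∧
        0 < sin (2 * π * aN a j * ((k j : ℝ) + 1) / M - π / (2 * M))) := by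
  constructor
  · intro H j hj
    rw [Finset.mem_range] at hj
    have h1 := H (2 * j) (by omega)
    have h2 := H (2 * j + 1) (by omega)
    have e1 : 2 * j / 2 = j := by omega
    have e2 : (2 * j + 1) / 2 = j := by omega
    rw [cf, if_neg (by omega), if_pos (by omega), e1] at h1
    rw [cf, if_neg (by omega), if_neg (by omega), e2] at h2
    have hs := sin_pos' ha hj
    have h3 := (div_pos_iff_of_pos_right hs).1 h1
    have h4 := (div_pos_iff_of_pos_right hs).1 h2
    unfold ph at h3 h4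
    push_cast at h3
    exact ⟨h4, h3⟩
  · intro H i hi
    unfold cf
    split_ifs with h1 h2
    · exact one_pos
    · have hj : i / 2 < h := by omega
      have := (H (i / 2) (Finset.mem_range.2 hj)).2
      apply div_pos _ (sin_pos' ha hj)
      unfold ph
      push_cast
      exact this
    · have hj : i / 2 < h := by omega
      have := (H (i / 2) (Finset.mem_range.2 hj)).1
      exact div_pos this (sin_pos' ha hj)

theorem full_eps {M : ℕ} {a : Fin h → ℕ} (ha : ∀ j, 1 ≤ a j ∧ 2 * a j < M ∧ (a j).Coprime M)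
    (k : ℕ → ℕ) : eps (2 * h) (pre (wv b M a) k h ++ [pv b M]) =
      (if 0 < D0 b then 1 else -1) * ∏ j ∈ Finset.range h,
        (if 0 < sin (π / (2 * M) - 2 * π * aN a j * (k j) / M) ∧
          0 < sin (2 * π * aN a j * ((k j : ℝ) + 1) / M - π / (2 * M)) then (1 : ℤ) else 0) := by
  have hP : 0 < ∏ j : Fin h, sin (2 * π * aN a j / M) :=
    Finset.prod_pos fun j _ => sin_pos' ha j.2
  have hc : cf M a k (2 * h) = 1 := by simp [cf]
  rw [Finset.prod_ite_zero, Finset.prod_const_one]
  simp only [← cf_pos_iff ha k]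
  unfold eps
  rcases lt_or_gt_of_ne (D0_ne b) with hD | hD
  · have hD' : D0 b * ∏ j : Fin h, sin (2 * π * aN a j / M) < 0 := mul_neg_of_neg_of_pos hD hP
    rw [if_neg (not_lt.2 hD.le), if_neg (by
      intro H
      have := H (2 * h) le_rfl
      rw [full_minor b ha k _ le_rfl, hc, mul_one] at this
      linarith)]
    by_cases hall : ∀ i ≤ 2 * h, 0 < cf M a k i
    · rw [if_pos hall, if_pos (by
        intro i hi
        rw [full_minor b ha k i hi]
        exact mul_neg_of_neg_of_pos hD' (hall i hi))]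
      norm_num
    · rw [if_neg hall, if_neg (by
        intro H
        apply hall
        intro i hi
        have := H i hi
        rw [full_minor b ha k i hi] at this
        exact (neg_iff_pos_of_mul_neg this).1 hD')]
      norm_num
  · have hD' : 0 < D0 b * ∏ j : Fin h, sin (2 * π * aN a j / M) := mul_pos hD hP
    rw [if_pos hD]
    by_cases hall : ∀ i ≤ 2 * h, 0 < cf M a k i
    · rw [if_pos hall, if_pos (by
        intro i hi
        rw [full_minor b ha k i hi]
        exact mul_pos hD' (hall i hi))]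
      norm_num
    · rw [if_neg hall, if_neg (by
        intro H
        apply hall
        intro i hi
        have := H i hi
        rw [full_minor b ha k i hi] at this
        exact (pos_iff_pos_of_mul_pos this).1 hD'), if_neg (by
        intro H
        have := H (2 * h) le_rfl
        rw [full_minor b ha k _ le_rfl, hc, mul_one] at this
        linarith)]
      norm_num

theorem pre_sublist {T : Type*} (w : ℕ → ℕ → T) (k : ℕ → ℕ) {i n : ℕ} (hin : i ≤ n) :
    (pre w k i).Sublist (pre w k n) := by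
  induction n with
  | zero =>
    have : i = 0 := by omega
    rw [this]
  | succ n ih =>
    rcases hin.lt_or_eq with h1 | h1
    · exact (ih (by omega)).trans (List.sublist_append_left _ _)
    · rw [h1]

theorem gp_sub {n : ℕ} {l l' : List (Fin n → ℝ)} (hl : GenPos n l) (h' : l'.Sublist l) :
    GenPos n l' := fun l'' h'' hlen => hl l'' (h''.trans h') hlen

end main

end Pool.Agent.H121.Rot

namespace Pool.Agent.H121

open Rot

theorem exists_rotW (h : ℕ) (hh : 1 ≤ h) (M : ℕ) (a : Fin h → ℕ)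
    (ha : ∀ j, 1 ≤ a j ∧ 2 * a j < M ∧ (a j).Coprime M)
    (A : Matrix (Fin (2 * h)) (Fin (2 * h)) ℝ)
    (b : Module.Basis (Fin h × Fin 2) ℝ (Fin (2 * h) → ℝ))
    (hA0 : ∀ j, A.mulVec (b (j, 0)) =
      Real.cos (2 * Real.pi * a j / M) • b (j, 0) + Real.sin (2 * Real.pi * a j / M) • b (j, 1))
    (hA1 : ∀ j, A.mulVec (b (j, 1)) =
      -Real.sin (2 * Real.pi * a j / M) • b (j, 0) + Real.cos (2 * Real.pi * a j / M) • b (j, 1)) :
    ∃ s : ℕ → Ch ℤ (Fin (2 * h) → ℝ),
      IsW ℤ (fun v => A.mulVec v) M (GenPos (2 * h)) (2 * h + 1) s ∧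
      (lin ℤ (eps (2 * h)) (s (2 * h + 1)) = ∏ j, (a j : ℤ) ∨
        lin ℤ (eps (2 * h)) (s (2 * h + 1)) = -∏ j, (a j : ℤ)) := by
  have hM : 0 < M := by have := ha ⟨0, hh⟩; omega
  have hM' : (M : ℝ) ≠ 0 := by exact_mod_cast hM.ne'
  set w := wv b M a with hw
  set p := pv b M with hp
  set x : ℕ → (Fin (2 * h) → ℝ) := fun i => if i < h then w i 0 else p with hx
  have hτ : ∀ j k, (fun v => A.mulVec v) (w j k) = w j (k + 1) := by
    intro j k
    simp only [hw, wv, ev]
    by_cases hj : j < h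
    · rw [dif_pos hj, dif_pos hj, Matrix.mulVec_add, Matrix.mulVec_smul, Matrix.mulVec_smul, hA0,
        hA1]
      have e1 : ph M a j (k + 1) = ph M a j k + 2 * Real.pi * a ⟨j, hj⟩ / M := by
        unfold ph aN
        rw [dif_pos hj]
        push_cast
        ring
      rw [e1, Real.cos_add, Real.sin_add]
      module
    · rw [dif_neg hj, dif_neg hj, Matrix.mulVec_zero]
  have hwM : ∀ j, w j M = w j 0 := by
    intro j
    simp only [hw, wv]
    have e1 : ph M a j M = ph M a j 0 + ((aN a j : ℤ) : ℝ) * (2 * Real.pi) := by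
      unfold ph
      push_cast
      field_simp
      ring
    rw [e1, ev_int]
  have hgen : ∀ k : ℕ → ℕ, GenPos (2 * h) (pre w k h ++ [p]) := full_genPos b ha
  refine ⟨sW ℤ M w x, ⟨sW_zero M w x, ?_, ?_⟩, ?_⟩
  · intro k hk
    exact sW_bd hτ hwM (fun i hi => by simp [hx, hi]) k hk
  · intro k hk
    rcases Nat.eq_zero_or_pos k with h0 | h0
    · subst h0
      rw [sW_zero]
      exact single_mem_K' (gp_sub (hgen 0) (List.nil_sublist _)) rfl 1
    · rcases Nat.even_or_odd k with hk2 | hk2
      · obtain ⟨i, hi⟩ : ∃ i, k = 2 * i + 2 := by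
          obtain ⟨j, hj⟩ := hk2
          exact ⟨j - 1, by omega⟩
        subst hi
        rw [sW_even]
        have h1 := TW_mem (R := ℤ) (M := M) (w := w) (P := GenPos (2 * h)) i [w i 0, w i 1] (by
          intro k'
          have h2 := hgen (Function.update k' i 0)
          have h3 := pre_update w k' i 0
          rw [zero_add] at h3
          rw [← h3]
          exact gp_sub h2 ((pre_sublist w _ (by omega)).trans (List.sublist_append_left _ _)))
        exact h1
      · obtain ⟨i, hi⟩ := hk2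
        subst hi
        rw [sW_odd]
        have h1 := TW_mem (R := ℤ) (M := M) (w := w) (P := GenPos (2 * h)) i [x i] (by
          intro k'
          by_cases hih : i < h
          · have h2 := hgen (Function.update k' i 0)
            have h3 := pre_update w k' i 0
            have h4 : (pre w k' i ++ [x i]).Sublist
                (pre w (Function.update k' i 0) (i + 1)) := by
              rw [h3]
              simp only [hx, if_pos hih]
              exact List.Sublist.append_left (by simp) _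
            exact gp_sub h2 (h4.trans ((pre_sublist w _ (by omega)).trans
              (List.sublist_append_left _ _)))
          · have h5 : i = h := by omega
            subst h5
            simp only [hx, if_neg hih]
            exact hgen k')
        exact h1
  · have h1 := lin_TW_top (M := M) (w := w) (p := p) (eps (2 * h)) (if 0 < D0 b then 1 else -1)
      (fun j r => if 0 < Real.sin (Real.pi / (2 * M) - 2 * Real.pi * aN a j * r / M) ∧
          0 < Real.sin (2 * Real.pi * aN a j * ((r : ℝ) + 1) / M - Real.pi / (2 * M))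
          then (1 : ℤ) else 0) (full_eps b ha)
    have h2 : ∏ j ∈ Finset.range h, ∑ r ∈ Finset.range M,
        (if 0 < Real.sin (Real.pi / (2 * M) - 2 * Real.pi * aN a j * r / M) ∧
          0 < Real.sin (2 * Real.pi * aN a j * ((r : ℝ) + 1) / M - Real.pi / (2 * M))
          then (1 : ℤ) else 0) = ∏ j, (a j : ℤ) := by
      rw [Finset.prod_range]
      refine Finset.prod_congr rfl fun j _ => ?_
      obtain ⟨h3, h4, h5⟩ := aN_prop ha j.2
      rw [trig_count h3 h4 h5]
      unfold aN
      rw [dif_pos j.2]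
    rw [h2] at h1
    have h3 : x h = p := by simp [hx]
    rw [sW_odd, h3, h1]
    by_cases hD : 0 < D0 b
    · left
      rw [if_pos hD, one_mul]
    · right
      rw [if_neg hD, neg_one_mul]

end Pool.Agent.H121
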