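import Pool.Agent.helper121_TH.Basics

/-!
# An element of 2-power order in the symplectic group, killed by all maps to `ℤ/2`
-/

namespace Pool.Agent.H121

open Matrix

namespace TwoElt

variable {g : ℕ}

/-- vectors of `ℤ^{2g}` -/
abbrev Vt (g : ℕ) := Fin g ⊕ Fin g → ℤ

/-- the symplectic form -/
def om (x y : Vt g) : ℤ := x ⬝ᵥ ((J (Fin g) ℤ) *ᵥ y)

theorem J_mulVec_inl (x : Vt g) (a : Fin g) : ((J (Fin g) ℤ) *ᵥ x) (Sum.inl a) = - x (Sum.inr a) := by
  simp [J, Matrix.mulVec, dotProduct, Matrix.fromBlocks, Matrix.one_apply]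

theorem J_mulVec_inr (x : Vt g) (a : Fin g) : ((J (Fin g) ℤ) *ᵥ x) (Sum.inr a) = x (Sum.inl a) := by
  simp [J, Matrix.mulVec, dotProduct, Matrix.fromBlocks, Matrix.one_apply]

theorem om_eq (x y : Vt g) :
    om x y = ∑ a, (x (Sum.inr a) * y (Sum.inl a) - x (Sum.inl a) * y (Sum.inr a)) := by
  unfold om dotProduct
  rw [Fintype.sum_sum_type]
  simp only [J_mulVec_inl, J_mulVec_inr]
  rw [← Finset.sum_add_distrib]
  refine Finset.sum_congr rfl fun a _ => ?_
  ring

theorem om_anti (x y : Vt g) : om x y = - om y x := by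
  rw [om_eq, om_eq, ← Finset.sum_neg_distrib]
  refine Finset.sum_congr rfl fun a _ => ?_
  ring

theorem om_self (x : Vt g) : om x x = 0 := by
  have := om_anti x x
  omega

theorem om_add_left (x y z : Vt g) : om (x + y) z = om x z + om y z := by
  unfold om; rw [add_dotProduct]

theorem om_add_right (x y z : Vt g) : om x (y + z) = om x y + om x z := by
  unfold om; rw [mulVec_add, dotProduct_add]

theorem om_sub_left (x y z : Vt g) : om (x - y) z = om x z - om y z := by
  unfold om; rw [sub_dotProduct]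

theorem om_sub_right (x y z : Vt g) : om x (y - z) = om x y - om x z := by
  unfold om; rw [mulVec_sub, dotProduct_sub]

theorem om_smul_right (x y : Vt g) (c : ℤ) : om x (c • y) = c * om x y := by
  unfold om; rw [mulVec_smul, dotProduct_smul, smul_eq_mul]

/-- the matrix of a transvection -/
def Tm (u : Vt g) : Matrix (Fin g ⊕ Fin g) (Fin g ⊕ Fin g) ℤ :=
  1 + vecMulVec u (u ᵥ* (J (Fin g) ℤ))

theorem Tm_mulVec (u x : Vt g) : Tm u *ᵥ x = x + om u x • u := by
  unfold Tm om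
  rw [add_mulVec, one_mulVec]
  congr 1
  rw [vecMulVec_mulVec, dotProduct_mulVec]
  ext i
  simp [mul_comm]

theorem Tm_mem (u : Vt g) : Tm u ∈ symplecticGroup (Fin g) ℤ := by
  rw [SymplecticGroup.mem_iff']
  apply Matrix.mulVec_injective
  ext1 y
  have key : ∀ x, x ⬝ᵥ (((Tm u)ᵀ * J (Fin g) ℤ * Tm u) *ᵥ y) = x ⬝ᵥ ((J (Fin g) ℤ) *ᵥ y) := by
    intro x
    rw [← mulVec_mulVec, ← mulVec_mulVec, dotProduct_mulVec, vecMul_transpose]
    change om (Tm u *ᵥ x) (Tm u *ᵥ y) = om x y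
    rw [Tm_mulVec, Tm_mulVec, om_add_left, om_add_right, om_add_right, om_smul_right, om_smul_right,
      om_anti (om u x • u) y, om_smul_right, om_anti (om u x • u) u, om_smul_right, om_self,
      om_anti y u, om_anti x u]
    ring
  ext i
  have := key (Pi.single i 1)
  simpa using this

/-- the transvection -/
def T (u : Vt g) : symplecticGroup (Fin g) ℤ := ⟨Tm u, Tm_mem u⟩

theorem T_coe (u : Vt g) : ((T u : symplecticGroup (Fin g) ℤ) :
    Matrix (Fin g ⊕ Fin g) (Fin g ⊕ Fin g) ℤ) = Tm u := rfl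

theorem om_act (M : symplecticGroup (Fin g) ℤ) (x y : Vt g) :
    om (M.1 *ᵥ x) (M.1 *ᵥ y) = om x y := by
  have h := SymplecticGroup.mem_iff'.1 M.2
  unfold om
  rw [← vecMul_transpose, ← dotProduct_mulVec, mulVec_mulVec, mulVec_mulVec, h]

theorem ext_sp {M N : symplecticGroup (Fin g) ℤ} (h : ∀ x, M.1 *ᵥ x = N.1 *ᵥ x) : M = N :=
  Subtype.ext (Matrix.mulVec_injective (funext h))

theorem T_conj (M : symplecticGroup (Fin g) ℤ) (u : Vt g) : M * T u = T (M.1 *ᵥ u) * M := by
  apply ext_sp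
  intro x
  change (M.1 * Tm u) *ᵥ x = (Tm (M.1 *ᵥ u) * M.1) *ᵥ x
  rw [← mulVec_mulVec, ← mulVec_mulVec, Tm_mulVec, Tm_mulVec, om_act, mulVec_add, mulVec_smul]

section hom
variable (φ : symplecticGroup (Fin g) ℤ →* Multiplicative (ZMod 2))

theorem sq_one (x : Multiplicative (ZMod 2)) : x * x = 1 := by
  revert x
  decide

theorem tv_act (M : symplecticGroup (Fin g) ℤ) (u : Vt g) : φ (T (M.1 *ᵥ u)) = φ (T u) := by
  have h := congrArg φ (T_conj M u)
  rw [map_mul, map_mul, mul_comm] at h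
  exact (mul_right_cancel h).symm

theorem tv_nb {x y : Vt g} (h : om y x = 1 ∨ om x y = 1) : φ (T x) = φ (T y) := by
  have key : ∀ x y : Vt g, om y x = 1 → φ (T y) = φ (T x) := by
    intro x y h
    have h1 := tv_act φ (T (y - x)) x
    rw [T_coe, Tm_mulVec, om_sub_left, om_self, h, sub_zero, one_smul] at h1
    rw [← h1]
    congr 2
    abel
  rcases h with h | h
  · exact (key x y h).symm
  · exact key y x h

end hom

/-- first basis vectors -/
def e (a : Fin g) : Vt g := Pi.single (Sum.inl a) 1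

/-- second basis vectors -/
def f (a : Fin g) : Vt g := Pi.single (Sum.inr a) 1

theorem om_e (a : Fin g) (x : Vt g) : om (e a) x = - x (Sum.inr a) := by
  unfold om e
  rw [single_one_dotProduct, J_mulVec_inl]

theorem om_f (a : Fin g) (x : Vt g) : om (f a) x = x (Sum.inl a) := by
  unfold om f
  rw [single_one_dotProduct, J_mulVec_inr]

theorem e_inl (a b : Fin g) : e a (Sum.inl b) = if b = a then 1 else 0 := by
  simp [e, Pi.single_apply]

theorem e_inr (a b : Fin g) : e a (Sum.inr b) = 0 := by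
  simp [e, Pi.single_apply]

theorem f_inr (a b : Fin g) : f a (Sum.inr b) = if b = a then 1 else 0 := by
  simp [f, Pi.single_apply]

theorem f_inl (a b : Fin g) : f a (Sum.inl b) = 0 := by
  simp [f, Pi.single_apply]

section hom
variable (φ : symplecticGroup (Fin g) ℤ →* Multiplicative (ZMod 2))

theorem tv_ef (a : Fin g) : φ (T (e a)) = φ (T (f a)) := by
  apply tv_nb
  left
  rw [om_f, e_inl, if_pos rfl]

theorem tv_e (a b : Fin g) : φ (T (e a)) = φ (T (e b)) := by
  by_cases hab : a = b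
  · rw [hab]
  have h1 : φ (T (e a)) = φ (T (f a + f b)) := by
    apply tv_nb
    left
    rw [om_add_left, om_f, om_f, e_inl, e_inl, if_pos rfl, if_neg (Ne.symm hab), add_zero]
  have h2 : φ (T (e b)) = φ (T (f a + f b)) := by
    apply tv_nb
    left
    rw [om_add_left, om_f, om_f, e_inl, e_inl, if_neg hab, if_pos rfl, zero_add]
  rw [h1, h2]

end hom

/-- multiplication by `i` at the place `a` -/
def Ia (a : Fin g) : symplecticGroup (Fin g) ℤ := T (e a) * T (f a) * T (e a)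

theorem Ia_mulVec (a : Fin g) (x : Vt g) :
    (Ia a).1 *ᵥ x = fun i => match i with
      | Sum.inl b => if b = a then - x (Sum.inr a) else x (Sum.inl b)
      | Sum.inr b => if b = a then x (Sum.inl a) else x (Sum.inr b) := by
  change (Tm (e a) * Tm (f a) * Tm (e a)) *ᵥ x = _
  rw [← mulVec_mulVec, ← mulVec_mulVec, Tm_mulVec, Tm_mulVec, Tm_mulVec]
  simp only [om_e, om_f, Pi.add_apply, Pi.smul_apply, smul_eq_mul, e_inl, e_inr, f_inl, f_inr]
  ext i
  rcases i with b | b
  · simp only [Pi.add_apply, Pi.smul_apply, smul_eq_mul, e_inl, e_inr, f_inl, f_inr]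
    by_cases h : b = a
    · subst h; simp; try ring
    · simp [h]
  · simp only [Pi.add_apply, Pi.smul_apply, smul_eq_mul, e_inl, e_inr, f_inl, f_inr]
    by_cases h : b = a
    · subst h; simp; try ring
    · simp [h]

theorem phi_Ia (φ : symplecticGroup (Fin g) ℤ →* Multiplicative (ZMod 2)) (a : Fin g) :
    φ (Ia a) = φ (T (e a)) := by
  unfold Ia
  rw [map_mul, map_mul, ← tv_ef, mul_assoc, sq_one, mul_one]

/-- permutation matrices -/
def Pm (π : Equiv.Perm (Fin g)) : Matrix (Fin g ⊕ Fin g) (Fin g ⊕ Fin g) ℤ :=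
  Matrix.of fun i j => if Sum.map π.symm π.symm i = j then 1 else 0

theorem Pm_mulVec (π : Equiv.Perm (Fin g)) (x : Vt g) (i : Fin g ⊕ Fin g) :
    (Pm π *ᵥ x) i = x (Sum.map π.symm π.symm i) := by
  unfold Pm Matrix.mulVec dotProduct
  simp

theorem Pm_mem (π : Equiv.Perm (Fin g)) : Pm π ∈ symplecticGroup (Fin g) ℤ := by
  rw [SymplecticGroup.mem_iff']
  apply Matrix.mulVec_injective
  ext1 y
  have key : ∀ x, x ⬝ᵥ (((Pm π)ᵀ * J (Fin g) ℤ * Pm π) *ᵥ y) = x ⬝ᵥ ((J (Fin g) ℤ) *ᵥ y) := by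
    intro x
    rw [← mulVec_mulVec, ← mulVec_mulVec, dotProduct_mulVec, vecMul_transpose]
    change om (Pm π *ᵥ x) (Pm π *ᵥ y) = om x y
    rw [om_eq, om_eq]
    simp only [Pm_mulVec, Sum.map_inl, Sum.map_inr]
    exact Equiv.sum_comp π.symm (fun a => x (Sum.inr a) * y (Sum.inl a) -
      x (Sum.inl a) * y (Sum.inr a))
  ext i
  have := key (Pi.single i 1)
  simpa using this

/-- permutations of the places -/
def P : Equiv.Perm (Fin g) →* symplecticGroup (Fin g) ℤ where
  toFun π := ⟨Pm π, Pm_mem π⟩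
  map_one' := by
    apply ext_sp
    intro x
    ext i
    change (Pm 1 *ᵥ x) i = ((1 : Matrix _ _ ℤ) *ᵥ x) i
    rw [Pm_mulVec, one_mulVec]
    rcases i with a | a <;> rfl
  map_mul' π ρ := by
    apply ext_sp
    intro x
    ext i
    change (Pm (π * ρ) *ᵥ x) i = ((Pm π * Pm ρ) *ᵥ x) i
    rw [← mulVec_mulVec, Pm_mulVec, Pm_mulVec, Pm_mulVec]
    rcases i with a | a <;> rfl

theorem P_mulVec (π : Equiv.Perm (Fin g)) (x : Vt g) (i : Fin g ⊕ Fin g) :
    ((P π).1 *ᵥ x) i = x (Sum.map π.symm π.symm i) := Pm_mulVec π x i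

theorem P_swap {a b : Fin g} (hab : a ≠ b) :
    P (Equiv.swap a b) = T (e a - e b - (f a - f b)) * T (e a - e b) * T (f a - f b) := by
  apply ext_sp
  intro x
  change _ = (Tm (e a - e b - (f a - f b)) * Tm (e a - e b) * Tm (f a - f b)) *ᵥ x
  rw [← mulVec_mulVec, ← mulVec_mulVec, Tm_mulVec, Tm_mulVec, Tm_mulVec]
  simp only [om_sub_left, om_e, om_f, Pi.add_apply, Pi.sub_apply, Pi.smul_apply, smul_eq_mul, e_inl,
    e_inr, f_inl, f_inr]
  ext i
  rw [P_mulVec]
  rcases i with c | c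
  · simp only [Pi.add_apply, Pi.sub_apply, Pi.smul_apply, smul_eq_mul, e_inl, e_inr, f_inl, f_inr,
      Sum.map_inl, Equiv.symm_swap]
    by_cases h : c = a
    · subst h
      simp [hab, Ne.symm hab, Equiv.swap_apply_left]
      ring
    · by_cases h' : c = b
      · subst h'
        simp [hab, Ne.symm hab, Equiv.swap_apply_right]
        ring
      · simp [h, h', Equiv.swap_apply_of_ne_of_ne h h']
  · simp only [Pi.add_apply, Pi.sub_apply, Pi.smul_apply, smul_eq_mul, e_inl, e_inr, f_inl, f_inr,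
      Sum.map_inr, Equiv.symm_swap]
    by_cases h : c = a
    · subst h
      simp [hab, Ne.symm hab, Equiv.swap_apply_left]
      try ring
    · by_cases h' : c = b
      · subst h'
        simp [hab, Ne.symm hab, Equiv.swap_apply_right]
        try ring
      · simp [h, h', Equiv.swap_apply_of_ne_of_ne h h']

section hom
variable (φ : symplecticGroup (Fin g) ℤ →* Multiplicative (ZMod 2))

theorem phi_swap {a b : Fin g} (hab : a ≠ b) : φ (P (Equiv.swap a b)) = φ (T (e a)) := by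
  have h1 : φ (T (e a - e b)) = φ (T (f a)) := by
    apply tv_nb
    left
    rw [om_f, Pi.sub_apply, e_inl, e_inl, if_pos rfl, if_neg hab, sub_zero]
  have h2 : φ (T (f a - f b)) = φ (T (e a)) := by
    apply tv_nb
    right
    rw [om_sub_left, om_f, om_f, e_inl, e_inl, if_pos rfl, if_neg (Ne.symm hab), sub_zero]
  have h3 : φ (T (e a - e b - (f a - f b))) = φ (T (e a)) := by
    apply tv_nb
    left
    rw [om_e, Pi.sub_apply, Pi.sub_apply, Pi.sub_apply, e_inr, e_inr, f_inr, f_inr, if_pos rfl,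
      if_neg hab]
    norm_num
  rw [P_swap hab, map_mul, map_mul, h1, h2, h3, ← tv_ef, mul_assoc, sq_one, mul_one]

theorem phi_P (a₀ : Fin g) (π : Equiv.Perm (Fin g)) :
    φ (P π) = if Equiv.Perm.sign π = 1 then 1 else φ (T (e a₀)) := by
  induction π using Equiv.Perm.swap_induction_on with
  | one => simp
  | swap_mul π x y hxy ih =>
    rw [map_mul, map_mul, phi_swap φ hxy, ih, tv_e φ x a₀, Equiv.Perm.sign_mul,
      Equiv.Perm.sign_swap hxy]
    rcases Int.units_eq_one_or (Equiv.Perm.sign π) with h | h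
    · rw [h, if_pos rfl, if_neg (by decide), mul_one]
    · rw [h, if_neg (by decide), if_pos (by decide), sq_one]

theorem tv_three {a b c : Fin g} (hab : a ≠ b) (hac : a ≠ c) (hbc : b ≠ c) :
    φ (T (e a)) = 1 := by
  have hoe : ∀ i j : Fin g, om (e i) (e j) = 0 := by
    intro i j
    rw [om_e, e_inr, neg_zero]
  have hrel : T (e a + e b + e c) * T (e a) * T (e b) * T (e c) =
      T (e a + e b) * T (e b + e c) * T (e a + e c) := by
    apply ext_sp
    intro x
    change (Tm (e a + e b + e c) * Tm (e a) * Tm (e b) * Tm (e c)) *ᵥ x =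
      (Tm (e a + e b) * Tm (e b + e c) * Tm (e a + e c)) *ᵥ x
    rw [← mulVec_mulVec, ← mulVec_mulVec, ← mulVec_mulVec, ← mulVec_mulVec, ← mulVec_mulVec]
    simp only [Tm_mulVec, om_add_left, om_add_right, om_smul_right, hoe, mul_zero, add_zero]
    generalize om (e a) x = p
    generalize om (e b) x = q
    generalize om (e c) x = r
    ext i
    simp only [Pi.add_apply, Pi.smul_apply, smul_eq_mul]
    ring
  have h0 : ∀ u : Vt g, u (Sum.inl a) = 1 → φ (T u) = φ (T (e a)) := by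
    intro u hu
    rw [tv_ef]
    apply tv_nb
    left
    rw [om_f, hu]
  have h0b : ∀ u : Vt g, u (Sum.inl b) = 1 → φ (T u) = φ (T (e a)) := by
    intro u hu
    rw [tv_e φ a b, tv_ef]
    apply tv_nb
    left
    rw [om_f, hu]
  have h := congrArg φ hrel
  simp only [map_mul] at h
  rw [h0 (e a + e b + e c) (by simp [e_inl, hab, hac]), tv_e φ b a, tv_e φ c a,
    h0 (e a + e b) (by simp [e_inl, hab]), h0 (e a + e c) (by simp [e_inl, hac]),
    h0b (e b + e c) (by simp [e_inl, hbc])] at h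
  rw [sq_one, one_mul] at h
  simpa using h.symm

end hom

/-- the twisted cyclic shift -/
def Kt (n : ℕ) : symplecticGroup (Fin (n + 1)) ℤ := Ia 0 * P (finRotate (n + 1))

theorem Kt_inl (n : ℕ) (x : Vt (n + 1)) (a : Fin (n + 1)) :
    ((Kt n).1 *ᵥ x) (Sum.inl a) = if a = 0 then - x (Sum.inr (a - 1)) else x (Sum.inl (a - 1)) := by
  change (((Ia 0).1 * (P (finRotate (n + 1))).1) *ᵥ x) (Sum.inl a) = _
  rw [← mulVec_mulVec, Ia_mulVec]
  simp only [P_mulVec, Sum.map_inl, Sum.map_inr, finRotate_symm_apply]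
  by_cases h : a = 0
  · rw [if_pos h, if_pos h, h]
  · rw [if_neg h, if_neg h]

theorem Kt_inr (n : ℕ) (x : Vt (n + 1)) (a : Fin (n + 1)) :
    ((Kt n).1 *ᵥ x) (Sum.inr a) = if a = 0 then x (Sum.inl (a - 1)) else x (Sum.inr (a - 1)) := by
  change (((Ia 0).1 * (P (finRotate (n + 1))).1) *ᵥ x) (Sum.inr a) = _
  rw [← mulVec_mulVec, Ia_mulVec]
  simp only [P_mulVec, Sum.map_inl, Sum.map_inr, finRotate_symm_apply]
  by_cases h : a = 0
  · rw [if_pos h, if_pos h, h]
  · rw [if_neg h, if_neg h]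

theorem Kt_pow (n k : ℕ) (hk : k ≤ n + 1) (x : Vt (n + 1)) (a : Fin (n + 1)) :
    ((Kt n ^ k).1 *ᵥ x) (Sum.inl a) =
      (if k ≤ a.val then x (Sum.inl (a - Fin.ofNat (n + 1) k)) else - x (Sum.inr (a - Fin.ofNat (n + 1) k))) ∧
    ((Kt n ^ k).1 *ᵥ x) (Sum.inr a) =
      (if k ≤ a.val then x (Sum.inr (a - Fin.ofNat (n + 1) k)) else x (Sum.inl (a - Fin.ofNat (n + 1) k))) := by
  induction k generalizing a with
  | zero =>
    have h0 : Fin.ofNat (n + 1) 0 = 0 := rfl
    simp [h0]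
  | succ k ih =>
    have ih' := fun a => ih (by omega) a
    have hsub : a - 1 - Fin.ofNat (n + 1) k = a - Fin.ofNat (n + 1) (k + 1) := by
      have h1 : Fin.ofNat (n + 1) (k + 1) = Fin.ofNat (n + 1) k + 1 := by
        apply Fin.ext
        simp [Fin.val_add, Fin.val_one']
      rw [h1]
      abel
    have hmul : (Kt n ^ (k + 1)).1 *ᵥ x = (Kt n).1 *ᵥ ((Kt n ^ k).1 *ᵥ x) := by
      rw [pow_succ', mulVec_mulVec]
      rfl
    rw [hmul, Kt_inl, Kt_inr, (ih' (a - 1)).1, (ih' (a - 1)).2, hsub]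
    by_cases ha : a = 0
    · subst ha
      have h1 : k ≤ ((0 : Fin (n + 1)) - 1).val := by
        rw [zero_sub, Fin.coe_neg_one]
        omega
      rw [if_pos rfl, if_pos rfl, if_pos h1, if_pos h1, if_neg (by simp), if_neg (by simp)]
      exact ⟨rfl, rfl⟩
    · have h1 : (a - 1).val = a.val - 1 := by
        rw [Fin.val_sub_one_of_ne_zero ha]
      have h2 : 0 < a.val := Nat.pos_of_ne_zero fun h => ha (Fin.ext h)
      rw [h1]
      by_cases h3 : k + 1 ≤ a.val
      · have h4 : k ≤ a.val - 1 := by omega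
        simp [ha, h3, h4]
      · have h4 : ¬ k ≤ a.val - 1 := by omega
        simp [ha, h3, h4]

theorem Kt_pow_g (n : ℕ) : Kt n ^ (n + 1) = SymplecticGroup.symJ (Fin (n + 1)) ℤ := by
  apply ext_sp
  intro x
  have hc : Fin.ofNat (n + 1) (n + 1) = 0 := by
    apply Fin.ext
    simp
  ext i
  rcases i with a | a
  · rw [(Kt_pow n (n + 1) le_rfl x a).1, if_neg (by have := a.2; omega), hc, sub_zero]
    exact (J_mulVec_inl x a).symm
  · rw [(Kt_pow n (n + 1) le_rfl x a).2, if_neg (by have := a.2; omega), hc, sub_zero]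
    exact (J_mulVec_inr x a).symm

theorem phi_Kt (n : ℕ) (hn : 1 ≤ n)
    (φ : symplecticGroup (Fin (n + 1)) ℤ →* Multiplicative (ZMod 2)) : φ (Kt n) = 1 := by
  unfold Kt
  rw [map_mul, phi_Ia, phi_P φ 0, sign_finRotate, Nat.add_sub_cancel]
  rcases Nat.even_or_odd n with h | h
  · rw [h.neg_one_pow, if_pos rfl, mul_one]
    have h2 : 2 ≤ n := by
      obtain ⟨k, hk⟩ := h
      omega
    refine tv_three φ (a := 0) (b := ⟨1, by omega⟩) (c := ⟨2, by omega⟩) ?_ ?_ ?_ <;>
      simp [Fin.ext_iff]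
  · rw [h.neg_one_pow, if_neg (by decide), sq_one]

/-- the bijection of index sets -/
def ix (g : ℕ) : Fin g ⊕ Fin g ≃ Fin g × Fin 2 where
  toFun := Sum.elim (fun a => (a, 0)) (fun a => (a, 1))
  invFun p := if p.2 = 0 then Sum.inl p.1 else Sum.inr p.1
  left_inv := by rintro (a | a) <;> simp
  right_inv := by
    rintro ⟨a, c⟩
    fin_cases c <;> simp

end TwoElt

open TwoElt in
theorem exists_two_elt (g : ℕ) (hg : 1 ≤ g) :
    ∃ J : Matrix.symplecticGroup (Fin g) ℤ, J ^ (2 ^ (2 + padicValNat 2 g)) = 1 ∧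
      ((J ^ (2 ^ (1 + padicValNat 2 g)) : Matrix.symplecticGroup (Fin g) ℤ) :
        Matrix (Fin g ⊕ Fin g) (Fin g ⊕ Fin g) ℤ) = -1 ∧
      (∃ b : Module.Basis (Fin g × Fin 2) ℝ (Fin (2 * g) → ℝ),
        (∀ j, slVec (toSL g (J ^ (2 ^ padicValNat 2 g))) (b (j, 0)) = b (j, 1)) ∧
        (∀ j, slVec (toSL g (J ^ (2 ^ padicValNat 2 g))) (b (j, 1)) = - b (j, 0))) ∧
      (2 ≤ g → ∀ φ : Matrix.symplecticGroup (Fin g) ℤ →* Multiplicative (ZMod 2), φ J = 1) := by
  obtain ⟨n, rfl⟩ : ∃ n, g = n + 1 := ⟨g - 1, by omega⟩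
  set v := padicValNat 2 (n + 1) with hv
  obtain ⟨t, ht⟩ : 2 ^ v ∣ n + 1 := pow_padicValNat_dvd
  have hJs : (Kt n ^ t) ^ (2 ^ v) = SymplecticGroup.symJ (Fin (n + 1)) ℤ := by
    rw [← pow_mul, mul_comm, ← ht, Kt_pow_g]
  have hJ2 : ((Kt n ^ t) ^ (2 ^ (1 + v))).1 = -1 := by
    rw [pow_add, pow_one, mul_comm, pow_mul, hJs, pow_two]
    exact Matrix.J_squared _ _
  refine ⟨Kt n ^ t, ?_, hJ2, ?_, ?_⟩
  · apply Subtype.ext
    have h1 : (Kt n ^ t) ^ (2 ^ (2 + v)) = (Kt n ^ t) ^ (2 ^ (1 + v)) * (Kt n ^ t) ^ (2 ^ (1 + v)) := by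
      rw [← pow_add]
      congr 1
      rw [show 2 + v = (1 + v) + 1 by ring, pow_succ]
      ring
    rw [h1]
    change ((Kt n ^ t) ^ (2 ^ (1 + v))).1 * ((Kt n ^ t) ^ (2 ^ (1 + v))).1 = 1
    rw [hJ2]
    simp
  · rw [hJs]
    let b : Module.Basis (Fin (n + 1) × Fin 2) ℝ (Fin (2 * (n + 1)) → ℝ) :=
      (Pi.basisFun ℝ (Fin (2 * (n + 1)))).reindex ((spEquiv (n + 1)).symm.trans (ix (n + 1)))
    have hb0 : ∀ j, b (j, 0) = Pi.single (spEquiv (n + 1) (Sum.inl j)) 1 := by
      intro j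
      simp [b, ix, Module.Basis.reindex_apply]
    have hb1 : ∀ j, b (j, 1) = Pi.single (spEquiv (n + 1) (Sum.inr j)) 1 := by
      intro j
      simp [b, ix, Module.Basis.reindex_apply]
    refine ⟨b, fun j => ?_, fun j => ?_⟩
    · rw [hb0, hb1]
      ext i
      obtain ⟨i, rfl⟩ := (spEquiv (n + 1)).surjective i
      unfold slVec
      rw [mulVec_single_one]
      change (((Matrix.reindex (spEquiv (n + 1)) (spEquiv (n + 1))
        (J (Fin (n + 1)) ℤ)) (spEquiv (n + 1) i) (spEquiv (n + 1) (Sum.inl j)) : ℤ) : ℝ) = _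
      rw [Matrix.reindex_apply, Matrix.submatrix_apply, Equiv.symm_apply_apply,
        Equiv.symm_apply_apply, Pi.single_apply]
      rcases i with a | a
      · simp [J]
      · simp [J, Matrix.one_apply]
    · rw [hb0, hb1]
      ext i
      obtain ⟨i, rfl⟩ := (spEquiv (n + 1)).surjective i
      unfold slVec
      rw [mulVec_single_one]
      change (((Matrix.reindex (spEquiv (n + 1)) (spEquiv (n + 1))
        (J (Fin (n + 1)) ℤ)) (spEquiv (n + 1) i) (spEquiv (n + 1) (Sum.inr j)) : ℤ) : ℝ) = _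
      rw [Matrix.reindex_apply, Matrix.submatrix_apply, Equiv.symm_apply_apply,
        Equiv.symm_apply_apply, Pi.neg_apply, Pi.single_apply]
      rcases i with a | a
      · by_cases h : a = j
        · simp [J, Matrix.one_apply, h]
        · simp [J, Matrix.one_apply, h]
      · simp [J]
  · intro h2 φ
    rw [map_pow, phi_Kt n (by omega) φ, one_pow]

end Pool.Agent.H121
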