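import Pool.Agent.helper121_TH.Cyc

/-!
# Prism operators and the algebraic part of the upper bound
-/

namespace Pool.Agent.H121

section prism
variable {R : Type*} [CommRing R] {G : Type*} [Group G]

theorem prismL_cons (g t : G) (r : List G) :
    prismL R g (t :: r) = cone R t (cone R (g * t) (Finsupp.single (r.map (g * ·)) 1)) -
      cone R t (prismL R g r) := rfl

/-- The prism operator on chains. -/
noncomputable def prism (R : Type*) [CommRing R] {G : Type*} [Group G] (g : G) :
    Ch R G →ₗ[R] Ch R G := lin R (prismL R g)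

theorem prism_single (g : G) (l : List G) : prism R g (Finsupp.single l 1) = prismL R g l := by
  simp [prism]

theorem prism_cone (g t : G) (c : Ch R G) :
    prism R g (cone R t c) = cone R t (cone R (g * t) (mp R (g * ·) c)) -
      cone R t (prism R g c) := by
  have : (prism R g).comp (cone R t) = (cone R t).comp ((cone R (g * t)).comp (mp R (g * ·))) -
      (cone R t).comp (prism R g) := by
    apply ch_ext
    intro l
    simp [prism, prismL_cons]
  exact LinearMap.congr_fun this c

theorem bd_prismL (g : G) (l : List G) :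
    bd R (prismL R g l) + prism R g (bdL R l) =
      Finsupp.single (l.map (g * ·)) 1 - Finsupp.single l 1 := by
  induction l with
  | nil => simp [prismL]
  | cons t r ih =>
    have e1 : prism R g (bdL R r) = Finsupp.single (r.map (g * ·)) 1 - Finsupp.single r 1 -
        bd R (prismL R g r) := by rw [← ih]; abel
    rw [prismL_cons, map_sub, bd_cone, bd_cone, bd_cone, bd_single, bdL_cons,
      map_sub (prism R g), prism_single, prism_cone, mp_bdL, e1]
    simp only [map_sub, cone_single, List.map_cons, one_smul]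
    abel

theorem bd_prism (g : G) (c : Ch R G) :
    bd R (prism R g c) + prism R g (bd R c) = mp R (g * ·) c - c := by
  have : (bd R).comp (prism R g) + (prism R g).comp (bd R) = mp R (g * ·) - LinearMap.id := by
    apply ch_ext
    intro l
    simp only [LinearMap.add_apply, LinearMap.comp_apply, LinearMap.sub_apply, prism_single,
      bd_single, one_smul, mp_single, LinearMap.id_apply]
    exact bd_prismL g l
  exact LinearMap.congr_fun this c

theorem prismL_equiv (γ g : G) (l : List G) :
    prismL R (γ * g * γ⁻¹) (l.map (γ * ·)) = mp R (γ * ·) (prismL R g l) := by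
  induction l with
  | nil => simp [prismL]
  | cons t r ih =>
    rw [List.map_cons, prismL_cons, prismL_cons, ih, map_sub, mp_cone, mp_cone, mp_cone, mp_single]
    have h1 : γ * g * γ⁻¹ * (γ * t) = γ * (g * t) := by group
    have h2 : (r.map (γ * ·)).map (γ * g * γ⁻¹ * ·) = (r.map (g * ·)).map (γ * ·) := by
      simp only [List.map_map]
      apply List.map_congr_left
      intro a _
      simp only [Function.comp_apply]
      group
    rw [h1, h2]

theorem prism_equiv (γ g : G) (c : Ch R G) :
    prism R (γ * g * γ⁻¹) (mp R (γ * ·) c) = mp R (γ * ·) (prism R g c) := by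
  have : (prism R (γ * g * γ⁻¹)).comp (mp R (γ * ·)) = (mp R (γ * ·)).comp (prism R g) := by
    apply ch_ext
    intro l
    simp only [LinearMap.comp_apply, mp_single, prism_single]
    exact prismL_equiv γ g l
  exact LinearMap.congr_fun this c

theorem prismL_mem (g : G) (l : List G) :
    prismL R g l ∈ K R (fun _ : List G => True) (l.length + 1) := by
  induction l with
  | nil => exact Submodule.zero_mem _
  | cons t r ih =>
    rw [prismL_cons]
    refine Submodule.sub_mem _ ?_ (cone_mem_K t ih (fun _ _ => trivial))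
    simp only [cone_single]
    exact single_mem_K' trivial (by simp) 1

end prism

section upalg

variable {Γ : Type*} [Group Γ] {A : Type*} [Fintype A] (q : ℤ) (s : Γ → A → Γ)

/-- The homotopy operator at `x`. -/
noncomputable def Hop (x : Γ) : Ch ℤ Γ →ₗ[ℤ] Ch ℤ Γ := - ∑ α, prism ℤ (s x α)

/-- The recursive chains. -/
noncomputable def YL : List Γ → Ch ℤ Γ
  | [] => 0
  | x :: r => Hop s x (q ^ r.length • Finsupp.single (x :: r) 1 - YL r)

theorem YL_cons (x : Γ) (r : List Γ) :
    YL q s (x :: r) = Hop s x (q ^ r.length • Finsupp.single (x :: r) 1 - YL q s r) := rfl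

/-- scaling by `q ^ length` -/
noncomputable def Dq {T : Type*} : Ch ℤ T →ₗ[ℤ] Ch ℤ T :=
  lin ℤ (fun l => q ^ l.length • Finsupp.single l 1)

theorem Dq_cone {T : Type*} (t : T) (c : Ch ℤ T) : Dq q (cone ℤ t c) = q • cone ℤ t (Dq q c) := by
  have : (Dq q).comp (cone ℤ t) = q • (cone ℤ t).comp (Dq q) := by
    apply ch_ext
    intro l
    simp [Dq, pow_succ, mul_comm]
  exact LinearMap.congr_fun this c

theorem Dq_bdL {T : Type*} (l : List T) : q • Dq q (bdL ℤ l) = q ^ l.length • bdL ℤ l := by
  induction l with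
  | nil => simp
  | cons t r ih =>
    have h1 : q • q • cone ℤ t (Dq q (bdL ℤ r)) = q • cone ℤ t (q ^ r.length • bdL ℤ r) := by
      rw [← map_smul (cone ℤ t), ih]
    rw [bdL_cons, map_sub, Dq_cone, smul_sub, h1]
    simp only [Dq, lin_single, List.length_cons, pow_succ, smul_sub, map_smul, one_mul, smul_smul,
      mul_comm q]

theorem YL_hat_cone (x : Γ) (c : Ch ℤ Γ) :
    lin ℤ (YL q s) (cone ℤ x c) = Hop s x (cone ℤ x (Dq q c) - lin ℤ (YL q s) c) := by
  have : (lin ℤ (YL q s)).comp (cone ℤ x) =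
      (Hop s x).comp ((cone ℤ x).comp (Dq q) - lin ℤ (YL q s)) := by
    apply ch_ext
    intro l
    simp [Dq, YL_cons]
  exact LinearMap.congr_fun this c

variable {M : Type*} [AddCommGroup M] (t : A → M →ₗ[ℤ] M)

/-- Good functionals. -/
structure Good (F : Ch ℤ Γ →ₗ[ℤ] M) : Prop where
  act : ∀ x α c, F (mp ℤ (s x α * ·) c) = t α (F c)
  sum : ∀ c, ∑ α, (F c - t α (F c)) = q • F c

variable {q s t}

theorem Good.homotopy {F : Ch ℤ Γ →ₗ[ℤ] M} (hF : Good q s t F) (x : Γ) (c : Ch ℤ Γ) :
    F (bd ℤ (Hop s x c)) + F (Hop s x (bd ℤ c)) = q • F c := by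
  rw [← hF.sum c, ← map_add]
  have : bd ℤ (Hop s x c) + Hop s x (bd ℤ c) = ∑ α, (c - mp ℤ (s x α * ·) c) := by
    simp only [Hop, LinearMap.neg_apply, LinearMap.sum_apply, map_neg, map_sum]
    rw [← neg_add, ← Finset.sum_add_distrib, ← Finset.sum_neg_distrib]
    refine Finset.sum_congr rfl fun α _ => ?_
    rw [bd_prism]
    abel
  rw [this, map_sum]
  refine Finset.sum_congr rfl fun α _ => ?_
  rw [map_sub, hF.act]

theorem Hop_comm (hcomm : ∀ x α y β, s x α * s y β = s y β * s x α) (x y : Γ) (α : A)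
    (c : Ch ℤ Γ) : Hop s y (mp ℤ (s x α * ·) c) = mp ℤ (s x α * ·) (Hop s y c) := by
  simp only [Hop, LinearMap.neg_apply, LinearMap.sum_apply, map_neg, map_sum]
  congr 1
  refine Finset.sum_congr rfl fun β _ => ?_
  rw [← prism_equiv, hcomm x α y β, mul_inv_cancel_right]

theorem Good.comp (hcomm : ∀ x α y β, s x α * s y β = s y β * s x α)
    {F : Ch ℤ Γ →ₗ[ℤ] M} (hF : Good q s t F) (y : Γ) : Good q s t (F.comp (Hop s y)) := by
  refine ⟨fun x α c => ?_, fun c => hF.sum _⟩
  rw [LinearMap.comp_apply, Hop_comm hcomm, hF.act]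
  rfl

theorem Good.main (hcomm : ∀ x α y β, s x α * s y β = s y β * s x α)
    (htf : ∀ x : M, q • x = 0 → x = 0) [Nonempty Γ] (l : List Γ) :
    ∀ {F : Ch ℤ Γ →ₗ[ℤ] M}, Good q s t F →
      F (bd ℤ (YL q s l)) + q • F (lin ℤ (YL q s) (bdL ℤ l)) =
        q ^ l.length • F (Finsupp.single l 1) := by
  induction l with
  | nil =>
    intro F hF
    have h1 : F (Finsupp.single [] 1) = 0 := by
      apply htf
      rw [← hF.sum]
      apply Finset.sum_eq_zero
      intro α _
      have := hF.act 1 α (Finsupp.single [] 1)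
      rw [mp_single, List.map_nil] at this
      rw [← this, sub_self]
    simp [YL, h1]
  | cons x r ih =>
    intro F hF
    have h1 := hF.homotopy x (q ^ r.length • Finsupp.single (x :: r) 1 - YL q s r)
    have h2 := ih (hF.comp hcomm x)
    simp only [LinearMap.comp_apply] at h2
    have h3 : q • F (lin ℤ (YL q s) (bdL ℤ (x :: r))) = q • F (YL q s r) -
        q ^ r.length • F (Hop s x (cone ℤ x (bdL ℤ r))) +
          q • F (Hop s x (lin ℤ (YL q s) (bdL ℤ r))) := by
      rw [bdL_cons, map_sub, YL_hat_cone, lin_single, one_smul]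
      have : q ^ r.length • F (Hop s x (cone ℤ x (bdL ℤ r))) =
          q • F (Hop s x (cone ℤ x (Dq q (bdL ℤ r)))) := by
        rw [← map_smul, ← map_smul, ← map_smul, ← Dq_bdL, map_smul, map_smul, map_smul]
      rw [this]
      simp only [map_sub, smul_sub]
      abel
    rw [h3]
    have h4 : F (bd ℤ (YL q s (x :: r))) =
        q • F (q ^ r.length • Finsupp.single (x :: r) 1 - YL q s r) -
          F (Hop s x (bd ℤ (q ^ r.length • Finsupp.single (x :: r) 1 - YL q s r))) := by
      rw [← h1, YL_cons]; abel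
    rw [h4]
    simp only [map_sub, map_smul, bd_single, one_smul, bdL_cons, smul_sub, smul_smul,
      List.length_cons, pow_succ, mul_comm q]
    have h5 : F (Hop s x (bd ℤ (YL q s r))) = q ^ r.length • F (Hop s x (Finsupp.single r 1)) -
        q • F (Hop s x (lin ℤ (YL q s) (bdL ℤ r))) := by
      rw [← h2]; abel
    rw [h5]
    abel

theorem YL_mem (l : List Γ) : YL q s l ∈ K ℤ (fun _ : List Γ => True) (l.length + 1) := by
  induction l with
  | nil => exact Submodule.zero_mem _
  | cons x r ih =>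
    rw [YL_cons]
    have h1 : (q ^ r.length • Finsupp.single (x :: r) 1 - YL q s r) ∈
        K ℤ (fun _ : List Γ => True) (r.length + 1) :=
      Submodule.sub_mem _ (Submodule.smul_mem _ _ (single_mem_K' trivial (by simp) 1)) ih
    simp only [Hop, LinearMap.neg_apply, LinearMap.sum_apply]
    refine Submodule.neg_mem _ (Submodule.sum_mem _ fun α _ => ?_)
    refine lin_mem (P := fun _ => True) (k := r.length + 1) _ (fun l _ hl => ?_) h1
    have := prismL_mem (R := ℤ) (s x α) l
    rw [hl] at this
    exact this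

theorem Hop_equiv (hequiv : ∀ γ : Γ, ∃ π : Equiv.Perm A, ∀ x α, γ * s x α * γ⁻¹ = s (γ * x) (π α))
    (γ x : Γ) (c : Ch ℤ Γ) : Hop s (γ * x) (mp ℤ (γ * ·) c) = mp ℤ (γ * ·) (Hop s x c) := by
  obtain ⟨π, hπ⟩ := hequiv γ
  simp only [Hop, LinearMap.neg_apply, LinearMap.sum_apply, map_neg, map_sum]
  congr 1
  rw [← Equiv.sum_comp π]
  refine Finset.sum_congr rfl fun α _ => ?_
  rw [← hπ, prism_equiv]

theorem YL_equiv (hequiv : ∀ γ : Γ, ∃ π : Equiv.Perm A, ∀ x α, γ * s x α * γ⁻¹ = s (γ * x) (π α))
    (γ : Γ) (l : List Γ) : YL q s (l.map (γ * ·)) = mp ℤ (γ * ·) (YL q s l) := by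
  induction l with
  | nil => simp [YL]
  | cons x r ih =>
    rw [List.map_cons, YL_cons, YL_cons, ih, List.length_map, ← Hop_equiv hequiv]
    simp only [map_sub, map_smul, mp_single, List.map_cons]

end upalg

theorem upper_alg {Γ : Type*} [Group Γ] {A : Type*} [Fintype A] (q : ℤ)
    (s : Γ → A → Γ) (hcomm : ∀ x α y β, s x α * s y β = s y β * s x α)
    (hequiv : ∀ γ : Γ, ∃ π : Equiv.Perm A, ∀ x α, γ * s x α * γ⁻¹ = s (γ * x) (π α))
    {M : Type*} [AddCommGroup M] (htf : ∀ x : M, q • x = 0 → x = 0)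
    (t : A → M →ₗ[ℤ] M) (F : List Γ → M)
    (hF : ∀ x α l, F (l.map (s x α * ·)) = t α (F l))
    (hπ : ∀ l, ∑ α, (F l - t α (F l)) = q • F l)
    (m : ℕ) (hcoc : ∀ l, l.length = m + 1 → lin ℤ F (bdL ℤ l) = 0) :
    ∃ Y : List Γ → Ch ℤ Γ, (∀ γ l, Y (l.map (γ * ·)) = mp ℤ (γ * ·) (Y l)) ∧
      ∀ l, l.length = m → q ^ m • F l = q • lin ℤ F (lin ℤ Y (bdL ℤ l)) := by
  have hgood : Good q s t (lin ℤ F) := by
    refine ⟨fun x α c => ?_, fun c => ?_⟩
    · rw [lin_mp, map_lin]
      exact LinearMap.congr_fun (ch_ext fun l => by simp [hF]) c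
    · have : ∑ α, (lin ℤ F - (t α).comp (lin ℤ F)) = q • lin ℤ F := by
        apply ch_ext
        intro l
        simp only [LinearMap.sum_apply, LinearMap.sub_apply, LinearMap.comp_apply, lin_single,
          one_smul, LinearMap.smul_apply]
        exact hπ l
      have h2 := LinearMap.congr_fun this c
      simpa only [LinearMap.sum_apply, LinearMap.sub_apply, LinearMap.comp_apply,
        LinearMap.smul_apply] using h2
  refine ⟨YL q s, YL_equiv hequiv, fun l hl => ?_⟩
  have h1 := hgood.main hcomm htf l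
  have h2 : lin ℤ F (bd ℤ (YL q s l)) = 0 := by
    have hmem := YL_mem (q := q) (s := s) l
    rw [hl] at hmem
    rw [lin_bd, lin_congr_K (P := fun _ => True) (g := fun _ => (0 : M))
      (fun l' _ hl' => hcoc l' hl') hmem]
    have : lin ℤ (fun _ : List Γ => (0 : M)) = 0 := by
      apply ch_ext; intro l; simp
    rw [this]; simp
  rw [h2, zero_add, hl] at h1
  rw [h1]
  simp

end Pool.Agent.H121
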