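import Pool.Agent.helper121_TH.UpLatB
import Pool.Agent.helper121_TH.UpAlg

/-!
# The upper bound: the affine group of the lattice
-/

namespace Pool.Agent.H121

namespace UpLat

variable {G : Type*} [Group G] {n : ℕ}

/-- The affine group `ℤ^n ⋊ G`. -/
@[ext] structure Gam (ρ : G →* Matrix.SpecialLinearGroup (Fin n) ℤ) where
  tr : Fin n → ℤ
  g : G

variable {ρ : G →* Matrix.SpecialLinearGroup (Fin n) ℤ}

theorem act_mul (g h : G) (p : Fin n → ℤ) :
    (ρ (g * h)).1.mulVec p = (ρ g).1.mulVec ((ρ h).1.mulVec p) := by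
  rw [map_mul, Matrix.SpecialLinearGroup.coe_mul, Matrix.mulVec_mulVec]

theorem act_one (p : Fin n → ℤ) : (ρ 1).1.mulVec p = p := by
  rw [map_one, Matrix.SpecialLinearGroup.coe_one, Matrix.one_mulVec]

instance : Mul (Gam ρ) := ⟨fun a b => ⟨a.tr + (ρ a.g).1.mulVec b.tr, a.g * b.g⟩⟩
instance : One (Gam ρ) := ⟨⟨0, 1⟩⟩
instance : Inv (Gam ρ) := ⟨fun a => ⟨-(ρ a.g⁻¹).1.mulVec a.tr, a.g⁻¹⟩⟩

@[simp] theorem mul_tr (a b : Gam ρ) : (a * b).tr = a.tr + (ρ a.g).1.mulVec b.tr := rfl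
@[simp] theorem mul_g (a b : Gam ρ) : (a * b).g = a.g * b.g := rfl
@[simp] theorem one_tr : (1 : Gam ρ).tr = 0 := rfl
@[simp] theorem one_g : (1 : Gam ρ).g = 1 := rfl
@[simp] theorem inv_tr (a : Gam ρ) : (a⁻¹).tr = -(ρ a.g⁻¹).1.mulVec a.tr := rfl
@[simp] theorem inv_g (a : Gam ρ) : (a⁻¹).g = a.g⁻¹ := rfl

instance : Group (Gam ρ) := Group.ofLeftAxioms
  (by
    intro a b c
    ext1
    · simp only [mul_tr, mul_g, act_mul, Matrix.mulVec_add, add_assoc]
    · simp only [mul_g, mul_assoc])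
  (by
    intro a
    ext1
    · simp only [mul_tr, one_tr, one_g, act_one, zero_add]
    · simp only [mul_g, one_g, one_mul])
  (by
    intro a
    ext1
    · simp only [mul_tr, inv_tr, inv_g, one_tr, neg_add_cancel]
    · simp only [mul_g, inv_g, one_g, inv_mul_cancel])

/-- The affine action. -/
noncomputable def affAct (a : Gam ρ) (v : Fin n → ℝ) : Fin n → ℝ :=
  fun i => slPerm n (ρ a.g) v i + (a.tr i : ℝ)

theorem slPerm_add (A : Matrix.SpecialLinearGroup (Fin n) ℤ) (v w : Fin n → ℝ) :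
    slPerm n A (fun i => v i + w i) = fun i => slPerm n A v i + slPerm n A w i :=
  Matrix.mulVec_add _ v w

theorem slPerm_cast (A : Matrix.SpecialLinearGroup (Fin n) ℤ) (p : Fin n → ℤ) :
    slPerm n A (fun i => (p i : ℝ)) = fun i => ((A.1.mulVec p i : ℤ) : ℝ) := by
  funext i
  rw [slVec_eq]
  simp [Matrix.mulVec, dotProduct]

theorem affAct_mul (a b : Gam ρ) (v : Fin n → ℝ) : affAct (a * b) v = affAct a (affAct b v) := by
  unfold affAct
  rw [slPerm_add, slPerm_cast]
  funext i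
  rw [mul_g, map_mul, map_mul, mul_tr]
  simp only [Equiv.Perm.coe_mul, Function.comp_apply, Pi.add_apply, Int.cast_add]
  ring

theorem affAct_one (v : Fin n → ℝ) : affAct (1 : Gam ρ) v = v := by
  unfold affAct
  funext i
  rw [one_g, map_one, map_one]
  simp

/-- The affine action as a homomorphism to permutations. -/
noncomputable def affPerm (ρ : G →* Matrix.SpecialLinearGroup (Fin n) ℤ) :
    Gam ρ →* Equiv.Perm (Fin n → ℝ) where
  toFun a :=
    { toFun := affAct a
      invFun := affAct a⁻¹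
      left_inv := fun v => by rw [← affAct_mul, inv_mul_cancel, affAct_one]
      right_inv := fun v => by rw [← affAct_mul, mul_inv_cancel, affAct_one] }
  map_one' := by
    ext1 v
    exact affAct_one v
  map_mul' A B := by
    ext1 v
    exact affAct_mul A B v

theorem affPerm_apply (a : Gam ρ) (v : Fin n → ℝ) :
    affPerm ρ a v = fun i => slPerm n (ρ a.g) v i + (a.tr i : ℝ) := rfl

theorem map_affPerm (a : Gam ρ) (l : List (Fin n → ℝ)) :
    l.map (affPerm ρ a) = (l.map (slPerm n (ρ a.g))).map (fun x i => x i + (a.tr i : ℝ)) := by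
  rw [List.map_map]
  rfl

theorem adm_latGen (hn : 1 ≤ n) : Adm (affPerm ρ) (LatGen n) where
  nil := latGen_nil hn
  sub h hl := latGen_sub h hl
  act a _ hl := by
    rw [map_affPerm]
    exact latGen_translate _ (latGen_sl _ hl)
  cone S hS := latGen_cone hn S hS

section modular

variable (a : ℕ) [NeZero a]

/-- reduction modulo `a` -/
def cst (p : Fin n → ℤ) : Fin n → ZMod a := fun i => (p i : ZMod a)

/-- section of the reduction -/
def sec (α : Fin n → ZMod a) : Fin n → ℤ := fun i => ((α i).val : ℤ)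

theorem cst_sec (α : Fin n → ZMod a) : cst a (sec a α) = α := by
  funext i
  simp [cst, sec]

omit [NeZero a] in
theorem cst_add (p q : Fin n → ℤ) : cst a (p + q) = cst a p + cst a q := by
  funext i
  simp [cst]

/-- The action modulo `a`. -/
def mact (A : Matrix.SpecialLinearGroup (Fin n) ℤ) (α : Fin n → ZMod a) : Fin n → ZMod a :=
  (A.1.map (Int.cast : ℤ → ZMod a)).mulVec α

omit [NeZero a] in
theorem cst_mulVec (A : Matrix.SpecialLinearGroup (Fin n) ℤ) (p : Fin n → ℤ) :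
    cst a (A.1.mulVec p) = mact a A (cst a p) := by
  funext i
  simp [cst, mact, Matrix.mulVec, dotProduct]

theorem mact_mul (A B : Matrix.SpecialLinearGroup (Fin n) ℤ) (α : Fin n → ZMod a) :
    mact a (A * B) α = mact a A (mact a B α) := by
  rw [← cst_sec a α, ← cst_mulVec, ← cst_mulVec, ← cst_mulVec,
    Matrix.SpecialLinearGroup.coe_mul, Matrix.mulVec_mulVec]

theorem mact_one (α : Fin n → ZMod a) : mact a (1 : Matrix.SpecialLinearGroup (Fin n) ℤ) α = α := by
  rw [← cst_sec a α, ← cst_mulVec, Matrix.SpecialLinearGroup.coe_one, Matrix.one_mulVec]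

/-- The permutation of `(ℤ/a)^n` given by a matrix. -/
def mperm (A : Matrix.SpecialLinearGroup (Fin n) ℤ) : Equiv.Perm (Fin n → ZMod a) where
  toFun := mact a A
  invFun := mact a A⁻¹
  left_inv α := by rw [← mact_mul, inv_mul_cancel, mact_one]
  right_inv α := by rw [← mact_mul, mul_inv_cancel, mact_one]

/-- The lifts of translations. -/
def lift (x : Gam ρ) (α : Fin n → ZMod a) : Gam ρ :=
  ⟨(ρ x.g).1.mulVec (sec a (mact a (ρ x.g)⁻¹ α)), 1⟩

theorem cst_lift (x : Gam ρ) (α : Fin n → ZMod a) : cst a (lift a x α).tr = α := by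
  unfold lift
  rw [cst_mulVec, cst_sec, ← mact_mul, mul_inv_cancel, mact_one]

omit [NeZero a] in
theorem lift_comm (x : Gam ρ) (α : Fin n → ZMod a) (y : Gam ρ) (β : Fin n → ZMod a) :
    lift a x α * lift a y β = lift a y β * lift a x α := by
  ext1
  · simp only [lift, mul_tr, act_one]
    rw [add_comm]
  · simp [lift]

theorem lift_conj (γ : Gam ρ) : ∃ π : Equiv.Perm (Fin n → ZMod a), ∀ (x : Gam ρ) α,
    γ * lift a x α * γ⁻¹ = lift a (γ * x) (π α) := by
  refine ⟨mperm a (ρ γ.g), fun x α => ?_⟩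
  have h1 : mact a (ρ (γ * x).g)⁻¹ (mperm a (ρ γ.g) α) = mact a (ρ x.g)⁻¹ α := by
    show mact a (ρ (γ * x).g)⁻¹ (mact a (ρ γ.g) α) = _
    rw [← mact_mul, mul_g, map_mul, mul_inv_rev, inv_mul_cancel_right]
  ext1
  · unfold lift
    rw [h1]
    simp only [mul_tr, mul_g, inv_tr, mul_one, Matrix.mulVec_neg]
    rw [← act_mul (ρ := ρ) γ.g γ.g⁻¹, mul_inv_cancel, act_one, act_mul]
    abel
  · simp [lift]

/-- The functional `f ↦ (α ↦ q * sum_{p = α} f p - sum_p f p)`. -/
noncomputable def Psi (n : ℕ) : ((Fin n → ℤ) →₀ ℤ) →ₗ[ℤ] ((Fin n → ZMod a) → ℤ) :=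
  LinearMap.pi fun α =>
    ((a : ℤ) ^ n) • (Finsupp.lapply α).comp (Finsupp.lmapDomain ℤ ℤ (cst a)) -
      ∑ β, (Finsupp.lapply β).comp (Finsupp.lmapDomain ℤ ℤ (cst a))

theorem Psi_apply (f : (Fin n → ℤ) →₀ ℤ) (α : Fin n → ZMod a) :
    Psi a n f α = (a : ℤ) ^ n * Finsupp.mapDomain (cst a) f α -
      ∑ β, Finsupp.mapDomain (cst a) f β := by
  simp [Psi]

theorem Psi_sum (f : (Fin n → ℤ) →₀ ℤ) : ∑ α, Psi a n f α = 0 := by
  simp only [Psi_apply, Finset.sum_sub_distrib, ← Finset.mul_sum]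
  simp [ZMod.card]

/-- translation of functions -/
noncomputable def tr (α : Fin n → ZMod a) :
    ((Fin n → ZMod a) → ℤ) →ₗ[ℤ] ((Fin n → ZMod a) → ℤ) :=
  LinearMap.funLeft ℤ ℤ (fun β => β - α)

omit [NeZero a] in
theorem tr_apply (α : Fin n → ZMod a) (m : (Fin n → ZMod a) → ℤ) (β : Fin n → ZMod a) :
    tr a α m β = m (β - α) := rfl

theorem Psi_translate (u : Fin n → ℤ) (f : (Fin n → ℤ) →₀ ℤ) :
    Psi a n (Finsupp.mapDomain (fun p => p + u) f) = tr a (cst a u) (Psi a n f) := by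
  have h1 : Finsupp.mapDomain (cst a) (Finsupp.mapDomain (fun p => p + u) f) =
      Finsupp.mapDomain (fun β => β + cst a u) (Finsupp.mapDomain (cst a) f) := by
    rw [← Finsupp.mapDomain_comp, ← Finsupp.mapDomain_comp]
    congr 1
    funext p
    exact cst_add a p u
  have h2 : ∀ β, Finsupp.mapDomain (fun β => β + cst a u) (Finsupp.mapDomain (cst a) f) β =
      Finsupp.mapDomain (cst a) f (β - cst a u) := by
    intro β
    have hinj : Function.Injective (fun β : Fin n → ZMod a => β + cst a u) :=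
      add_left_injective _
    have := Finsupp.mapDomain_apply hinj (Finsupp.mapDomain (cst a) f) (β - cst a u)
    rw [← this]
    simp
  funext α
  rw [tr_apply, Psi_apply, Psi_apply, h1, h2]
  congr 1
  simp only [h2]
  exact Equiv.sum_comp (Equiv.subRight (cst a u)) (fun β => Finsupp.mapDomain (cst a) f β)

theorem Psi_sl (A : Matrix.SpecialLinearGroup (Fin n) ℤ) (f : (Fin n → ℤ) →₀ ℤ) :
    Psi a n (Finsupp.mapDomain (latPerm A) f) 0 = Psi a n f 0 := by
  have h1 : Finsupp.mapDomain (cst a) (Finsupp.mapDomain (latPerm A) f) =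
      Finsupp.mapDomain (mperm a A) (Finsupp.mapDomain (cst a) f) := by
    rw [← Finsupp.mapDomain_comp, ← Finsupp.mapDomain_comp]
    congr 1
    funext p
    exact cst_mulVec a A p
  have h2 : ∀ β, Finsupp.mapDomain (mperm a A) (Finsupp.mapDomain (cst a) f) (mperm a A β) =
      Finsupp.mapDomain (cst a) f β := fun β =>
    Finsupp.mapDomain_apply (mperm a A).injective _ _
  have h0 : mperm a A 0 = 0 := by
    show (A.1.map (Int.cast : ℤ → ZMod a)).mulVec 0 = 0
    exact Matrix.mulVec_zero _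
  rw [Psi_apply, Psi_apply, h1]
  congr 1
  · conv_lhs => rw [← h0]
    rw [h2]
  · rw [← Equiv.sum_comp (mperm a A)]
    exact Finset.sum_congr rfl fun β _ => h2 β

theorem Psi_zero (f : (Fin n → ℤ) →₀ ℤ) :
    Psi a n f 0 = (a : ℤ) ^ n * sumOver {p | cst a p = 0} f - sumOver Set.univ f := by
  classical
  have : (LinearMap.proj 0).comp (Psi a n) =
      ((a : ℤ) ^ n) • sumOver {p : Fin n → ℤ | cst a p = 0} - sumOver Set.univ := by
    apply Finsupp.lhom_ext'
    intro p
    ext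
    simp only [LinearMap.comp_apply, LinearMap.proj_apply, Finsupp.lsingle_apply, Psi_apply,
      Finsupp.mapDomain_single, LinearMap.sub_apply, LinearMap.smul_apply, sumOver,
      Finsupp.linearCombination_single, Finsupp.single_apply, Set.mem_ofPred_eq, Set.mem_univ,
      if_true, smul_eq_mul, one_mul, Finset.sum_ite_eq, Finset.mem_univ]
    by_cases h : cst a p = 0 <;> simp [h]
  exact LinearMap.congr_fun this f

end modular

section functional

variable (a : ℕ) [NeZero a]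

theorem nn_map_translate (u : Fin n → ℤ) (l : List (Fin n → ℝ)) :
    NN n (l.map (fun x i => x i + (u i : ℝ))) = Finsupp.mapDomain (fun p => p + u) (NN n l) := by
  ext p
  have hinj : Function.Injective (fun p : Fin n → ℤ => p + u) := add_left_injective _
  have := Finsupp.mapDomain_apply hinj (NN n l) (p - u)
  rw [nn_translate, ← this]
  simp

/-- The basic function on lists of elements of the affine group. -/
noncomputable def FF (σ : List (Gam ρ) → Ch ℤ (Fin n → ℝ)) (l : List (Gam ρ)) :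
    (Fin n → ZMod a) → ℤ := Psi a n (lin ℤ (NN n) (σ l))

variable {σ : List (Gam ρ) → Ch ℤ (Fin n → ℝ)}

theorem lin_nn_affPerm_tr (x : Gam ρ) (hx : x.g = 1) (c : Ch ℤ (Fin n → ℝ)) :
    lin ℤ (NN n) (mp ℤ (affPerm ρ x) c) =
      Finsupp.mapDomain (fun p => p + x.tr) (lin ℤ (NN n) c) := by
  rw [lin_mp]
  have : (fun l => NN n (l.map (affPerm ρ x))) = fun l => Finsupp.lmapDomain ℤ ℤ
      (fun p => p + x.tr) (NN n l) := by
    funext l
    rw [map_affPerm, nn_map_translate, hx, map_one, map_one]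
    simp
  rw [this, ← map_lin]
  rfl

theorem lin_nn_affPerm_sl (x : Gam ρ) (hx : x.tr = 0) (c : Ch ℤ (Fin n → ℝ)) :
    lin ℤ (NN n) (mp ℤ (affPerm ρ x) c) =
      Finsupp.mapDomain (latPerm (ρ x.g)) (lin ℤ (NN n) c) := by
  rw [lin_mp]
  have : (fun l => NN n (l.map (affPerm ρ x))) = fun l => Finsupp.lmapDomain ℤ ℤ
      (latPerm (ρ x.g)) (NN n l) := by
    funext l
    rw [map_affPerm, hx, Finsupp.lmapDomain_apply, ← nn_sl']
    congr 1
    simp
  rw [this, ← map_lin]
  rfl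

theorem FF_lift (hσ : IsSystem (affPerm ρ) (LatGen n) σ) (x : Gam ρ) (α : Fin n → ZMod a)
    (l : List (Gam ρ)) : FF a σ (l.map (lift a x α * ·)) = tr a α (FF a σ l) := by
  unfold FF
  rw [hσ.act, lin_nn_affPerm_tr _ rfl, Psi_translate, cst_lift]

theorem FF_sum (l : List (Gam ρ)) :
    ∑ α, (FF a σ l - tr a α (FF a σ l)) = ((a : ℤ) ^ n) • FF a σ l := by
  rw [Finset.sum_sub_distrib]
  have h1 : ∑ α : Fin n → ZMod a, tr a α (FF a σ l) = 0 := by
    funext β
    rw [Finset.sum_apply]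
    simp only [tr_apply, Pi.zero_apply]
    have := Equiv.sum_comp (Equiv.subLeft β) (fun α => FF a σ l α)
    simp only [Equiv.subLeft_apply] at this
    rw [this]
    exact Psi_sum a _
  rw [h1, sub_zero, Finset.sum_const]
  funext β
  simp [ZMod.card]

theorem FF_cocycle (hn : 1 ≤ n) (hσ : IsSystem (affPerm ρ) (LatGen n) σ) (l : List (Gam ρ))
    (hl : l.length = n + 1 + 1) : lin ℤ (FF a σ) (bdL ℤ l) = 0 := by
  have h1 : lin ℤ (FF a σ) (bdL ℤ l) = Psi a n (lin ℤ (NN n) (lin ℤ σ (bdL ℤ l))) := by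
    rw [map_lin (lin ℤ (NN n)), map_lin (Psi a n)]
    rfl
  have h2 : lin ℤ (NN n) (bd ℤ (σ l)) = 0 := by
    have hmem := hσ.mem l
    rw [hl] at hmem
    have : ((lin ℤ (NN n)).comp (bd ℤ)) (σ l) =
        (0 : Ch ℤ (Fin n → ℝ) →ₗ[ℤ] ((Fin n → ℤ) →₀ ℤ)) (σ l) := by
      refine eq_on_K (P := LatGen n) (k := n + 1 + 1) (fun l' hl' hlen => ?_) hmem
      rw [LinearMap.comp_apply, bd_single, one_smul]
      exact nn_cocycle hn hl' hlen
    exact this
  rw [h1, ← hσ.bd, h2, map_zero]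

theorem FF_sl (hσ : IsSystem (affPerm ρ) (LatGen n) σ) (x : Gam ρ) (hx : x.tr = 0)
    (l : List (Gam ρ)) : FF a σ (l.map (x * ·)) 0 = FF a σ l 0 := by
  unfold FF
  rw [hσ.act, lin_nn_affPerm_sl _ hx, Psi_sl]

end functional

/-- The inclusion of `G` in the affine group. -/
def inr (ρ : G →* Matrix.SpecialLinearGroup (Fin n) ℤ) (g : G) : Gam ρ := ⟨0, g⟩

theorem inr_mul (g h : G) : inr ρ (g * h) = inr ρ g * inr ρ h := by
  ext1
  · simp [inr]
  · simp [inr]

theorem map_inr (g : G) (l : List G) :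
    (l.map (g * ·)).map (inr ρ) = (l.map (inr ρ)).map (inr ρ g * ·) := by
  rw [List.map_map, List.map_map]
  apply List.map_congr_left
  intro x _
  exact inr_mul g x

theorem affPerm_inr (g : G) : affPerm ρ (inr ρ g) = slPerm n (ρ g) := by
  ext v i
  rw [affPerm_apply]
  simp [inr]

theorem restrict_system {P : List (Fin n → ℝ) → Prop} {σ : List (Gam ρ) → Ch ℤ (Fin n → ℝ)}
    (hσ : IsSystem (affPerm ρ) P σ) :
    IsSystem ((slPerm n).comp ρ) P (fun l => σ (l.map (inr ρ))) where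
  nil := hσ.nil
  bd l := by
    rw [hσ.bd, ← mp_bdL, lin_mp]
  act g l := by
    rw [map_inr, hσ.act, affPerm_inr]
    rfl
  mem l := by
    have := hσ.mem (l.map (inr ρ))
    rwa [List.length_map] at this

end UpLat

open UpLat in
theorem upper {G : Type*} [Group G] {n : ℕ} (hn : 1 ≤ n)
    (ρ : G →* Matrix.SpecialLinearGroup (Fin n) ℤ) (σ : List G → Ch ℤ (Fin n → ℝ))
    (hσ : IsSystem ((slPerm n).comp ρ) (GenPos n) σ) (a : ℕ) (ha : 2 ≤ a) :
    Kills (n + 1) (euler n σ) (((a : ℤ) ^ n) ^ (n + 1) * ((a : ℤ) ^ n - 1)) := by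
  have : NeZero a := ⟨by omega⟩
  obtain ⟨σΓ, hσΓ⟩ := exists_system (adm_latGen (ρ := ρ) hn)
  set q : ℤ := (a : ℤ) ^ n with hq
  have hq0 : q ≠ 0 := by rw [hq]; positivity
  obtain ⟨Y, hY1, hY2⟩ := upper_alg q (lift a) (lift_comm a) (lift_conj a)
    (M := (Fin n → ZMod a) → ℤ) (fun x hx => (smul_eq_zero.1 hx).resolve_left hq0)
    (tr a) (FF a σΓ) (FF_lift a hσΓ) (FF_sum a) (n + 1) (FF_cocycle a hn hσΓ)
  -- the restricted system
  set σG : List G → Ch ℤ (Fin n → ℝ) := fun l => σΓ (l.map (inr ρ)) with hσGdef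
  have hσG : IsSystem ((slPerm n).comp ρ) (LatGen n) σG := restrict_system hσΓ
  have hσG' : IsSystem ((slPerm n).comp ρ) (GenPos n) σG :=
    ⟨hσG.nil, hσG.bd, hσG.act, fun l => K_mono (fun _ h => latGen_genPos hn h) _ (hσG.mem l)⟩
  -- comparison of the two systems
  obtain ⟨k0, hk0, hk0'⟩ := system_unique (adm_genPos hn ρ) hσ hσG' (n + 1) (eps n)
    (fun l h1 h2 => eps_cocycle hn l h1 h2) (fun g l _ => eps_sl _ l)
  -- comparison with the lattice sums
  obtain ⟨k1, hk1, hk1'⟩ := sumOver_sub_euler hn ρ hσG {p | cst a p = 0}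
    (by simp only [Set.mem_ofPred_eq]; funext i; simp [cst]) (fun g p => by
      simp only [Set.mem_ofPred_eq]
      rw [cst_mulVec]
      have h0 : ∀ A : Matrix.SpecialLinearGroup (Fin n) ℤ, mperm a A 0 = 0 := fun A => by
        show (A.1.map (Int.cast : ℤ → ZMod a)).mulVec 0 = 0
        exact Matrix.mulVec_zero _
      constructor
      · intro h
        exact (mperm a (ρ g)).injective (h.trans (h0 _).symm)
      · intro h
        rw [h]
        exact h0 _)
  obtain ⟨k2, hk2, hk2'⟩ := sumOver_sub_euler hn ρ hσG Set.univ (Set.mem_univ _)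
    (fun g p => by simp)
  -- the cochain coming from Y
  set E : List G → ℤ := fun l => q * lin ℤ (FF a σΓ) (Y (l.map (inr ρ))) 0 with hE
  have hEinv : ∀ g l, E (l.map (g * ·)) = E l := by
    intro g l
    simp only [hE]
    rw [map_inr, hY1, lin_mp]
    congr 1
    have h1 := map_lin (LinearMap.proj 0 : ((Fin n → ZMod a) → ℤ) →ₗ[ℤ] ℤ)
      (fun l => FF a σΓ (l.map (inr ρ g * ·))) (Y (l.map (inr ρ)))
    have h2 := map_lin (LinearMap.proj 0 : ((Fin n → ZMod a) → ℤ) →ₗ[ℤ] ℤ)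
      (FF a σΓ) (Y (l.map (inr ρ)))
    simp only [LinearMap.proj_apply] at h1 h2
    rw [h1, h2]
    congr 2
    funext l'
    exact FF_sl a hσΓ (inr ρ g) rfl l'
  refine ⟨fun l => E l - q ^ (n + 1) * (q * k1 l - k2 l) + q ^ (n + 1) * (q - 1) * k0 l,
    fun g l => by simp only [hEinv, hk0, hk1, hk2], fun l hl => ?_⟩
  -- the main identity
  have e1 : q ^ (n + 1) * FF a σΓ (l.map (inr ρ)) 0 = lin ℤ E (bdL ℤ l) := by
    have h1 := congrFun (hY2 (l.map (inr ρ)) (by rw [List.length_map, hl])) 0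
    simp only [Pi.smul_apply, smul_eq_mul] at h1
    rw [h1, ← mp_bdL, lin_mp, map_lin]
    have h2 := map_lin (LinearMap.proj 0 : ((Fin n → ZMod a) → ℤ) →ₗ[ℤ] ℤ)
      (fun l' => lin ℤ (FF a σΓ) (Y (l'.map (inr ρ)))) (bdL ℤ l)
    simp only [LinearMap.proj_apply] at h2
    rw [h2]
    exact map_lin (LinearMap.mulLeft ℤ q) _ _
  have e2 : FF a σΓ (l.map (inr ρ)) 0 = q * sumOver {p | cst a p = 0} (lin ℤ (NN n) (σG l)) -
      sumOver Set.univ (lin ℤ (NN n) (σG l)) := Psi_zero a _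
  have e3 := hk1' l hl
  have e4 := hk2' l hl
  have e5 := hk0' l hl
  have e6 : lin ℤ (fun l => E l - q ^ (n + 1) * (q * k1 l - k2 l) + q ^ (n + 1) * (q - 1) * k0 l)
      (bdL ℤ l) = lin ℤ E (bdL ℤ l) -
        q ^ (n + 1) * (q * lin ℤ k1 (bdL ℤ l) - lin ℤ k2 (bdL ℤ l)) +
        q ^ (n + 1) * (q - 1) * lin ℤ k0 (bdL ℤ l) := by
    have : lin ℤ (fun l => E l - q ^ (n + 1) * (q * k1 l - k2 l) +
        q ^ (n + 1) * (q - 1) * k0 l) = lin ℤ E - (q ^ (n + 1)) • (q • lin ℤ k1 - lin ℤ k2) +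
        (q ^ (n + 1) * (q - 1)) • lin ℤ k0 := by
      apply ch_ext
      intro l
      simp
    rw [this]
    simp
  rw [e6, ← e1, e2, ← e3, ← e4, ← e5]
  simp only [euler]
  ring

end Pool.Agent.H121
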