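import Pool.Agent.helper121_TH.Slant
import Pool.Agent.helper121_TH.Rot
import Pool.Agent.helper121_TH.Bridge
import Pool.Agent.helper121_TH.GOne
import Pool.Agent.helper121_TH.NT
import Pool.Agent.helper121_TH.OddElt
import Pool.Agent.helper121_TH.TwoElt
import Pool.Agent.helper121_TH.UpLat

/-!
# Assembly: the order of the top Hodge class
-/

namespace Pool.Agent.H121

open Matrix

theorem Kills.zero {G : Type*} [Group G] (m : ℕ) (f : List G → ℤ) : Kills m f 0 :=
  ⟨fun _ => 0, fun _ _ => rfl, fun l _ => by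
    have : lin ℤ (fun _ : List G => (0 : ℤ)) = 0 := by
      apply ch_ext; intro l; simp
    simp [this]⟩

theorem Kills.add {G : Type*} [Group G] {m : ℕ} {f : List G → ℤ} {a b : ℤ} (ha : Kills m f a)
    (hb : Kills m f b) : Kills m f (a + b) := by
  obtain ⟨h, h1, h2⟩ := ha
  obtain ⟨k, k1, k2⟩ := hb
  refine ⟨fun l => h l + k l, fun g l => by simp only [h1, k1], fun l hl => ?_⟩
  have : lin ℤ (fun l : List G => h l + k l) = lin ℤ h + lin ℤ k := by
    apply ch_ext; intro l; simp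
  rw [this, LinearMap.add_apply, ← h2 l hl, ← k2 l hl]
  ring

theorem Kills.neg {G : Type*} [Group G] {m : ℕ} {f : List G → ℤ} {a : ℤ} (ha : Kills m f a) :
    Kills m f (-a) := by
  obtain ⟨h, h1, h2⟩ := ha
  refine ⟨fun l => - h l, fun g l => by simp only [h1], fun l hl => ?_⟩
  have : lin ℤ (fun l : List G => - h l) = - lin ℤ h := by
    apply ch_ext; intro l; simp
  rw [this, LinearMap.neg_apply, ← h2 l hl]
  ring

/-- The subgroup of integers killing a cochain. -/
def killGroup {G : Type*} [Group G] (m : ℕ) (f : List G → ℤ) : AddSubgroup ℤ where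
  carrier := {d | Kills m f d}
  zero_mem' := Kills.zero m f
  add_mem' := Kills.add
  neg_mem' := Kills.neg

/-- Order of the Euler class of `Sp_{2g}(ℤ)` acting on `ℝ^{2g}`, in terms of `Kills`. -/
theorem kills_iff (g : ℕ) (hg : 1 ≤ g) (σ : List (Matrix.symplecticGroup (Fin g) ℤ) →
      Ch ℤ (Fin (2 * g) → ℝ))
    (hσ : IsSystem ((slPerm (2 * g)).comp (toSL g)) (GenPos (2 * g)) σ) (d : ℤ) :
    Kills (2 * g + 1) (euler (2 * g) σ) d ↔ (theOrder g : ℤ) ∣ d := by
  have hn : 1 ≤ 2 * g := by omega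
  have hadm := adm_genPos hn (toSL g)
  have hm : Odd (2 * g + 1) := ⟨g, rfl⟩
  have hm3 : 3 ≤ 2 * g + 1 := by omega
  have he : ∀ l, GenPos (2 * g) l → l.length = 2 * g + 1 + 1 →
      lin ℤ (eps (2 * g)) (bdL ℤ l) = 0 := fun l h1 h2 => eps_cocycle hn l h1 h2
  have hinv : ∀ (γ : Matrix.symplecticGroup (Fin g) ℤ) (l : List (Fin (2 * g) → ℝ)),
      GenPos (2 * g) l → eps (2 * g) (l.map (((slPerm (2 * g)).comp (toSL g)) γ)) =
        eps (2 * g) l := fun γ l _ => eps_sl _ l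
  refine nt_main g hg (killGroup (2 * g + 1) (euler (2 * g) σ)) ?_ ?_ ?_ ?_ d
  · intro a ha
    exact upper hn (toSL g) σ hσ a ha
  · intro p hp hp2 hdvd d hd
    obtain ⟨J, hJ, a, b, ha, hb0, hb1⟩ := exists_odd_elt g p hg hp hp2 hdvd
    have hcop : ∀ j, (a j).Coprime p := fun j => by
      rw [Nat.coprime_comm, hp.coprime_iff_not_dvd]
      intro h
      have := Nat.le_of_dvd (by have := (ha j).1; omega) h
      have := (ha j).2
      omega
    obtain ⟨s, hs, hval⟩ := exists_rotW g hg p a (fun j => ⟨(ha j).1, (ha j).2, hcop j⟩)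
      ((toSL g (J ^ (p ^ padicValNat p (2 * g)))).1.map (Int.cast : ℤ → ℝ)) b hb0 hb1
    have hnd : ¬ (p : ℤ) ∣ lin ℤ (eps (2 * g)) (s (2 * g + 1)) := by
      have h1 : ¬ (p : ℤ) ∣ ∏ j, (a j : ℤ) := by
        rw [Prime.dvd_finsetProd_iff (Nat.prime_iff_prime_int.1 hp)]
        rintro ⟨j, -, hj⟩
        have := (hp.coprime_iff_not_dvd.1 (hcop j).symm)
        exact this (by exact_mod_cast hj)
      rcases hval with h | h <;> rw [h]
      · exact h1
      · rwa [dvd_neg]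
    have hNM : p ^ (1 + padicValNat p (2 * g)) / p = p ^ padicValNat p (2 * g) := by
      rw [add_comm, pow_succ]
      exact Nat.mul_div_cancel _ hp.pos
    obtain ⟨θ, hθ, hθd⟩ := exists_bar_system hadm hσ hm (eps (2 * g)) he hinv J
      (p ^ (1 + padicValNat p (2 * g))) p p (Nat.one_le_pow _ _ hp.pos)
      (dvd_pow_self p (by omega)) dvd_rfl hJ s (by rw [hNM]; exact hs) hnd
    exact kills_dvd hm hm3 (euler (2 * g) σ) p _ hp θ hθ hθd d hd
  · intro d hd
    obtain ⟨J, hJ, hz, ⟨b, hb0, hb1⟩, hφ⟩ := exists_two_elt g hg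
    have hcos : Real.cos (2 * Real.pi * ((1 : ℕ) : ℝ) / ((4 : ℕ) : ℝ)) = 0 := by
      rw [show (2 * Real.pi * ((1 : ℕ) : ℝ) / ((4 : ℕ) : ℝ)) = Real.pi / 2 by push_cast; ring]
      exact Real.cos_pi_div_two
    have hsin : Real.sin (2 * Real.pi * ((1 : ℕ) : ℝ) / ((4 : ℕ) : ℝ)) = 1 := by
      rw [show (2 * Real.pi * ((1 : ℕ) : ℝ) / ((4 : ℕ) : ℝ)) = Real.pi / 2 by push_cast; ring]
      exact Real.sin_pi_div_two
    obtain ⟨s, hs, hval⟩ := exists_rotW g hg 4 (fun _ => 1)
      (fun j => ⟨le_rfl, by norm_num, by norm_num⟩)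
      ((toSL g (J ^ (2 ^ padicValNat 2 g))).1.map (Int.cast : ℤ → ℝ)) b
      (fun j => by rw [hcos, hsin, zero_smul, one_smul, zero_add]; exact hb0 j)
      (fun j => by rw [hcos, hsin, zero_smul, add_zero, neg_smul, one_smul]; exact hb1 j)
    have hnd : ¬ ((2 : ℕ) : ℤ) ∣ lin ℤ (eps (2 * g)) (s (2 * g + 1)) := by
      rcases hval with h | h <;> rw [h] <;> simp
    have hNM : 2 ^ (2 + padicValNat 2 g) / 4 = 2 ^ padicValNat 2 g := by
      rw [pow_add]; norm_num
    obtain ⟨θ, hθ, hθd⟩ := exists_bar_system hadm hσ hm (eps (2 * g)) he hinv J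
      (2 ^ (2 + padicValNat 2 g)) 4 2 (Nat.one_le_two_pow)
      ⟨2 ^ padicValNat 2 g, by rw [pow_add]; norm_num⟩ (by norm_num) hJ s
      (by rw [hNM]; exact hs) hnd
    by_cases h1 : g = 1
    · have := kills_dvd hm hm3 (euler (2 * g) σ) 2 _ Nat.prime_two θ hθ hθd d hd
      simpa [h1] using this
    · have hg2 : 2 ≤ g := by omega
      have hzc : ∀ γ : Matrix.symplecticGroup (Fin g) ℤ,
          γ * J ^ (2 ^ (1 + padicValNat 2 g)) = J ^ (2 ^ (1 + padicValNat 2 g)) * γ := by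
        intro γ
        apply Subtype.ext
        rw [Submonoid.coe_mul, Submonoid.coe_mul, hz]
        simp
      have := slant J _ (1 + padicValNat 2 g)
        (by rw [show 1 + padicValNat 2 g + 1 = 2 + padicValNat 2 g by ring]; exact hJ) rfl hzc
        (hφ hg2) (2 * g + 1) hm hm3 (euler (2 * g) σ) θ
        (by rw [show 1 + padicValNat 2 g + 1 = 2 + padicValNat 2 g by ring]; exact hθ)
        (by exact_mod_cast hθd) d hd
      rw [if_neg h1]
      rw [show 3 + padicValNat 2 g = 1 + padicValNat 2 g + 2 by ring]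
      exact this
  · intro h1 h24
    subst h1
    exact g_one _ h24

theorem main (g : ℕ) (hg : 1 ≤ g) :
    (∃! x, IsTopHodge g x) ∧ ∀ x, IsTopHodge g x → addOrderOf x = theOrder g := by
  have hn : 1 ≤ 2 * g := by omega
  obtain ⟨h1, h2⟩ := bridge hn (toSL g)
  refine ⟨h1, fun x hx => ?_⟩
  obtain ⟨σ, hσ⟩ := exists_system (adm_genPos hn (toSL g))
  have h3 : ∀ d : ℕ, d • x = 0 ↔ theOrder g ∣ d := by
    intro d
    have := (h2 x hx σ hσ (d : ℤ)).trans (kills_iff g hg σ hσ d)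
    rw [natCast_zsmul] at this
    rw [this]
    exact Int.natCast_dvd_natCast
  apply Nat.dvd_antisymm
  · exact addOrderOf_dvd_of_nsmul_eq_zero ((h3 _).2 dvd_rfl)
  · exact (h3 _).1 (addOrderOf_nsmul_eq_zero x)

end Pool.Agent.H121
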