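import Pool.Agent.helper121_TH.UpAlg

/-!
# The slant product lemma modulo 2
-/

namespace Pool.Agent.H121

section double

variable {R : Type*} [CommRing R] {G : Type*} [Group G]

/-- The double prism operator. -/
noncomputable def dprismL (R : Type*) [CommRing R] {G : Type*} [Group G] (g g' : G) :
    List G → Ch R G
  | [] => 0
  | t :: r => cone R t (mp R (g * ·) (prismL R g' (t :: r))) + cone R t (dprismL R g g' r)

theorem dprismL_cons (g g' t : G) (r : List G) : dprismL R g g' (t :: r) =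
    cone R t (mp R (g * ·) (prismL R g' (t :: r))) + cone R t (dprismL R g g' r) := rfl

noncomputable def dprism (R : Type*) [CommRing R] {G : Type*} [Group G] (g g' : G) :
    Ch R G →ₗ[R] Ch R G := lin R (dprismL R g g')

theorem dprism_cone (g g' t : G) (c : Ch R G) : dprism R g g' (cone R t c) =
    cone R t (mp R (g * ·) (prism R g' (cone R t c))) + cone R t (dprism R g g' c) := by
  have : (dprism R g g').comp (cone R t) = (cone R t).comp ((mp R (g * ·)).comp
      ((prism R g').comp (cone R t))) + (cone R t).comp (dprism R g g') := by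
    apply ch_ext
    intro l
    simp [dprism, prism, dprismL_cons]
  exact LinearMap.congr_fun this c

theorem mp_mul (g g' : G) (c : Ch R G) : mp R (g * ·) (mp R (g' * ·) c) = mp R (g * g' * ·) c := by
  rw [mp_mp]
  congr 2
  funext x
  simp [mul_assoc]

theorem bd_dprismL (g g' : G) (l : List G) :
    bd R (dprismL R g g' l) - dprism R g g' (bdL R l) =
      mp R (g * ·) (prismL R g' l) + prismL R g l - prismL R (g * g') l := by
  induction l with
  | nil => simp [dprismL, prismL]
  | cons t r ih =>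
    have e0 : dprism R g g' (bdL R (t :: r)) = dprismL R g g' r -
        (cone R t (mp R (g * ·) (prism R g' (cone R t (bdL R r)))) +
          cone R t (dprism R g g' (bdL R r))) := by
      rw [bdL_cons, map_sub, dprism_cone]
      simp [dprism]
    have e1 : bd R (prismL R g' (t :: r)) = Finsupp.single ((t :: r).map (g' * ·)) 1 -
        Finsupp.single (t :: r) 1 - prismL R g' r + prism R g' (cone R t (bdL R r)) := by
      have := bd_prismL (R := R) g' (t :: r)
      rw [bdL_cons, map_sub, prism_single] at this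
      rw [← this]; abel
    have e2 : dprism R g g' (bdL R r) = bd R (dprismL R g g' r) -
        (mp R (g * ·) (prismL R g' r) + prismL R g r - prismL R (g * g') r) := by
      rw [← ih]; abel
    rw [e0, dprismL_cons, map_add, bd_cone, bd_cone, mp_bd, e1, e2]
    have e3 : mp R (g * ·) (Finsupp.single ((t :: r).map (g' * ·)) 1) =
        cone R (g * g' * t) (Finsupp.single (r.map (g * g' * ·)) 1) := by
      rw [← mp_single, mp_mul, mp_single]; simp
    have e4 : mp R (g * ·) (Finsupp.single (t :: r) (1 : R)) =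
        cone R (g * t) (Finsupp.single (r.map (g * ·)) 1) := by
      simp
    rw [prismL_cons g t r, prismL_cons (g * g') t r]
    simp only [map_sub, map_add, e3, e4]
    abel

theorem bd_dprism (g g' : G) (c : Ch R G) :
    bd R (dprism R g g' c) - dprism R g g' (bd R c) =
      mp R (g * ·) (prism R g' c) + prism R g c - prism R (g * g') c := by
  have : (bd R).comp (dprism R g g') - (dprism R g g').comp (bd R) =
      (mp R (g * ·)).comp (prism R g') + prism R g - prism R (g * g') := by
    apply ch_ext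
    intro l
    have := bd_dprismL (R := R) g g' l
    simpa [dprism, prism, bd_single] using this
  exact LinearMap.congr_fun this c

theorem prism_central {z : G} (hz : ∀ g, g * z = z * g) (g : G) (c : Ch R G) :
    prism R g (mp R (z * ·) c) = mp R (z * ·) (prism R g c) := by
  have h := prism_equiv (R := R) z g c
  rwa [← hz, mul_inv_cancel_right] at h

theorem dprismL_central {z : G} (hz : ∀ g, g * z = z * g) (g g' : G) (l : List G) :
    dprismL R g g' (l.map (z * ·)) = mp R (z * ·) (dprismL R g g' l) := by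
  induction l with
  | nil => simp [dprismL]
  | cons t r ih =>
    have h1 : prismL R g' ((z * t) :: r.map (z * ·)) = mp R (z * ·) (prismL R g' (t :: r)) := by
      have := prism_central (R := R) hz g' (Finsupp.single (t :: r) 1)
      rw [mp_single, prism_single, prism_single] at this
      exact this
    rw [List.map_cons, dprismL_cons, dprismL_cons, ih, h1, map_add, mp_cone, mp_cone, mp_mul,
      mp_mul, hz g]

theorem dprism_central {z : G} (hz : ∀ g, g * z = z * g) (g g' : G) (c : Ch R G) :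
    dprism R g g' (mp R (z * ·) c) = mp R (z * ·) (dprism R g g' c) := by
  have : (dprism R g g').comp (mp R (z * ·)) = (mp R (z * ·)).comp (dprism R g g') := by
    apply ch_ext
    intro l
    have := dprismL_central (R := R) hz g g' l
    simpa [dprism] using this
  exact LinearMap.congr_fun this c

theorem prism_mem {g : G} {k : ℕ} {c : Ch R G} (hc : c ∈ K R (fun _ : List G => True) k) :
    prism R g c ∈ K R (fun _ : List G => True) (k + 1) :=
  lin_mem (P := fun _ => True) _ (fun l _ hl => hl ▸ prismL_mem g l) hc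

theorem dprismL_mem (g g' : G) (l : List G) :
    dprismL R g g' l ∈ K R (fun _ : List G => True) (l.length + 2) := by
  induction l with
  | nil => exact Submodule.zero_mem _
  | cons t r ih =>
    rw [dprismL_cons]
    have h1 : mp R (g * ·) (prismL R g' (t :: r)) ∈ K R (fun _ : List G => True) (r.length + 2) :=
      mp_mem_K (P := fun _ => True) (fun _ _ => trivial) (prismL_mem g' (t :: r))
    exact Submodule.add_mem _ (cone_mem_K t h1 (fun _ _ => trivial))
      (cone_mem_K t ih (fun _ _ => trivial))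

theorem dprism_mem {g g' : G} {k : ℕ} {c : Ch R G} (hc : c ∈ K R (fun _ : List G => True) k) :
    dprism R g g' c ∈ K R (fun _ : List G => True) (k + 2) :=
  lin_mem (P := fun _ => True) _ (fun l _ hl => hl ▸ dprismL_mem g g' l) hc

end double

section eta

variable {G : Type*} [Group G] (z : G)

/-- `EE z j` is the sum of all lists of length `j` with entries in `{1, z}`, modulo `2`. -/
noncomputable def EE : ℕ → Ch (ZMod 2) G
  | 0 => Finsupp.single [] 1
  | j + 1 => cone (ZMod 2) 1 (EE j) + cone (ZMod 2) z (EE j)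

omit [Group G] in
theorem two_smul_ch (c : Ch (ZMod 2) G) : c + c = 0 := by
  rw [← two_smul (ZMod 2) c, show (2 : ZMod 2) = 0 from by decide, zero_smul]

omit [Group G] in
theorem sub_eq_add_ch (c d : Ch (ZMod 2) G) : c - d = c + d := by
  rw [sub_eq_add_neg]
  congr 1
  rw [neg_eq_iff_add_eq_zero]
  exact two_smul_ch d

theorem bd_EE (j : ℕ) : bd (ZMod 2) (EE z j) = 0 := by
  induction j with
  | zero => simp [EE, bd_single]
  | succ j ih =>
    rw [EE, map_add, bd_cone, bd_cone, ih]
    simp [two_smul_ch]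

theorem EE_mem (j : ℕ) : EE z j ∈ K (ZMod 2) (fun _ : List G => True) j := by
  induction j with
  | zero => exact single_mem_K' trivial rfl 1
  | succ j ih =>
    exact Submodule.add_mem _ (cone_mem_K _ ih (fun _ _ => trivial))
      (cone_mem_K _ ih (fun _ _ => trivial))

variable {z}

theorem mp_EE (hz2 : z * z = 1) (j : ℕ) : mp (ZMod 2) (z * ·) (EE z j) = EE z j := by
  induction j with
  | zero => simp [EE]
  | succ j ih =>
    rw [EE, map_add, mp_cone, mp_cone, ih, mul_one, hz2, add_comm]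

variable (z)

/-- `eta z j = cone 1 (EE z j)`. -/
noncomputable def eta (j : ℕ) : Ch (ZMod 2) G := cone (ZMod 2) 1 (EE z j)

theorem bd_eta (j : ℕ) : bd (ZMod 2) (eta z j) = EE z j := by
  rw [eta, bd_cone, bd_EE]; simp

theorem eta_mem (j : ℕ) : eta z j ∈ K (ZMod 2) (fun _ : List G => True) (j + 1) :=
  cone_mem_K _ (EE_mem z j) (fun _ _ => trivial)

variable {z}

theorem EE_succ (hz2 : z * z = 1) (j : ℕ) :
    EE z (j + 1) = mp (ZMod 2) (z * ·) (eta z j) - eta z j := by
  rw [sub_eq_add_ch, eta, mp_cone, mp_EE hz2, mul_one, EE, add_comm]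

end eta

section poly

open Polynomial

theorem poly1 (k : ℕ) : ((X : (ZMod 2)[X]) - 1) ^ (2 ^ k) = X ^ (2 ^ k) - 1 := by
  have := sub_pow_char_pow (R := (ZMod 2)[X]) (p := 2) (n := k) X 1
  simpa using this

theorem poly2 (k : ℕ) : ∑ i ∈ Finset.range (2 ^ k), (X : (ZMod 2)[X]) ^ i = (X - 1) ^ (2 ^ k - 1) := by
  have h1 : ((X : (ZMod 2)[X]) - 1) * ∑ i ∈ Finset.range (2 ^ k), (X : (ZMod 2)[X]) ^ i =
      (X - 1) * (X - 1) ^ (2 ^ k - 1) := by
    rw [mul_geom_sum, ← pow_succ', Nat.sub_add_cancel Nat.one_le_two_pow, poly1]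
  exact mul_left_cancel₀ (X_sub_C_ne_zero (1 : ZMod 2)) (by simpa using h1)

end poly

section compare2

variable {G : Type*} [Group G]

/-- left translation as an endomorphism -/
noncomputable def AA (J : G) : Module.End (ZMod 2) (Ch (ZMod 2) G) := mp (ZMod 2) (fun x => J * x)

theorem AA_pow (J : G) (i : ℕ) : AA J ^ i = AA (J ^ i) := by
  rw [AA, mp_pow, iterate_mul_left]; rfl

theorem AA_sub_pow (J : G) (k : ℕ) : (AA J - 1) ^ (2 ^ k) = AA J ^ (2 ^ k) - 1 := by
  have := congrArg (Polynomial.aeval (AA J)) (poly1 k)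
  simpa using this

theorem AA_sum (J : G) (k : ℕ) :
    ∑ i ∈ Finset.range (2 ^ k), AA J ^ i = (AA J - 1) ^ (2 ^ k - 1) := by
  have := congrArg (Polynomial.aeval (AA J)) (poly2 k)
  simpa using this

/-- powers of `A - 1` as endomorphisms -/
noncomputable def XX (J : G) (i : ℕ) : Module.End (ZMod 2) (Ch (ZMod 2) G) := (AA J - 1) ^ i

theorem XX_def (J : G) (i : ℕ) : XX J i = (AA J - 1) ^ i := rfl

theorem XX_one (J : G) (c : Ch (ZMod 2) G) :
    XX J 1 c = mp (ZMod 2) (fun x => J * x) c - c := by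
  rw [XX_def, pow_one]; rfl

theorem XX_XX (J : G) (i j : ℕ) (c : Ch (ZMod 2) G) : XX J i (XX J j c) = XX J (i + j) c := by
  rw [XX_def, XX_def, XX_def, ← Module.End.mul_apply, ← pow_add]

/-- the coefficients `a_j` -/
noncomputable def ab (J : G) (k j : ℕ) : Module.End (ZMod 2) (Ch (ZMod 2) G) :=
  if Even j then 1 else XX J (2 ^ k - 1)

theorem bd_x (J : G) (i : ℕ) (c : Ch (ZMod 2) G) :
    bd (ZMod 2) (XX J i c) = XX J i (bd (ZMod 2) c) := by
  induction i with
  | zero => simp [XX]
  | succ i ih =>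
    rw [add_comm, ← XX_XX, ← XX_XX, ← ih, XX_one, XX_one, map_sub, mp_bd]

theorem x_mem (J : G) (i : ℕ) {k : ℕ} {c : Ch (ZMod 2) G}
    (hc : c ∈ K (ZMod 2) (fun _ : List G => True) k) :
    XX J i c ∈ K (ZMod 2) (fun _ : List G => True) k := by
  induction i with
  | zero => simpa [XX] using hc
  | succ i ih =>
    rw [add_comm, ← XX_XX, XX_one]
    exact Submodule.sub_mem _ (mp_mem_K (fun _ _ => trivial) ih) ih

theorem fill_true {k : ℕ} {c : Ch (ZMod 2) G} (hc : c ∈ K (ZMod 2) (fun _ : List G => True) k)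
    (h0 : bd (ZMod 2) c = 0) :
    ∃ d ∈ K (ZMod 2) (fun _ : List G => True) (k + 1), bd (ZMod 2) d = c :=
  (adm_true (MulAction.toPermHom G G)).fill hc h0

theorem slant_compare {J z : G} {k : ℕ} (hJ : J ^ (2 ^ (k + 1)) = 1)
    (hz : J ^ (2 ^ k) = z) (hzc : ∀ g, g * z = z * g) {m : ℕ} {θ : ℕ → Ch (ZMod 2) G}
    (hθ : IsW (ZMod 2) (fun x => J * x) (2 ^ (k + 1)) (fun _ => True) m θ) (j : ℕ)
    (hj : j + 2 ≤ m) :
    ∃ τ ∈ K (ZMod 2) (fun _ : List G => True) (j + 1),
    ∃ τ' ∈ K (ZMod 2) (fun _ : List G => True) (j + 2),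
    ∃ α ∈ K (ZMod 2) (fun _ : List G => True) (j + 2),
    ∃ α' ∈ K (ZMod 2) (fun _ : List G => True) (j + 3),
      eta z j - ab J k j (θ (j + 1)) = bd (ZMod 2) τ' + XX J (2 ^ k) τ ∧
      prism (ZMod 2) J (eta z j) - (if Even j then θ (j + 2) else 0) =
          bd (ZMod 2) α' + XX J 1 τ' + XX J (2 ^ k) α := by
  have hz2 : z * z = 1 := by
    rw [← hz, ← pow_add, ← two_mul, ← pow_succ']; exact hJ
  have hkp : 1 ≤ 2 ^ k := Nat.one_le_two_pow
  -- the polynomial identities
  have hxz : ∀ c, XX J (2 ^ k) c = mp (ZMod 2) (z * ·) c - c := by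
    intro c
    rw [XX_def, AA_sub_pow, AA_pow, hz]; rfl
  have hxN' : ∀ c, XX J (2 ^ k + 2 ^ k) c = 0 := by
    intro c
    rw [XX_def, ← two_mul, ← pow_succ', AA_sub_pow, AA_pow, hJ]
    have : AA (1 : G) = 1 := by
      rw [AA]
      apply LinearMap.ext
      intro c
      simp only [one_mul]
      exact mp_id c
    rw [this]; simp
  have hxN : ∀ c, XX J (2 ^ k) (XX J (2 ^ k) c) = 0 := by
    intro c
    rw [XX_XX, hxN']
  have hDodd : ∀ {i : ℕ}, Odd i → ∀ c, Dop (ZMod 2) (2 ^ (k + 1)) (mp (ZMod 2) (fun x => J * x)) i c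
      = XX J 1 c := by
    intro i hi c
    rw [Dop_odd _ _ hi, XX_one]; rfl
  have hDeven : ∀ {i : ℕ}, Even i → i ≠ 0 → ∀ c,
      Dop (ZMod 2) (2 ^ (k + 1)) (mp (ZMod 2) (fun x => J * x)) i c
      = XX J (2 ^ (k + 1) - 1) c := by
    intro i hi h0 c
    rw [Dop_even _ _ hi h0, XX_def, ← AA_sum]; rfl
  have hN1 : 2 ^ (k + 1) - 1 = 2 ^ k + (2 ^ k - 1) := by rw [pow_succ]; omega
  have hbdrho : ∀ j, bd (ZMod 2) (prism (ZMod 2) J (eta z (j + 1))) =
      XX J 1 (eta z (j + 1)) - XX J (2 ^ k) (prism (ZMod 2) J (eta z j)) := by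
    intro j
    have h1 := bd_prism (R := ZMod 2) J (eta z (j + 1))
    rw [bd_eta, EE_succ hz2, map_sub, prism_central hzc] at h1
    rw [hxz, XX_one, ← h1]
    abel
  have hab : ∀ j, j + 2 ≤ m → bd (ZMod 2) (ab J k (j + 1) (θ (j + 2))) =
      XX J (2 ^ k) (ab J k j (θ (j + 1))) := by
    intro j hj
    rcases Nat.even_or_odd j with hj' | hj'
    · have : ¬ Even (j + 1) := Nat.not_even_iff_odd.2 (Even.add_one hj')
      rw [ab, ab, if_neg this, if_pos hj', bd_x, hθ.bd (j + 1) (by omega),
        hDodd (Even.add_one hj'), XX_XX, Nat.sub_add_cancel hkp]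
      rfl
    · have : ¬ Even j := Nat.not_even_iff_odd.2 hj'
      rw [ab, ab, if_pos (Odd.add_one hj'), if_neg this, Module.End.one_apply,
        hθ.bd (j + 1) (by omega), hDeven (Odd.add_one hj') (by omega), XX_XX, hN1]
  have habmem : ∀ j, j + 2 ≤ m → ab J k (j + 1) (θ (j + 2)) ∈
      K (ZMod 2) (fun _ : List G => True) (j + 2) := by
    intro j hj
    rw [ab]
    split_ifs
    · exact hθ.mem (j + 2) (by omega)
    · exact x_mem J _ (hθ.mem (j + 2) (by omega))
  induction j with
  | zero =>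
    have h1 : bd (ZMod 2) (eta z 0 - θ 1) = 0 := by
      rw [map_sub, bd_eta, hθ.bd 0 (by omega), hθ.zero, Dop_zero]; simp [EE]
    obtain ⟨τ', hτ', e1⟩ := fill_true (Submodule.sub_mem _ (eta_mem z 0) (hθ.mem 1 (by omega))) h1
    have h2 : bd (ZMod 2) (prism (ZMod 2) J (eta z 0) - θ 2 - XX J 1 τ') = 0 := by
      have h3 := bd_prism (R := ZMod 2) J (eta z 0)
      have h4 : prism (ZMod 2) J (bd (ZMod 2) (eta z 0)) = 0 := by
        rw [bd_eta, EE, prism_single]; rfl
      rw [h4, add_zero] at h3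
      rw [map_sub, map_sub, bd_x, e1, h3, hθ.bd 1 (by omega), hDodd (by decide), map_sub,
        XX_one, XX_one]
      abel
    obtain ⟨α', hα', e2⟩ := fill_true (Submodule.sub_mem _ (Submodule.sub_mem _
      (prism_mem (eta_mem z 0)) (hθ.mem 2 (by omega))) (x_mem J 1 hτ')) h2
    refine ⟨0, Submodule.zero_mem _, τ', hτ', 0, Submodule.zero_mem _, α', hα', ?_, ?_⟩
    · rw [e1]; simp [ab]
    · rw [e2]; simp
  | succ j ih =>
    obtain ⟨τ, hτ, τ', hτ', α, hα, α', hα', e1, e2⟩ := ih (by omega)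
    -- first equation
    have h1 : bd (ZMod 2) (eta z (j + 1) - ab J k (j + 1) (θ (j + 2)) - XX J (2 ^ k) τ') = 0 := by
      have h4 : XX J (2 ^ k) (bd (ZMod 2) τ') = XX J (2 ^ k) (eta z j) -
          XX J (2 ^ k) (ab J k j (θ (j + 1))) := by
        rw [← map_sub, e1, map_add, hxN, add_zero]
      rw [map_sub, map_sub, hab j (by omega), bd_x, h4, bd_eta, EE_succ hz2, ← hxz]
      abel
    obtain ⟨τ'', hτ'', e3⟩ := fill_true (Submodule.sub_mem _ (Submodule.sub_mem _
      (eta_mem z (j + 1)) (habmem j (by omega))) (x_mem J _ hτ')) h1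
    -- second equation
    have h5 : bd (ZMod 2) (prism (ZMod 2) J (eta z (j + 1)) -
        (if Even (j + 1) then θ (j + 3) else 0) - XX J 1 τ'' - XX J (2 ^ k) α') = 0 := by
      have h6 : bd (ZMod 2) (if Even (j + 1) then θ (j + 3) else 0) =
          XX J 1 (ab J k (j + 1) (θ (j + 2))) +
          XX J (2 ^ k) (if Even j then θ (j + 2) else 0) := by
        rcases Nat.even_or_odd j with hj' | hj'
        · have h7 : ¬ Even (j + 1) := Nat.not_even_iff_odd.2 (Even.add_one hj')
          rw [ab, if_neg h7, if_neg h7, if_pos hj', map_zero, XX_XX, Nat.add_sub_cancel' hkp,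
            two_smul_ch]
        · have h7 : ¬ Even j := Nat.not_even_iff_odd.2 hj'
          have h8 : Odd (j + 2) := by
            rcases hj' with ⟨i, hi⟩; exact ⟨i + 1, by omega⟩
          rw [ab, if_pos (Odd.add_one hj'), if_pos (Odd.add_one hj'), if_neg h7, map_zero, add_zero,
            Module.End.one_apply, hθ.bd (j + 2) (by omega), hDodd h8]
      have h9 : XX J 1 (bd (ZMod 2) τ'') = XX J 1 (eta z (j + 1)) -
          XX J 1 (ab J k (j + 1) (θ (j + 2))) - XX J 1 (XX J (2 ^ k) τ') := by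
        rw [e3, map_sub, map_sub]
      have h10 : XX J (2 ^ k) (bd (ZMod 2) α') =
          XX J (2 ^ k) (prism (ZMod 2) J (eta z j)) -
          XX J (2 ^ k) (if Even j then θ (j + 2) else 0) -
          XX J (2 ^ k) (XX J 1 τ') := by
        rw [← map_sub, e2, map_add, map_add, hxN]; abel
      have h11 : XX J 1 (XX J (2 ^ k) τ') = XX J (2 ^ k) (XX J 1 τ') := by
        rw [XX_XX, XX_XX, add_comm]
      rw [map_sub, map_sub, map_sub, h6, hbdrho, bd_x, bd_x, h9, h10, h11]
      simp only [sub_eq_add_ch]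
      have key : ∀ a b c d e : Ch (ZMod 2) G,
          a + b + (c + d) + (a + c + e) + (b + d + e) = 0 := by
        intro a b c d e
        have : a + b + (c + d) + (a + c + e) + (b + d + e) =
          (a + a) + (b + b) + (c + c) + (d + d) + (e + e) := by abel
        rw [this]; simp [two_smul_ch]
      exact key _ _ _ _ _
    have hm3 : (if Even (j + 1) then θ (j + 3) else 0) ∈
        K (ZMod 2) (fun _ : List G => True) (j + 3) := by
      split_ifs
      · exact hθ.mem (j + 3) (by omega)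
      · exact Submodule.zero_mem _
    obtain ⟨α'', hα'', e4⟩ := fill_true (Submodule.sub_mem _ (Submodule.sub_mem _
      (Submodule.sub_mem _ (prism_mem (eta_mem z (j + 1))) hm3) (x_mem J 1 hτ''))
      (x_mem J _ hα')) h5
    refine ⟨τ', hτ', τ'', hτ'', α', hα', α'', hα'', ?_, ?_⟩
    · rw [e3]; abel
    · rw [e4]; abel

end compare2

section reduction

variable {G : Type*}

/-- reduction modulo `2` of chains -/
noncomputable def red : Ch ℤ G →ₗ[ℤ] Ch (ZMod 2) G :=
  lin ℤ (fun l => Finsupp.single l (1 : ZMod 2))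

theorem red_single (l : List G) : red (Finsupp.single l 1) = Finsupp.single l (1 : ZMod 2) := by
  simp [red]

theorem red_cone (t : G) (c : Ch ℤ G) : red (cone ℤ t c) = cone (ZMod 2) t (red c) := by
  have : red.comp (cone ℤ t) = ((cone (ZMod 2) t).restrictScalars ℤ).comp red := by
    apply ch_ext
    intro l
    simp only [LinearMap.comp_apply, cone_single, red_single, LinearMap.restrictScalars_apply]
  exact LinearMap.congr_fun this c

theorem red_bdL (l : List G) : red (bdL ℤ l) = bdL (ZMod 2) l := by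
  induction l with
  | nil => simp
  | cons t r ih => rw [bdL_cons, map_sub, red_cone, ih, red_single, bdL_cons]

theorem red_bd (c : Ch ℤ G) : red (bd ℤ c) = bd (ZMod 2) (red c) := by
  have : (red (G := G)).comp (bd ℤ) = ((bd (ZMod 2)).restrictScalars ℤ).comp red := by
    apply ch_ext
    intro l
    simp only [LinearMap.comp_apply, bd_single, red_single, LinearMap.restrictScalars_apply,
      one_smul, red_bdL]
  exact LinearMap.congr_fun this c

theorem red_mp {S : Type*} (φ : S → G) (c : Ch ℤ S) : red (mp ℤ φ c) = mp (ZMod 2) φ (red c) := by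
  have : red.comp (mp ℤ φ) = ((mp (ZMod 2) φ).restrictScalars ℤ).comp red := by
    apply ch_ext
    intro l
    simp only [LinearMap.comp_apply, mp_single, red_single, LinearMap.restrictScalars_apply]
  exact LinearMap.congr_fun this c

theorem red_Dop (φ : G → G) (N k : ℕ) (c : Ch ℤ G) :
    red (Dop ℤ N (mp ℤ φ) k c) = Dop (ZMod 2) N (mp (ZMod 2) φ) k (red c) := by
  have hpow : ∀ i : ℕ, red ((mp ℤ φ ^ i) c) = (mp (ZMod 2) φ ^ i) (red c) := by
    intro i
    rw [mp_pow, mp_pow, red_mp]
  unfold Dop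
  split_ifs
  · rfl
  · simp only [LinearMap.sub_apply, map_sub, red_mp, LinearMap.id_apply]
  · simp only [LinearMap.sum_apply, map_sum, hpow]

theorem red_mem {P : List G → Prop} {k : ℕ} {c : Ch ℤ G} (hc : c ∈ K ℤ P k) :
    red c ∈ K (ZMod 2) P k := by
  refine lin_mem ((K (ZMod 2) P k).restrictScalars ℤ) (fun l hl hk => ?_) hc
  exact single_mem_K' hl hk 1

theorem isW_red {φ : G → G} {N m : ℕ} {P : List G → Prop} {θ : ℕ → Ch ℤ G}
    (h : IsW ℤ φ N P m θ) : IsW (ZMod 2) φ N P m (fun k => red (θ k)) := by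
  refine ⟨?_, fun k hk => ?_, fun k hk => red_mem (h.mem k hk)⟩
  · show red (θ 0) = _
    rw [h.zero, red_single]
  · show bd (ZMod 2) (red (θ (k + 1))) = _
    rw [← red_bd, h.bd k hk, red_Dop]

theorem lin_red (h : List G → ℤ) (c : Ch ℤ G) :
    lin (ZMod 2) (fun l => ((h l : ℤ) : ZMod 2)) (red c) = ((lin ℤ h c : ℤ) : ZMod 2) := by
  have : ((lin (ZMod 2) (fun l => ((h l : ℤ) : ZMod 2))).restrictScalars ℤ).comp red =
      (Int.castAddHom (ZMod 2)).toIntLinearMap.comp (lin ℤ h) := by
    apply ch_ext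
    intro l
    simp [red_single]
  exact LinearMap.congr_fun this c

end reduction

theorem slant {G : Type*} [Group G] (J z : G) (k : ℕ) (hJ : J ^ (2 ^ (k + 1)) = 1)
    (hz : J ^ (2 ^ k) = z) (hzc : ∀ g, g * z = z * g)
    (hφ : ∀ φ : G →* Multiplicative (ZMod 2), φ J = 1) (m : ℕ) (hm : Odd m) (hm3 : 3 ≤ m)
    (f : List G → ℤ) (θ : ℕ → Ch ℤ G)
    (hθ : IsW ℤ (fun x => J * x) (2 ^ (k + 1)) (fun _ => True) m θ)
    (hodd : ¬ (2 : ℤ) ∣ lin ℤ f (θ m)) (d : ℤ) (hd : Kills m f d) :
    ((2 ^ (k + 2) : ℕ) : ℤ) ∣ d := by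
  by_contra hcon
  have hdvd := kills_dvd hm hm3 f 2 (k + 1) Nat.prime_two θ hθ (by exact_mod_cast hodd) d hd
  obtain ⟨d', hd'⟩ := hdvd
  have hd'odd : ¬ (2 : ℤ) ∣ d' := by
    rintro ⟨e, he⟩
    apply hcon
    refine ⟨e, ?_⟩
    rw [hd', he, pow_succ 2 (k + 1)]
    push_cast
    ring
  obtain ⟨h, hinv, hh⟩ := hd
  obtain ⟨j, hj⟩ : ∃ j, m = j + 3 := ⟨m - 3, by omega⟩
  subst hj
  have hjeven : Even j := by
    rcases hm with ⟨i, hi⟩
    exact ⟨i - 1, by omega⟩
  -- value of h on θ
  have hval : ¬ (2 : ℤ) ∣ lin ℤ h (θ (j + 2)) := by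
    have h3 := kills_lin (m := j + 2) hinv hh (by
      rcases hjeven with ⟨i, hi⟩; exact ⟨i + 1, by omega⟩) (by omega) hθ
    rw [hd', mul_assoc] at h3
    have h4 := mul_left_cancel₀ (by positivity) h3
    rw [← h4]
    intro h5
    rcases Int.prime_two.dvd_or_dvd h5 with h6 | h6
    · exact hd'odd h6
    · exact hodd h6
  -- reduction of h
  set hb : Ch (ZMod 2) G →ₗ[ZMod 2] ZMod 2 := lin (ZMod 2) (fun l => ((h l : ℤ) : ZMod 2)) with hhb
  have hbinv : ∀ (g : G) (c : Ch (ZMod 2) G), hb (mp (ZMod 2) (g * ·) c) = hb c := by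
    intro g c
    rw [hhb, lin_mp]
    simp only [hinv]
  have hbbd : ∀ c ∈ K (ZMod 2) (fun _ : List G => True) (j + 3), hb (bd (ZMod 2) c) = 0 := by
    intro c hc
    have : (hb.comp (bd (ZMod 2))) c = (0 : Ch (ZMod 2) G →ₗ[ZMod 2] ZMod 2) c := by
      refine eq_on_K (P := fun _ => True) (k := j + 3) (fun l _ hl => ?_) hc
      rw [LinearMap.comp_apply, bd_single, one_smul, ← red_bdL, hhb, lin_red, ← hh l hl, hd']
      have : ((2 ^ (k + 1) : ℕ) : ZMod 2) = 0 := by
        rw [Nat.cast_pow, pow_succ, Nat.cast_ofNat, show (2 : ZMod 2) = 0 from by decide, mul_zero]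
      push_cast at this ⊢
      rw [this]; simp
    simpa using this
  have hz2 : z * z = 1 := by
    rw [← hz, ← pow_add, ← two_mul, ← pow_succ']; exact hJ
  -- the homomorphism
  have hhom : ∀ g g' : G, hb (prism (ZMod 2) (g * g') (eta z j)) =
      hb (prism (ZMod 2) g (eta z j)) + hb (prism (ZMod 2) g' (eta z j)) := by
    intro g g'
    have h1 := congrArg hb (bd_dprism (R := ZMod 2) g g' (eta z j))
    rw [map_sub, hbbd _ (dprism_mem (eta_mem z j)), map_sub, map_add, hbinv, bd_eta] at h1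
    have h2 : hb (dprism (ZMod 2) g g' (EE z j)) = 0 := by
      rcases j with _ | i
      · have : dprism (ZMod 2) g g' (EE z 0) = 0 := by
          simp [dprism, EE, dprismL]
        rw [this, map_zero]
      · rw [EE_succ hz2, map_sub, dprism_central hzc, map_sub, hbinv, sub_self]
    rw [h2, sub_zero] at h1
    have h3 := (sub_eq_zero.1 h1.symm)
    rw [← h3, add_comm]
  let φ : G →* Multiplicative (ZMod 2) :=
    MonoidHom.mk' (fun g => Multiplicative.ofAdd (hb (prism (ZMod 2) g (eta z j)))) (by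
      intro g g'
      rw [hhom, ofAdd_add])
  have hφJ : hb (prism (ZMod 2) J (eta z j)) = 0 := by
    have := hφ φ
    exact Multiplicative.ofAdd.injective (this.trans ofAdd_zero.symm)
  obtain ⟨τ, hτ, τ', hτ', α, hα, α', hα', e1, e2⟩ :=
    slant_compare hJ hz hzc (isW_red hθ) j (by omega)
  rw [if_pos hjeven] at e2
  have hx1 : ∀ c, hb (XX J 1 c) = 0 := by
    intro c
    rw [XX_one, map_sub, hbinv, sub_self]
  have hxk : hb (XX J (2 ^ k) α) = 0 := by
    have : 2 ^ k = 1 + (2 ^ k - 1) := by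
      have := Nat.one_le_two_pow (n := k); omega
    rw [this, ← XX_XX, hx1]
  have e3 := congrArg hb e2
  rw [map_sub, map_add, map_add, hφJ, hbbd _ hα', hx1, hxk, hhb, lin_red] at e3
  apply hval
  have e4 : ((lin ℤ h (θ (j + 2)) : ℤ) : ZMod 2) = 0 := by simpa using e3
  exact_mod_cast (ZMod.intCast_zmod_eq_zero_iff_dvd _ 2).1 e4

end Pool.Agent.H121
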