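import Pool.Agent.helper121_TH.Basics

/-!
# Existence and uniqueness up to homotopy of equivariant systems
-/

namespace Pool.Agent.H121

section
variable {R : Type*} [CommRing R] {S T : Type*}

/-- linear extension respects `K`. -/
theorem lin_mem {M : Type*} [AddCommGroup M] [Module R M] (N : Submodule R M) {P : List S → Prop}
    {k : ℕ} {f : List S → M} (h : ∀ l, P l → l.length = k → f l ∈ N) {c : Ch R S}
    (hc : c ∈ K R P k) : lin R f c ∈ N :=
  map_mem_of_K N (lin R f) (fun l hl hk => by simpa using h l hl hk) hc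

theorem lin_congr_K {M : Type*} [AddCommGroup M] [Module R M] {P : List S → Prop}
    {k : ℕ} {f g : List S → M} (h : ∀ l, P l → l.length = k → f l = g l) {c : Ch R S}
    (hc : c ∈ K R P k) : lin R f c = lin R g c :=
  eq_on_K (fun l hl hk => by simpa using h l hl hk) hc

theorem lin_sub {M : Type*} [AddCommGroup M] [Module R M] (f g : List S → M) (c : Ch R S) :
    lin R (fun l => f l - g l) c = lin R f c - lin R g c := by
  have : lin R (fun l => f l - g l) = lin R f - lin R g := by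
    apply ch_ext
    intro l
    simp
  exact LinearMap.congr_fun this c

theorem bdL_mem_K_true {l : List S} {k : ℕ} (hk : l.length = k + 1) :
    bdL R l ∈ K R (fun _ : List S => True) k :=
  bdL_mem_K (P := fun _ => True) (fun _ _ => trivial) trivial hk

theorem bd_mem_K_true {k : ℕ} {c : Ch R S} (hc : c ∈ K R (fun _ : List S => True) (k + 1)) :
    bd R c ∈ K R (fun _ : List S => True) k :=
  bd_mem_K (P := fun _ => True) (fun _ _ => trivial) hc

theorem lin_bd {M : Type*} [AddCommGroup M] [Module R M] (f : List S → M) (c : Ch R S) :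
    lin R f (bd R c) = lin R (fun l => lin R f (bdL R l)) c := by
  rw [bd, ← map_lin]
  rfl

end

section
variable {G T : Type*} [Group G] {ρ : G →* Equiv.Perm T} {P : List T → Prop}

theorem perm_comp (ρ : G →* Equiv.Perm T) (g h : G) (c : Ch ℤ T) :
    mp ℤ (ρ g) (mp ℤ (ρ h) c) = mp ℤ (ρ (g * h)) c := by
  rw [mp_mp, map_mul]
  rfl

theorem perm_one (ρ : G →* Equiv.Perm T) (c : Ch ℤ T) : mp ℤ (ρ 1) c = c := by
  rw [map_one]
  exact mp_id c

theorem Adm.mp_mem (hP : Adm ρ P) (g : G) {k : ℕ} {c : Ch ℤ T} (hc : c ∈ K ℤ P k) :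
    mp ℤ (ρ g) c ∈ K ℤ P k := mp_mem_K (fun _ hl => hP.act g hl) hc

open Classical in
/-- A chosen filling of a `P`-cycle of length `k`. -/
noncomputable def fillC (P : List T → Prop) (k : ℕ) (c : Ch ℤ T) : Ch ℤ T :=
  if h : ∃ d ∈ K ℤ P (k + 1), bd ℤ d = c then h.choose else 0

theorem fillC_spec (hP : Adm ρ P) {k : ℕ} {c : Ch ℤ T} (hc : c ∈ K ℤ P k) (h0 : bd ℤ c = 0) :
    fillC P k c ∈ K ℤ P (k + 1) ∧ bd ℤ (fillC P k c) = c := by
  have h := hP.fill hc h0
  rw [fillC, dif_pos h]
  exact h.choose_spec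

/-- The system, length by length. -/
noncomputable def sysN (ρ : G →* Equiv.Perm T) (P : List T → Prop) : ℕ → List G → Ch ℤ T
  | 0 => fun _ => Finsupp.single [] 1
  | k + 1 => fun l => match l with
    | [] => 0
    | g :: r => mp ℤ (ρ g) (fillC P k (mp ℤ (ρ g⁻¹) (lin ℤ (sysN ρ P k) (bdL ℤ (g :: r)))))

theorem sysN_succ (ρ : G →* Equiv.Perm T) (P : List T → Prop) (k : ℕ) (g : G) (r : List G) :
    sysN ρ P (k + 1) (g :: r) =
      mp ℤ (ρ g) (fillC P k (mp ℤ (ρ g⁻¹) (lin ℤ (sysN ρ P k) (bdL ℤ (g :: r))))) := rfl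

theorem lin_equiv {ρ : G →* Equiv.Perm T} {F : List G → Ch ℤ T} {k : ℕ}
    (hF : ∀ g l, l.length = k → F (l.map (g * ·)) = mp ℤ (ρ g) (F l)) (g : G) (l : List G)
    (hl : l.length = k + 1) :
    lin ℤ F (bdL ℤ (l.map (g * ·))) = mp ℤ (ρ g) (lin ℤ F (bdL ℤ l)) := by
  rw [← mp_bdL, lin_mp, map_lin]
  exact lin_congr_K (P := fun _ => True) (fun l' _ hl' => hF g l' hl') (bdL_mem_K_true hl)

theorem sysN_spec (hP : Adm ρ P) (k : ℕ) :
    (∀ l, l.length = k → sysN ρ P k l ∈ K ℤ P k) ∧
    (∀ g l, l.length = k → sysN ρ P k (l.map (g * ·)) = mp ℤ (ρ g) (sysN ρ P k l)) ∧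
    (∀ l, l.length = k → bd ℤ (sysN ρ P k l) = if k = 0 then 0 else
      lin ℤ (sysN ρ P (k - 1)) (bdL ℤ l)) := by
  induction k with
  | zero =>
    refine ⟨fun l _ => ?_, fun g l _ => ?_, fun l _ => ?_⟩
    · exact single_mem_K' hP.nil rfl 1
    · simp [sysN]
    · simp [sysN, bd_single]
  | succ k ih =>
    obtain ⟨ih1, ih2, ih3⟩ := ih
    -- the cycle to be filled
    have hz1 : ∀ l : List G, l.length = k + 1 → lin ℤ (sysN ρ P k) (bdL ℤ l) ∈ K ℤ P k :=
      fun l hl => lin_mem (P := fun _ => True) _ (fun l' _ hl' => ih1 l' hl') (bdL_mem_K_true hl)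
    have hz2 : ∀ l : List G, l.length = k + 1 → bd ℤ (lin ℤ (sysN ρ P k) (bdL ℤ l)) = 0 := by
      intro l hl
      rw [map_lin]
      by_cases hk : k = 0
      · subst hk
        rw [lin_congr_K (P := fun _ => True) (k := 0) (g := fun _ => 0)
          (fun l' _ hl' => by rw [ih3 l' hl', if_pos rfl]) (bdL_mem_K_true hl)]
        have : lin ℤ (fun _ : List G => (0 : Ch ℤ T)) = 0 := by
          apply ch_ext; intro l; simp
        rw [this]; simp
      · rw [lin_congr_K (P := fun _ => True) (k := k)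
          (g := fun l' => lin ℤ (sysN ρ P (k - 1)) (bdL ℤ l'))
          (fun l' _ hl' => by rw [ih3 l' hl', if_neg hk]) (bdL_mem_K_true hl), ← lin_bd, bd_bdL]
        simp
    have key : ∀ g r, (g :: r : List G).length = k + 1 →
        sysN ρ P (k + 1) (g :: r) ∈ K ℤ P (k + 1) ∧
        bd ℤ (sysN ρ P (k + 1) (g :: r)) = lin ℤ (sysN ρ P k) (bdL ℤ (g :: r)) := by
      intro g r hl
      have h1 := fillC_spec hP (hP.mp_mem g⁻¹ (hz1 _ hl))
        (by rw [mp_bd, hz2 _ hl, map_zero])
      refine ⟨hP.mp_mem g h1.1, ?_⟩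
      rw [sysN_succ, mp_bd, h1.2, perm_comp, mul_inv_cancel, perm_one]
    refine ⟨fun l hl => ?_, fun γ l hl => ?_, fun l hl => ?_⟩
    · cases l with
      | nil => simp at hl
      | cons g r => exact (key g r hl).1
    · cases l with
      | nil => simp at hl
      | cons g r =>
        have h1 := lin_equiv ih2 γ (g :: r) hl
        rw [List.map_cons] at h1 ⊢
        rw [sysN_succ, sysN_succ, h1, perm_comp, perm_comp]
        congr 3
        group
    · cases l with
      | nil => simp at hl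
      | cons g r => rw [(key g r hl).2, if_neg (by omega)]; rfl

theorem exists_system (hP : Adm ρ P) : ∃ σ : List G → Ch ℤ T, IsSystem ρ P σ := by
  refine ⟨fun l => sysN ρ P l.length l, ?_, ?_, ?_, ?_⟩
  · rfl
  · intro l
    rcases l with _ | ⟨g, r⟩
    · simp [sysN, bd_single]
    · have h := (sysN_spec hP (r.length + 1)).2.2 (g :: r) rfl
      rw [if_neg (by omega)] at h
      simp only [List.length_cons]
      rw [h]
      exact lin_congr_K (P := fun _ => True) (k := r.length)
        (fun l' _ hl' => by rw [hl']; rfl) (bdL_mem_K_true rfl)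
  · intro g l
    have h := (sysN_spec hP l.length).2.1 g l rfl
    simpa using h
  · intro l
    exact (sysN_spec hP l.length).1 l rfl

/-- The homotopy between two systems, length by length. -/
noncomputable def homN (ρ : G →* Equiv.Perm T) (P : List T → Prop) (σ σ' : List G → Ch ℤ T) :
    ℕ → List G → Ch ℤ T
  | 0 => fun _ => 0
  | k + 1 => fun l => match l with
    | [] => 0
    | g :: r => mp ℤ (ρ g) (fillC P (k + 1) (mp ℤ (ρ g⁻¹)
        (σ (g :: r) - σ' (g :: r) - lin ℤ (homN ρ P σ σ' k) (bdL ℤ (g :: r)))))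

theorem homN_succ (ρ : G →* Equiv.Perm T) (P : List T → Prop) (σ σ' : List G → Ch ℤ T) (k : ℕ)
    (g : G) (r : List G) : homN ρ P σ σ' (k + 1) (g :: r) =
      mp ℤ (ρ g) (fillC P (k + 1) (mp ℤ (ρ g⁻¹)
        (σ (g :: r) - σ' (g :: r) - lin ℤ (homN ρ P σ σ' k) (bdL ℤ (g :: r))))) := rfl

theorem homN_spec (hP : Adm ρ P) {σ σ' : List G → Ch ℤ T} (h : IsSystem ρ P σ)
    (h' : IsSystem ρ P σ') (k : ℕ) :
    (∀ l, l.length = k → homN ρ P σ σ' k l ∈ K ℤ P (k + 1)) ∧
    (∀ g l, l.length = k → homN ρ P σ σ' k (l.map (g * ·)) = mp ℤ (ρ g) (homN ρ P σ σ' k l)) ∧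
    (∀ l, l.length = k → bd ℤ (homN ρ P σ σ' k l) = σ l - σ' l - (if k = 0 then 0 else
      lin ℤ (homN ρ P σ σ' (k - 1)) (bdL ℤ l))) := by
  induction k with
  | zero =>
    refine ⟨fun l _ => ?_, fun g l _ => ?_, fun l hl => ?_⟩
    · exact Submodule.zero_mem _
    · simp [homN]
    · rw [List.eq_nil_of_length_eq_zero hl]
      simp [homN, h.nil, h'.nil]
  | succ k ih =>
    obtain ⟨ih1, ih2, ih3⟩ := ih
    have hz1 : ∀ l : List G, l.length = k + 1 →
        σ l - σ' l - lin ℤ (homN ρ P σ σ' k) (bdL ℤ l) ∈ K ℤ P (k + 1) := by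
      intro l hl
      refine Submodule.sub_mem _ (Submodule.sub_mem _ (hl ▸ h.mem l) (hl ▸ h'.mem l)) ?_
      exact lin_mem (P := fun _ => True) _ (fun l' _ hl' => ih1 l' hl') (bdL_mem_K_true hl)
    have hz2 : ∀ l : List G, l.length = k + 1 →
        bd ℤ (σ l - σ' l - lin ℤ (homN ρ P σ σ' k) (bdL ℤ l)) = 0 := by
      intro l hl
      rw [map_sub, map_sub, h.bd, h'.bd, map_lin]
      have e1 : lin ℤ (fun l' => bd ℤ (homN ρ P σ σ' k l')) (bdL ℤ l) =
          lin ℤ (fun l' => (σ l' - σ' l') - (if k = 0 then 0 else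
            lin ℤ (homN ρ P σ σ' (k - 1)) (bdL ℤ l'))) (bdL ℤ l) :=
        lin_congr_K (P := fun _ => True) (fun l' _ hl' => ih3 l' hl') (bdL_mem_K_true hl)
      rw [e1, lin_sub, lin_sub]
      have e2 : lin ℤ (fun l' : List G => (if k = 0 then 0 else
            lin ℤ (homN ρ P σ σ' (k - 1)) (bdL ℤ l') : Ch ℤ T)) (bdL ℤ l) = 0 := by
        by_cases hk : k = 0
        · simp only [hk, if_true]
          have : lin ℤ (fun _ : List G => (0 : Ch ℤ T)) = 0 := by
            apply ch_ext; intro l; simp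
          rw [this]; simp
        · simp only [hk, if_false]
          rw [← lin_bd, bd_bdL, map_zero]
      rw [e2]
      abel
    have key : ∀ g r, (g :: r : List G).length = k + 1 →
        homN ρ P σ σ' (k + 1) (g :: r) ∈ K ℤ P (k + 1 + 1) ∧
        bd ℤ (homN ρ P σ σ' (k + 1) (g :: r)) =
          σ (g :: r) - σ' (g :: r) - lin ℤ (homN ρ P σ σ' k) (bdL ℤ (g :: r)) := by
      intro g r hl
      have h1 := fillC_spec hP (hP.mp_mem g⁻¹ (hz1 _ hl))
        (by rw [mp_bd, hz2 _ hl, map_zero])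
      refine ⟨hP.mp_mem g h1.1, ?_⟩
      rw [homN_succ, mp_bd, h1.2, perm_comp, mul_inv_cancel, perm_one]
    refine ⟨fun l hl => ?_, fun γ l hl => ?_, fun l hl => ?_⟩
    · cases l with
      | nil => simp at hl
      | cons g r => exact (key g r hl).1
    · cases l with
      | nil => simp at hl
      | cons g r =>
        have h1 := lin_equiv ih2 γ (g :: r) hl
        have h2 := h.act γ (g :: r)
        have h3 := h'.act γ (g :: r)
        rw [List.map_cons] at h1 h2 h3 ⊢
        rw [homN_succ, homN_succ, h1, h2, h3, ← map_sub, ← map_sub, perm_comp, perm_comp]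
        congr 3
        group
    · cases l with
      | nil => simp at hl
      | cons g r => rw [(key g r hl).2, if_neg (by omega)]; rfl

theorem system_unique (hP : Adm ρ P) {σ σ' : List G → Ch ℤ T} (h : IsSystem ρ P σ)
    (h' : IsSystem ρ P σ') (m : ℕ) (e : List T → ℤ)
    (he : ∀ l, P l → l.length = m + 1 → lin ℤ e (bdL ℤ l) = 0)
    (hinv : ∀ g l, P l → e (l.map (ρ g)) = e l) :
    ∃ k : List G → ℤ, (∀ g l, k (l.map (g * ·)) = k l) ∧
      ∀ l : List G, l.length = m → lin ℤ e (σ l) - lin ℤ e (σ' l) = lin ℤ k (bdL ℤ l) := by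
  refine ⟨fun l => lin ℤ e (homN ρ P σ σ' l.length l), ?_, ?_⟩
  · intro g l
    have h1 := (homN_spec hP h h' l.length).2.1 g l rfl
    have h2 : lin ℤ e (mp ℤ (ρ g) (homN ρ P σ σ' l.length l)) =
        lin ℤ e (homN ρ P σ σ' l.length l) := by
      rw [lin_mp]
      exact lin_congr_K (P := P) (fun l' hl' _ => hinv g l' hl')
        ((homN_spec hP h h' l.length).1 l rfl)
    simp only [List.length_map]
    rw [h1, h2]
  · intro l hl
    have h1 := (homN_spec hP h h' m).2.2 l hl
    have h0 : lin ℤ e (bd ℤ (homN ρ P σ σ' m l)) = 0 := by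
      have hmem := (homN_spec hP h h' m).1 l hl
      have : (lin ℤ e).comp (bd ℤ) (homN ρ P σ σ' m l) = (0 : Ch ℤ T →ₗ[ℤ] ℤ) _ :=
        eq_on_K (P := P) (k := m + 1) (fun l' hl' hk => by
          simp [bd_single, he l' hl' hk]) hmem
      simpa using this
    rcases Nat.eq_zero_or_pos m with hm | hm
    · subst hm
      rw [List.eq_nil_of_length_eq_zero hl, h.nil, h'.nil]
      simp
    · rw [if_neg (by omega)] at h1
      rw [h1, map_sub, map_sub, map_lin] at h0
      have e1 : lin ℤ (fun l' => lin ℤ e (homN ρ P σ σ' l'.length l')) (bdL ℤ l) =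
          lin ℤ (fun l' => lin ℤ e (homN ρ P σ σ' (m - 1) l')) (bdL ℤ l) :=
        lin_congr_K (P := fun _ => True) (k := m - 1) (fun l' _ hl' => by rw [hl'])
          (bdL_mem_K_true (by omega))
      rw [e1]
      linarith

end

end Pool.Agent.H121
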