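import Pool.Agent.helper121_TH.Sys
import Pool.Agent.helper121_TH.GP
import Pool.Agent.helper121_TH.Eps

/-!
# Lattice points in simplices; comparison of the lattice sum with the Euler cochain
-/

namespace Pool.Agent.H121

section

variable {n : ℕ}

/-- Translate a list of points by minus a lattice point. -/
def shiftL (p : Fin n → ℤ) (l : List (Fin n → ℝ)) : List (Fin n → ℝ) :=
  l.map (fun x i => x i - (p i : ℝ))

theorem getD_eraseIdx (l : List (Fin n → ℝ)) (i : Fin (n + 1)) (j : Fin n) :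
    (l.eraseIdx i).getD j 0 = l.getD (i.succAbove j) 0 := by
  rw [List.getD_eq_getElem?_getD, List.getD_eq_getElem?_getD, List.getElem?_eraseIdx]
  congr 1
  by_cases h : (j : ℕ) < (i : ℕ)
  · rw [if_pos h, Fin.succAbove_of_castSucc_lt _ _ (by simpa [Fin.lt_def] using h)]
    rfl
  · rw [if_neg h, Fin.succAbove_of_le_castSucc _ _ (by simpa [Fin.le_def] using h)]
    rfl

theorem minor_eq (l : List (Fin n → ℝ)) (i : Fin (n + 1)) :
    minor n l i = (-1) ^ (i : ℕ) *
      Matrix.det (Matrix.of fun j : Fin n => l.getD (i.succAbove j) 0) := by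
  unfold minor
  congr 3
  funext j
  exact getD_eraseIdx l i j

/-- Cramer's rule for the minors. -/
theorem minor_cramer (l : List (Fin n → ℝ)) (j : Fin n) :
    ∑ i : Fin (n + 1), minor n l i * (l.getD i 0) j = 0 := by
  let M : Matrix (Fin (n + 1)) (Fin (n + 1)) ℝ :=
    Matrix.of fun i => Fin.cons ((l.getD i 0) j) (l.getD i 0)
  have h1 : M.det = 0 := by
    apply Matrix.det_zero_of_column_eq (i := 0) (j := j.succ) (Fin.succ_ne_zero j).symm
    intro k
    simp [M]
  rw [Matrix.det_succ_column_zero] at h1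
  rw [← h1]
  refine Finset.sum_congr rfl fun i _ => ?_
  rw [minor_eq]
  have : M.submatrix i.succAbove Fin.succ =
      Matrix.of fun j : Fin n => l.getD (i.succAbove j) 0 := by
    ext a b
    simp [M]
  rw [this]
  simp only [M, Matrix.of_apply, Fin.cons_zero]
  ring

theorem eps_ne_zero {l : List (Fin n → ℝ)} (h : eps n l ≠ 0) :
    (∀ i : Fin (n + 1), 0 < minor n l i) ∨ (∀ i : Fin (n + 1), minor n l i < 0) := by
  unfold eps at h
  split_ifs at h with h1 h2
  · exact Or.inl fun i => h1 i (by omega)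
  · exact Or.inr fun i => h2 i (by omega)
  · exact absurd rfl h

theorem eps_short (hn : 1 ≤ n) {l : List (Fin n → ℝ)} (hl : l.length ≤ n) : eps n l = 0 := by
  by_contra h
  -- find an index different from `l.length`
  obtain ⟨i, hi⟩ : ∃ i : Fin (n + 1), (i : ℕ) ≠ l.length := by
    by_cases h0 : l.length = 0
    · exact ⟨⟨1, by omega⟩, by simp [h0]⟩
    · exact ⟨⟨0, by omega⟩, fun h => h0 h.symm⟩
  have h0 : minor n l i = 0 := by
    rw [minor_eq]
    obtain ⟨j, hj⟩ := Fin.exists_succAbove_eq (y := i)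
      (x := (⟨l.length, by omega⟩ : Fin (n + 1))) (fun h => hi (by rw [← h]))
    rw [Matrix.det_eq_zero_of_row_eq_zero j, mul_zero]
    intro k
    simp only [Matrix.of_apply, hj]
    rw [List.getD_eq_default _ _ le_rfl]
    rfl
  rcases eps_ne_zero h with h1 | h1
  · exact (h1 i).ne' h0
  · exact (h1 i).ne h0

theorem eps_shift_bound (hn : 1 ≤ n) (l : List (Fin n → ℝ)) (p : Fin n → ℤ)
    (h : eps n (shiftL p l) ≠ 0) (j : Fin n) :
    |(p j : ℝ)| ≤ ∑ i : Fin (n + 1), |(l.getD i 0) j| := by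
  have hlen : n + 1 ≤ l.length := by
    by_contra hcon
    exact h (eps_short hn (by unfold shiftL; rw [List.length_map]; omega))
  have hget : ∀ i : Fin (n + 1), ((shiftL p l).getD i 0) j = (l.getD i 0) j - p j := by
    intro i
    have hi : (i : ℕ) < l.length := by omega
    unfold shiftL
    rw [List.getD_eq_getElem _ _ (by simpa using hi), List.getD_eq_getElem _ _ hi,
      List.getElem_map]
  have hc := minor_cramer (shiftL p l) j
  simp only [hget, mul_sub, Finset.sum_sub_distrib, ← Finset.sum_mul, sub_eq_zero] at hc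
  set m : Fin (n + 1) → ℝ := fun i => minor n (shiftL p l) i with hm
  have key : (∑ i, |m i|) * |(p j : ℝ)| ≤ (∑ i, |m i|) * ∑ i : Fin (n + 1), |(l.getD i 0) j| := by
    have e1 : |∑ i, m i| = ∑ i, |m i| := by
      rcases eps_ne_zero h with h1 | h1
      · rw [abs_of_nonneg (Finset.sum_nonneg fun i _ => (h1 i).le)]
        exact Finset.sum_congr rfl fun i _ => (abs_of_pos (h1 i)).symm
      · rw [abs_of_nonpos (Finset.sum_nonpos fun i _ => (h1 i).le), ← Finset.sum_neg_distrib]
        exact Finset.sum_congr rfl fun i _ => (abs_of_neg (h1 i)).symm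
    rw [← e1, ← abs_mul, ← hc]
    calc |∑ i, m i * (l.getD i 0) j| ≤ ∑ i, |m i * (l.getD i 0) j| :=
          Finset.abs_sum_le_sum_abs _ _
      _ ≤ ∑ i, |m i| * ∑ i : Fin (n + 1), |(l.getD i 0) j| := by
          refine Finset.sum_le_sum fun i _ => ?_
          rw [abs_mul]
          exact mul_le_mul_of_nonneg_left (Finset.single_le_sum
            (f := fun i : Fin (n + 1) => |(l.getD i 0) j|)
            (fun i _ => abs_nonneg _) (Finset.mem_univ i)) (abs_nonneg _)
      _ = (|∑ i, m i|) * ∑ i : Fin (n + 1), |(l.getD i 0) j| := by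
          rw [e1, Finset.sum_mul]
  refine le_of_mul_le_mul_left key ?_
  have h0 : 0 < |m 0| := by
    rcases eps_ne_zero h with h1 | h1
    · exact abs_pos.2 (h1 0).ne'
    · exact abs_pos.2 (h1 0).ne
  exact lt_of_lt_of_le h0 (Finset.single_le_sum (f := fun i => |m i|)
    (fun i _ => abs_nonneg _) (Finset.mem_univ 0))

theorem eps_finite (hn : 1 ≤ n) (l : List (Fin n → ℝ)) :
    {p : Fin n → ℤ | eps n (shiftL p l) ≠ 0}.Finite := by
  set B : ℤ := ⌈∑ j : Fin n, ∑ i : Fin (n + 1), |(l.getD i 0) j|⌉ with hB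
  refine Set.Finite.subset (Set.finite_Icc (fun _ : Fin n => -B) (fun _ => B)) ?_
  intro p hp
  have h1 : ∀ j, |(p j : ℝ)| ≤ (B : ℝ) := by
    intro j
    refine (eps_shift_bound hn l p hp j).trans ?_
    refine le_trans ?_ (Int.le_ceil _)
    exact Finset.single_le_sum (f := fun j : Fin n => ∑ i : Fin (n + 1), |(l.getD i 0) j|)
      (fun j _ => Finset.sum_nonneg fun i _ => abs_nonneg _) (Finset.mem_univ j)
  have h2 : ∀ j, |p j| ≤ B := fun j => by exact_mod_cast h1 j
  exact ⟨fun j => (abs_le.1 (h2 j)).1, fun j => (abs_le.1 (h2 j)).2⟩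

open Classical in
/-- The finitely supported function `p ↦ eps n (l - p)` on the lattice. -/
noncomputable def NN (n : ℕ) (l : List (Fin n → ℝ)) : (Fin n → ℤ) →₀ ℤ :=
  if h : 1 ≤ n then Finsupp.ofSupportFinite (fun p => eps n (shiftL p l))
    (eps_finite h l) else 0

theorem nn_apply (hn : 1 ≤ n) (l : List (Fin n → ℝ)) (p : Fin n → ℤ) :
    NN n l p = eps n (shiftL p l) := by
  unfold NN
  rw [dif_pos hn]
  rfl

theorem lin_nn_apply (hn : 1 ≤ n) (c : Ch ℤ (Fin n → ℝ)) (p : Fin n → ℤ) :
    lin ℤ (NN n) c p = lin ℤ (fun l => eps n (shiftL p l)) c := by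
  have := map_lin (Finsupp.lapply p : ((Fin n → ℤ) →₀ ℤ) →ₗ[ℤ] ℤ) (NN n) c
  simp only [Finsupp.lapply_apply, nn_apply hn] at this
  exact this

/-- `eps` of translated lists vanishes on boundaries of lists in general position after
translation. -/
theorem lin_eps_shift_bdL (p : Fin n → ℤ) (l : List (Fin n → ℝ)) :
    lin ℤ (fun l => eps n (shiftL p l)) (bdL ℤ l) = lin ℤ (eps n) (bdL ℤ (shiftL p l)) := by
  unfold shiftL
  rw [← mp_bdL, lin_mp]

/-- The cocycle property of `NN`. -/
theorem nn_cocycle (hn : 1 ≤ n) {l : List (Fin n → ℝ)} (hl : LatGen n l)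
    (hlen : l.length = n + 2) : lin ℤ (NN n) (bdL ℤ l) = 0 := by
  ext p
  rw [lin_nn_apply hn, lin_eps_shift_bdL, Finsupp.zero_apply]
  obtain ⟨q, hq⟩ : ∃ q : Fin n → ℤ, p ≠ q := by
    refine ⟨fun i => p i + 1, fun h => ?_⟩
    have := congrFun h ⟨0, hn⟩
    simp at this
  refine eps_cocycle hn _ (genPos_sublist (List.sublist_cons_self _ _) (hl p q hq)) ?_
  unfold shiftL
  rw [List.length_map, hlen]

theorem eps_sl {n : ℕ} (A : Matrix.SpecialLinearGroup (Fin n) ℤ) (l : List (Fin n → ℝ)) :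
    eps n (l.map (slPerm n A)) = eps n l := by
  have h : 0 < (A.1.map (Int.cast : ℤ → ℝ)).det := by
    have h1 : (A.1.map (Int.cast : ℤ → ℝ)).det = ((A.1.det : ℤ) : ℝ) := by
      have := RingHom.map_det (Int.castRingHom ℝ) A.1
      simpa using this.symm
    rw [h1, A.2]; simp
  exact eps_map _ h l

theorem nn_translate (p₀ : Fin n → ℤ) (l : List (Fin n → ℝ)) (p : Fin n → ℤ) :
    NN n (l.map (fun x i => x i + (p₀ i : ℝ))) p = NN n l (p - p₀) := by
  by_cases hn : 1 ≤ n
  · rw [nn_apply hn, nn_apply hn]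
    congr 1
    unfold shiftL
    rw [List.map_map]
    apply List.map_congr_left
    intro x _
    funext i
    simp only [Function.comp_apply, Pi.sub_apply, Int.cast_sub]
    ring
  · unfold NN
    rw [dif_neg hn, dif_neg hn]
    rfl

theorem shiftL_sl (A : Matrix.SpecialLinearGroup (Fin n) ℤ) (l : List (Fin n → ℝ))
    (p : Fin n → ℤ) :
    shiftL (A.1.mulVec p) (l.map (slPerm n A)) = (shiftL p l).map (slPerm n A) := by
  unfold shiftL
  rw [List.map_map, List.map_map]
  apply List.map_congr_left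
  intro x _
  simp only [Function.comp_apply]
  rw [slVec_eq, slVec_eq]
  have hsub : (A.1.map (Int.cast : ℤ → ℝ)).mulVec (fun i => x i - (p i : ℝ)) =
      fun i => (A.1.map (Int.cast : ℤ → ℝ)).mulVec x i -
        (A.1.map (Int.cast : ℤ → ℝ)).mulVec (fun i => (p i : ℝ)) i :=
    Matrix.mulVec_sub _ x (fun i => (p i : ℝ))
  rw [hsub]
  funext i
  congr 1
  simp [Matrix.mulVec, dotProduct]

theorem nn_sl (A : Matrix.SpecialLinearGroup (Fin n) ℤ) (l : List (Fin n → ℝ))
    (p : Fin n → ℤ) : NN n (l.map (slPerm n A)) (A.1.mulVec p) = NN n l p := by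
  by_cases hn : 1 ≤ n
  · rw [nn_apply hn, nn_apply hn, shiftL_sl, eps_sl]
  · unfold NN
    rw [dif_neg hn, dif_neg hn]
    rfl

open Classical in
/-- Sum of a finitely supported function over a set of lattice points. -/
noncomputable def sumOver (S : Set (Fin n → ℤ)) : ((Fin n → ℤ) →₀ ℤ) →ₗ[ℤ] ℤ :=
  Finsupp.linearCombination ℤ (fun p => if p ∈ S then (1 : ℤ) else 0)

open Classical in
theorem sumOver_eq (S : Set (Fin n → ℤ)) (f : (Fin n → ℤ) →₀ ℤ) :
    sumOver S f = ∑ p ∈ f.support, if p ∈ S then f p else 0 := by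
  unfold sumOver
  rw [Finsupp.linearCombination_apply, Finsupp.sum]
  refine Finset.sum_congr rfl fun p _ => ?_
  split_ifs <;> simp

/-- The action of `SL_n(ℤ)` on the lattice. -/
def latPerm (A : Matrix.SpecialLinearGroup (Fin n) ℤ) : Equiv.Perm (Fin n → ℤ) where
  toFun := A.1.mulVec
  invFun := (A⁻¹ : Matrix.SpecialLinearGroup (Fin n) ℤ).1.mulVec
  left_inv p := by
    rw [Matrix.mulVec_mulVec, ← Matrix.SpecialLinearGroup.coe_mul, inv_mul_cancel,
      Matrix.SpecialLinearGroup.coe_one, Matrix.one_mulVec]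
  right_inv p := by
    rw [Matrix.mulVec_mulVec, ← Matrix.SpecialLinearGroup.coe_mul, mul_inv_cancel,
      Matrix.SpecialLinearGroup.coe_one, Matrix.one_mulVec]

theorem nn_sl' (A : Matrix.SpecialLinearGroup (Fin n) ℤ) (l : List (Fin n → ℝ)) :
    NN n (l.map (slPerm n A)) = Finsupp.mapDomain (latPerm A) (NN n l) := by
  ext p
  obtain ⟨q, rfl⟩ := (latPerm A).surjective p
  rw [Finsupp.mapDomain_apply (latPerm A).injective]
  exact nn_sl A l q

/-- Sums over invariant sets are invariant. -/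
theorem sumOver_sl (A : Matrix.SpecialLinearGroup (Fin n) ℤ) (S : Set (Fin n → ℤ))
    (hS : ∀ p, A.1.mulVec p ∈ S ↔ p ∈ S) (l : List (Fin n → ℝ)) :
    sumOver S (NN n (l.map (slPerm n A))) = sumOver S (NN n l) := by
  classical
  rw [nn_sl', sumOver, Finsupp.linearCombination_mapDomain]
  congr 1
  congr 1
  funext p
  simp only [Function.comp_apply]
  have : (latPerm A p ∈ S) ↔ p ∈ S := hS p
  simp only [this]

/-- Comparison of the lattice sum with the Euler cochain. -/
theorem sumOver_sub_euler {G : Type*} [Group G] (hn : 1 ≤ n)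
    (ρ : G →* Matrix.SpecialLinearGroup (Fin n) ℤ) {σ : List G → Ch ℤ (Fin n → ℝ)}
    (hσ : IsSystem ((slPerm n).comp ρ) (LatGen n) σ) (S : Set (Fin n → ℤ))
    (h0 : (0 : Fin n → ℤ) ∈ S) (hS : ∀ g p, (ρ g).1.mulVec p ∈ S ↔ p ∈ S) :
    ∃ k : List G → ℤ, (∀ g l, k (l.map (g * ·)) = k l) ∧
      ∀ l : List G, l.length = n + 1 →
        sumOver S (lin ℤ (NN n) (σ l)) - euler n σ l = lin ℤ k (bdL ℤ l) := by
  classical
  -- the functional: sum over nonzero points of `S`
  set S' : Set (Fin n → ℤ) := {p | p ∈ S ∧ p ≠ 0} with hS'def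
  have hS' : ∀ g p, (ρ g).1.mulVec p ∈ S' ↔ p ∈ S' := by
    intro g p
    have h1 : (ρ g).1.mulVec p ≠ 0 ↔ p ≠ 0 := by
      have : (ρ g).1.mulVec p = latPerm (ρ g) p := rfl
      rw [this]
      have h2 : latPerm (ρ g) 0 = 0 := by
        show (ρ g).1.mulVec 0 = 0
        exact Matrix.mulVec_zero _
      constructor
      · rintro h rfl; exact h h2
      · intro h h3; exact h ((latPerm (ρ g)).injective (h3.trans h2.symm))
    simp only [hS'def, Set.mem_ofPred_eq, hS, h1]
  have hsplit : ∀ f : (Fin n → ℤ) →₀ ℤ, sumOver S f = f 0 + sumOver S' f := by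
    intro f
    have : sumOver S = Finsupp.lapply 0 + sumOver S' := by
      apply Finsupp.lhom_ext'
      intro p
      ext
      simp only [sumOver, LinearMap.comp_apply, LinearMap.add_apply, Finsupp.lsingle_apply,
        Finsupp.linearCombination_single, Finsupp.lapply_apply, hS'def, Set.mem_ofPred_eq]
      by_cases hp : p = 0
      · subst hp; simp [h0]
      · simp [hp]
    rw [this]; rfl
  refine ⟨fun l => sumOver S' (lin ℤ (NN n) (cone ℤ 0 (σ l))), ?_, ?_⟩
  · intro g l
    have h1 : cone ℤ (0 : Fin n → ℝ) (σ (l.map (g * ·))) =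
        mp ℤ (slPerm n (ρ g)) (cone ℤ 0 (σ l)) := by
      rw [hσ.act, mp_cone]
      have : slPerm n (ρ g) 0 = 0 := by
        rw [slVec_eq]; exact Matrix.mulVec_zero _
      rw [this]; rfl
    show sumOver S' (lin ℤ (NN n) (cone ℤ 0 (σ (l.map (g * ·))))) =
      sumOver S' (lin ℤ (NN n) (cone ℤ 0 (σ l)))
    rw [h1, lin_mp, map_lin (sumOver S'), map_lin (sumOver S')]
    refine LinearMap.congr_fun ?_ _
    congr 1
    funext l'
    exact sumOver_sl (ρ g) S' (hS' g) l'
  · intro l hl
    rw [hsplit]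
    have h1 : lin ℤ (NN n) (σ l) 0 = euler n σ l := by
      rw [lin_nn_apply hn, euler]
      congr 1
      congr 1
      funext l'
      unfold shiftL
      simp
    rw [h1, add_sub_cancel_left]
    -- cocycle
    have h2 : sumOver S' (lin ℤ (NN n) (bd ℤ (cone ℤ 0 (σ l)))) = 0 := by
      have h3 : ∀ p ∈ S', lin ℤ (NN n) (bd ℤ (cone ℤ 0 (σ l))) p = 0 := by
        intro p hp
        rw [lin_nn_apply hn]
        have hmem := hσ.mem l
        rw [hl] at hmem
        have : ((lin ℤ (fun l => eps n (shiftL p l))).comp ((bd ℤ).comp (cone ℤ 0))) (σ l) =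
            (0 : Ch ℤ (Fin n → ℝ) →ₗ[ℤ] ℤ) (σ l) := by
          refine eq_on_K (P := LatGen n) (k := n + 1) (fun l' hl' hlen => ?_) hmem
          rw [LinearMap.comp_apply, LinearMap.comp_apply, cone_single, bd_single, one_smul,
            lin_eps_shift_bdL]
          refine eps_cocycle hn _ ?_ ?_
          · have h4 := hl' p 0 hp.2
            convert h4 using 1
            unfold shiftL
            rw [List.map_cons]
            congr 1
            funext i
            simp
          · unfold shiftL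
            rw [List.length_map, List.length_cons, hlen]
        exact this
      rw [sumOver_eq]
      refine Finset.sum_eq_zero fun p _ => ?_
      split_ifs with h4
      · exact h3 p h4
      · rfl
    rw [bd_cone, map_sub, map_sub, sub_eq_zero, hσ.bd] at h2
    rw [h2]
    have h5 : cone ℤ (0 : Fin n → ℝ) (lin ℤ σ (bdL ℤ l)) =
        lin ℤ (fun l => cone ℤ 0 (σ l)) (bdL ℤ l) := map_lin _ _ _
    rw [h5, map_lin (lin ℤ (NN n)), map_lin (sumOver S')]

end

end Pool.Agent.H121
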