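import Pool.Agent.helper121_TH.Defs

/-!
# Auxiliary definitions used in the proofs only
-/

namespace Pool.Agent.H121

/-- An admissible class `P` of lists in a set `T` with an action `ρ` of a group `G`: it contains
the empty list, is closed under sublists and under `G`, and every finite set of admissible lists
can be coned off from some point. -/
structure Adm {G T : Type*} [Group G] (ρ : G →* Equiv.Perm T) (P : List T → Prop) : Prop where
  nil : P []
  sub : ∀ {l l' : List T}, l'.Sublist l → P l → P l'
  act : ∀ (g : G) {l : List T}, P l → P (l.map (ρ g))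
  cone : ∀ S : Finset (List T), (∀ l ∈ S, P l) → ∃ w : T, ∀ l ∈ S, P (w :: l)

/-- `Kills m f d`: `d` times the homogeneous cochain `f` (on lists of length `m`) is the coboundary
of a `G`-invariant homogeneous cochain. -/
def Kills {G : Type*} [Group G] (m : ℕ) (f : List G → ℤ) (d : ℤ) : Prop :=
  ∃ h : List G → ℤ, (∀ g l, h (l.map (g * ·)) = h l) ∧
    ∀ l : List G, l.length = m → d * f l = lin ℤ h (bdL ℤ l)

/-- The operators of the periodic resolution of a cyclic group of order `N` generated by `A`:
`1`, `A - 1`, `1 + A + ... + A^(N-1)`, `A - 1`, ... -/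
noncomputable def Dop (R : Type*) [CommRing R] {T : Type*} (N : ℕ) (A : Ch R T →ₗ[R] Ch R T) (k : ℕ) :
    Ch R T →ₗ[R] Ch R T :=
  if k = 0 then LinearMap.id else if Odd k then A - LinearMap.id else ∑ i ∈ Finset.range N, A ^ i

/-- A system of `P`-chains indexed by the periodic resolution, in lengths `0, ..., m`. -/
structure IsW (R : Type*) [CommRing R] {T : Type*} (τ : T → T) (N : ℕ) (P : List T → Prop) (m : ℕ)
    (s : ℕ → Ch R T) : Prop where
  zero : s 0 = Finsupp.single [] 1
  bd : ∀ k < m, bd R (s (k + 1)) = Dop R N (mp R τ) k (s k)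
  mem : ∀ k ≤ m, s k ∈ K R P k

/-- Lists of points of `ℝ^n` in general position with respect to all points of the lattice `ℤ^n`:
for all lattice points `p ≠ q`, the vectors from `p` to `q` and to the entries of the list are in
general position. -/
def LatGen (n : ℕ) (l : List (Fin n → ℝ)) : Prop :=
  ∀ p q : Fin n → ℤ, p ≠ q →
    GenPos n ((fun i => (q i : ℝ) - (p i : ℝ)) :: l.map (fun x i => x i - (p i : ℝ)))

/-- The prism operator of left translation by `g`:
`prismL g [t_0, ..., t_k] = sum_i (-1)^i [t_0, ..., t_i, g t_i, ..., g t_k]`. -/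
noncomputable def prismL (R : Type*) [CommRing R] {G : Type*} [Group G] (g : G) : List G → Ch R G
  | [] => 0
  | t :: r => cone R t (cone R (g * t) (Finsupp.single (r.map (g * ·)) 1)) -
      cone R t (prismL R g r)

/-- `1` for `g = 1` and `2` for `g ≥ 2`, times the product over the primes `p` with
`p - 1 ∣ 2 g` of `p ^ (1 + v_p(2 g))`. -/
def theOrder (g : ℕ) : ℕ :=
  (if g = 1 then 1 else 2) *
    ∏ p ∈ (Finset.range (2 * g + 2)).filter (fun p => p.Prime ∧ (p - 1) ∣ 2 * g),
      p ^ (1 + padicValNat p (2 * g))

end Pool.Agent.H121
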